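import Pool.Agent.H17.GM.TM3
import Pool.Agent.H38.Dist

set_option autoImplicit false
set_option linter.unusedSectionVars false
set_option linter.unusedSimpArgs false
set_option linter.unusedVariables false

/-!
# The distance `dd` of a subtree of a forest is a tree metric
-/

namespace Pool.Agent.H17.GM

open Finset Pool.Agent.H38

section
variable {V : Type*} [DecidableEq V] {G : SimpleGraph V}

lemma dd_tri {W T : Finset V} (hW : Sparse G W) (hT : T ⊆ W) (hs : IsSub G T) {x y z : V}
    (hx : x ∈ T) (hy : y ∈ T) (hz : z ∈ T) : dd G W x z ≤ dd G W x y + dd G W y z := by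
  obtain ⟨P, hP, hPs, hxP, hyP, hPc⟩ := dd_spec hW hT hs hx hy
  obtain ⟨Q, hQ, hQs, hyQ, hzQ, hQc⟩ := dd_spec hW hT hs hy hz
  have hi : (P ∩ Q).Nonempty := ⟨y, mem_inter.mpr ⟨hyP, hyQ⟩⟩
  have h1 := hPs.union hW (hP.trans hT) hQs hi
  have h2 := dd_le (G := G) (W := W) (union_subset (hP.trans hT) (hQ.trans hT)) h1
    (mem_union_left _ hxP) (mem_union_right _ hzQ)
  have h3 := card_union_add_card_inter P Q
  have h4 := card_pos.mpr hi
  omega

/-- removal of a leaf: distances to the leaf go through its neighbour -/
lemma dd_leaf {W T : Finset V} {v u : V} (hW : Sparse G W) (hT : T ⊆ W) (hs : IsSub G T)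
    (hv : v ∈ T) (hu : u ∈ T) (huv : u ≠ v) (ha : G.Adj v u)
    (honly : ∀ w ∈ T, G.Adj v w → w = u) {x : V} (hx : x ∈ T) (hxv : x ≠ v) :
    dd G W v x = dd G W u x + 1 := by
  apply le_antisymm
  · have h1 := dd_tri hW hT hs hv hu hx
    have h2 : dd G W v u ≤ 1 := by
      have h3 : IsSub G (insert v {u}) :=
        (isSub_singleton u).insert_of_adj (by simp) (by simpa using huv.symm) ha
      have h4 := dd_le (G := G) (W := W) (P := insert v {u}) (p := v) (q := u)
        (by
          intro z hz
          rw [mem_insert, mem_singleton] at hz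
          rcases hz with rfl | rfl
          · exact hT hv
          · exact hT hu) h3 (by simp) (by simp)
      have h5 := card_insert_le v ({u} : Finset V)
      rw [card_singleton] at h5
      omega
    omega
  · obtain ⟨P, hP, hPs, hvP, hxP, hPc⟩ := dd_spec hW hT hs hv hx
    -- u ∈ P and P.erase v is a subtree
    have hne : P ≠ {v} := by
      intro h
      rw [h, mem_singleton] at hxP
      exact hxv hxP
    obtain ⟨w, hwP, haw⟩ := hPs.exists_adj hW (hP.trans hT) hvP hne
    have hwu := honly w (hP hwP) haw
    rw [hwu] at hwP
    have hdN : dN G P v ≤ 1 := by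
      classical
      unfold dN
      rw [card_le_one]
      intro a ha' b hb'
      rw [mem_filter] at ha' hb'
      rw [honly a (hP ha'.1) ha'.2, honly b (hP hb'.1) hb'.2]
    have h1 := eI_erase' G hvP
    have h3 := card_erase_of_mem hvP
    have hpos : 0 < P.card := card_pos.mpr hPs.1
    have hsub : IsSub G (P.erase v) := by
      refine ⟨⟨u, mem_erase.mpr ⟨huv, hwP⟩⟩, ?_⟩
      have := hPs.2
      omega
    have h4 := dd_le (G := G) (W := W) ((erase_subset _ _).trans (hP.trans hT)) hsub
      (mem_erase.mpr ⟨huv, hwP⟩) (mem_erase.mpr ⟨hxv, hxP⟩)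
    omega

/-- abstract leaf extension of a tree metric -/
lemma TreeDist.extend {T : Finset V} {d : V → V → ℕ} {v u : V} (hT : TreeDist T d) (hv : v ∉ T)
    (hu : u ∈ T) (h0 : d v v = 0) (h1 : ∀ x ∈ T, d v x = d u x + 1)
    (h2 : ∀ x ∈ T, d x v = d v x) : TreeDist (insert v T) d := by
  have hcu : ∀ x ∈ T, d x v = d x u + 1 := by
    intro x hx
    rw [h2 x hx, h1 x hx, hT.comm u hu x hx]
  have huu := hT.self u hu
  refine ⟨?_, ?_, ?_, ?_, ?_, ?_⟩
  · intro x hx
    rw [mem_insert] at hx
    rcases hx with hx | hx
    · rw [hx]; exact h0
    · exact hT.self x hx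
  · intro x hx y hy
    rw [mem_insert] at hx hy
    rcases hx with hx | hx <;> rcases hy with hy | hy <;>
      (try (replace hx := hx.symm; subst hx)) <;>
      (try (replace hy := hy.symm; subst hy))
    · rfl
    · exact (h2 y hy).symm
    · exact h2 x hx
    · exact hT.comm x hx y hy
  · intro x hx y hy z hz
    rw [mem_insert] at hx hy hz
    rcases hx with hx | hx <;> rcases hy with hy | hy <;> rcases hz with hz | hz <;>
      (try (replace hx := hx.symm; subst hx)) <;>
      (try (replace hy := hy.symm; subst hy)) <;>
      (try (replace hz := hz.symm; subst hz))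
    · omega
    · omega
    · rw [h0]; omega
    · have := hT.tri u hu y hy z hz
      have := h1 y hy
      have := h1 z hz
      omega
    · omega
    · have := hT.tri x hx u hu z hz
      have := hcu x hx
      have := h1 z hz
      omega
    · have := hT.tri x hx y hy u hu
      have := hcu x hx
      have := hcu y hy
      omega
    · exact hT.tri x hx y hy z hz
  · intro x hx y hy h hh
    rw [mem_insert] at hx hy
    rcases hx with hx | hx <;> rcases hy with hy | hy <;>
      (try (replace hx := hx.symm; subst hx)) <;>
      (try (replace hy := hy.symm; subst hy))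
    · refine ⟨v, mem_insert_self _ _, ?_, ?_⟩
      · rw [h0] at hh ⊢; omega
      · unfold Bt; omega
    · -- from the leaf
      rcases Nat.eq_zero_or_pos h with hz | hz
      · refine ⟨v, mem_insert_self _ _, by omega, ?_⟩
        unfold Bt; omega
      · have h3 := h1 y hy
        obtain ⟨w, hw, hw1, hw2⟩ := hT.geo u hu y hy (h - 1) (by omega)
        have h4 := h1 w hw
        refine ⟨w, mem_insert_of_mem hw, by omega, ?_⟩
        unfold Bt at *; omega
    · by_cases hc : h ≤ d x u
      · obtain ⟨w, hw, hw1, hw2⟩ := hT.geo x hx u hu h hc
        have h3 := hcu x hx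
        have h4 := hcu w hw
        refine ⟨w, mem_insert_of_mem hw, hw1, ?_⟩
        unfold Bt at *; omega
      · have h3 := hcu x hx
        refine ⟨v, mem_insert_self _ _, by omega, ?_⟩
        unfold Bt; omega
    · obtain ⟨w, hw, hw1, hw2⟩ := hT.geo x hx y hy h hh
      exact ⟨w, mem_insert_of_mem hw, hw1, hw2⟩
  · intro x hx y hy a ha b hb hab hbb heq
    rw [mem_insert] at hx hy ha hb
    unfold Bt at hab hbb
    rcases hx with hx | hx <;> rcases hy with hy | hy <;>
      (try (replace hx := hx.symm; subst hx)) <;>
      (try (replace hy := hy.symm; subst hy))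
    · -- x = y = v
      have key : ∀ c, c = v ∨ c ∈ T → d v c + d c v = d v v → c = v := by
        intro c hc hcc
        rcases hc with hc | hc
        · exact hc
        · have := h1 c hc
          omega
      rw [key a ha hab, key b hb hbb]
    · -- x = v, y ∈ T
      rcases ha with ha | ha <;> rcases hb with hb | hb <;>
        (try (replace ha := ha.symm; subst ha)) <;> (try (replace hb := hb.symm; subst hb))
      · rfl
      · have := h1 b hb
        omega
      · have := h1 a ha
        omega
      · have e1 := h1 a ha
        have e2 := h1 b hb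
        have e3 := h1 y hy
        exact hT.uniq u hu y hy a ha b hb (by unfold Bt; omega) (by unfold Bt; omega) (by omega)
    · -- y = v, x ∈ T
      rcases ha with ha | ha <;> rcases hb with hb | hb <;>
        (try (replace ha := ha.symm; subst ha)) <;> (try (replace hb := hb.symm; subst hb))
      · rfl
      · have e1 := hcu b hb
        have e2 := hcu x hx
        have e3 := hT.tri x hx b hb u hu
        omega
      · have e1 := hcu a ha
        have e2 := hcu x hx
        have e3 := hT.tri x hx a ha u hu
        omega
      · have e1 := hcu a ha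
        have e2 := hcu b hb
        have e3 := hcu x hx
        exact hT.uniq x hx u hu a ha b hb (by unfold Bt; omega) (by unfold Bt; omega) heq
    · -- both in T
      have key : ∀ c, c = v ∨ c ∈ T → d x c + d c y = d x y → c ∈ T := by
        intro c hc hcc
        rcases hc with hc | hc
        · rw [hc] at hcc
          have e1 := hcu x hx
          have e2 := h1 y hy
          have e3 := hT.tri x hx u hu y hy
          omega
        · exact hc
      exact hT.uniq x hx y hy a (key a ha hab) b (key b hb hbb) hab hbb heq
  · -- medians
    intro x hx y hy z hz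
    rw [mem_insert] at hx hy hz
    -- general facts about `Bt`
    have bv : ∀ a ∈ T, ∀ b ∈ T, Bt d v a b ↔ Bt d u a b := by
      intro a ha b hb
      have e1 := h1 a ha
      have e2 := h1 b hb
      unfold Bt; omega
    have bv' : ∀ a ∈ T, ∀ b ∈ T, Bt d b a v ↔ Bt d b a u := by
      intro a ha b hb
      have e1 := hcu a ha
      have e2 := hcu b hb
      unfold Bt; omega
    have bn : ∀ a ∈ T, ∀ b ∈ T, ¬ Bt d a v b := by
      intro a ha b hb h
      have e1 := hcu a ha
      have e2 := h1 b hb
      have e3 := hT.tri a ha u hu b hb
      unfold Bt at h; omega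
    have bl : ∀ b, Bt d v v b := by
      intro b
      unfold Bt; omega
    have br : ∀ b, Bt d b v v := by
      intro b
      unfold Bt; omega
    have bvv : ∀ a ∈ T, ¬ Bt d v a v := by
      intro a ha h
      have e1 := h1 a ha
      unfold Bt at h; omega
    rcases hx with hx | hx <;> rcases hy with hy | hy <;> rcases hz with hz | hz <;>
      (try (replace hx := hx.symm; subst hx)) <;>
      (try (replace hy := hy.symm; subst hy)) <;>
      (try (replace hz := hz.symm; subst hz))
    · refine ⟨v, ?_⟩
      intro w hw hbw hwm
      rw [mem_insert] at hw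
      rcases hw with hw | hw
      · replace hw := hw.symm
        subst hw
        exact absurd rfl hwm
      · exact absurd hbw (bvv w hw)
    · refine ⟨v, ?_⟩
      intro w hw hbw hwm
      rw [mem_insert] at hw
      rcases hw with hw | hw
      · replace hw := hw.symm
        subst hw
        exact absurd rfl hwm
      · exact absurd hbw (bvv w hw)
    · -- x = z = v, y ∈ T : median v
      refine ⟨v, ?_⟩
      intro w hw hbw hwm
      rw [mem_insert] at hw
      rcases hw with hw | hw
      · replace hw := hw.symm
        subst hw
        exact absurd rfl hwm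
      · right
        exact ⟨bvv w hw, hbw⟩
    · -- x = v, y, z ∈ T
      obtain ⟨m, hm⟩ := hT.med u hu y hy z hz
      refine ⟨m, ?_⟩
      intro w hw hbw hwm
      rw [mem_insert] at hw
      rcases hw with hw | hw
      · replace hw := hw.symm
        subst hw
        left
        exact ⟨br z, bn z hz y hy⟩
      · rcases hm w hw ((bv w hw y hy).mp hbw) hwm with h | h
        · left; exact ⟨(bv' w hw z hz).mpr h.1, h.2⟩
        · right; exact ⟨fun h' => h.1 ((bv' w hw z hz).mp h'), h.2⟩
    · -- y = z = v, x ∈ T
      refine ⟨v, ?_⟩
      intro w hw hbw hwm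
      rw [mem_insert] at hw
      rcases hw with hw | hw
      · replace hw := hw.symm
        subst hw
        exact absurd rfl hwm
      · left
        refine ⟨?_, bvv w hw⟩
        have e1 := h2 x hx
        have e2 := h2 w hw
        have e3 := hT.comm x hx w hw
        unfold Bt at hbw ⊢; omega
    · -- y = v, x, z ∈ T
      obtain ⟨m, hm⟩ := hT.med x hx u hu z hz
      refine ⟨m, ?_⟩
      intro w hw hbw hwm
      rw [mem_insert] at hw
      rcases hw with hw | hw
      · replace hw := hw.symm
        subst hw
        right
        exact ⟨bn z hz x hx, br z⟩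
      · rcases hm w hw ((bv' w hw x hx).mp hbw) hwm with h | h
        · left; exact ⟨h.1, fun h' => h.2 ((bv' w hw z hz).mp h')⟩
        · right; exact ⟨h.1, (bv' w hw z hz).mpr h.2⟩
    · -- z = v, x, y ∈ T
      obtain ⟨m, hm⟩ := hT.med x hx y hy u hu
      refine ⟨m, ?_⟩
      intro w hw hbw hwm
      rw [mem_insert] at hw
      rcases hw with hw | hw
      · replace hw := hw.symm
        subst hw
        exact absurd hbw (bn x hx y hy)
      · rcases hm w hw hbw hwm with h | h
        · left; exact ⟨(bv w hw x hx).mpr h.1, fun h' => h.2 ((bv w hw y hy).mp h')⟩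
        · right; exact ⟨fun h' => h.1 ((bv w hw x hx).mp h'), (bv w hw y hy).mpr h.2⟩
    · obtain ⟨m, hm⟩ := hT.med x hx y hy z hz
      refine ⟨m, ?_⟩
      intro w hw hbw hwm
      rw [mem_insert] at hw
      rcases hw with hw | hw
      · replace hw := hw.symm
        subst hw
        exact absurd hbw (bn x hx y hy)
      · exact hm w hw hbw hwm

/-- the distance of a subtree is a tree metric -/
theorem treeDist_dd {W : Finset V} (hW : Sparse G W) : ∀ (n : ℕ) (T : Finset V), T.card = n →
    T ⊆ W → IsSub G T → TreeDist T (dd G W) := by
  classical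
  intro n
  induction n with
  | zero =>
    intro T hc hT hs
    exact absurd (card_eq_zero.mp hc) (nonempty_iff_ne_empty.mp hs.1)
  | succ n ih =>
    intro T hc hT hs
    obtain ⟨v, hv, hl⟩ := exists_leaf (hW.mono G hT) hs.1
    by_cases hne : T = {v}
    · subst hne
      have h0 : dd G W v v = 0 := dd_self (hT hv)
      refine ⟨?_, ?_, ?_, ?_, ?_, ?_⟩
      · intro x hx
        rw [mem_singleton] at hx; subst hx; exact h0
      · intro x hx y hy
        rw [mem_singleton] at hx hy; subst hx; subst hy; rfl
      · intro x hx y hy z hz
        rw [mem_singleton] at hx hy hz; subst hx; subst hy; subst hz; omega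
      · intro x hx y hy h hh
        rw [mem_singleton] at hx hy; subst hx; subst hy
        refine ⟨y, by simp, by omega, ?_⟩
        unfold Bt; omega
      · intro x hx y hy a ha b hb _ _ _
        rw [mem_singleton] at ha hb; subst ha; subst hb; rfl
      · intro x hx y hy z hz
        refine ⟨v, ?_⟩
        intro w hw _ hwm
        rw [mem_singleton] at hw
        exact absurd hw hwm
    · have hse := hs.erase_leaf (hW.mono G hT) subset_rfl hl hne
      obtain ⟨u, hu, hau⟩ := hs.exists_adj hW hT hv hne
      have huv : u ≠ v := hau.ne'
      have honly : ∀ w ∈ T, G.Adj v w → w = u := by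
        intro w hw haw
        by_contra hne'
        have := two_le_dN_of_adj G hne' hw hu haw hau
        omega
      have hce : (T.erase v).card = n := by rw [card_erase_of_mem hv]; omega
      have hih := ih (T.erase v) hce ((erase_subset _ _).trans hT) hse
      have := hih.extend (v := v) (u := u) (by simp) (mem_erase.mpr ⟨huv, hu⟩)
        (dd_self (hT hv))
        (by
          intro x hx
          rw [mem_erase] at hx
          exact dd_leaf hW hT hs hv hu huv hau honly hx.2 hx.1)
        (fun x _ => dd_comm W x v)
      rwa [insert_erase hv] at this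

end

end Pool.Agent.H17.GM
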