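import Pool.Agent.H17.GM.CU
import Pool.Agent.H17.GM.DDT

set_option autoImplicit false
set_option linter.unusedSectionVars false
set_option linter.unusedSimpArgs false
set_option linter.unusedVariables false

namespace Pool.Agent.H17.GM

open Finset Pool.Agent.H38

section
variable {V : Type*} [DecidableEq V] [Fintype V] {G : SimpleGraph V}

lemma TD.pack_rest {k l : ℕ} {S : Finset V} {𝒯 : Finset (Finset V)} (h : TD G k l S 𝒯)
    {R : Finset V} (hR : R ⊆ S) (hRc : 2 * (k - 1) ≤ R.card) :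
    Pack G (R ∪ 𝒯.biUnion id) (k - 1) := by
  have hT := h.hT
  apply pack_pairs _ _ _ hRc (by omega)
  · intro T hT
    exact ⟨h.sub T hT, (h.disj T hT).mono_right hR, fun x hx => by rw [h.one T hT x (hR hx)]⟩
  · exact h.pd

lemma TD.no_dense {k l : ℕ} {S : Finset V} {𝒯 : Finset (Finset V)} (h : TD G k l S 𝒯)
    {R D : Finset V} (hR : R ⊆ S) (hRc : 2 * (k - 1) ≤ R.card) (hD : Dense G D)
    (hDR : Disjoint D R) (hDT : ∀ C ∈ 𝒯, Disjoint D C) : False := by
  have hk := h.hk
  have h1 := h.pack_rest hR hRc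
  have h2 : Pack G D 1 := Pack.one subset_rfl hD
  have hdd : Disjoint (R ∪ 𝒯.biUnion id) D := by
    rw [disjoint_left]
    intro z hz hz'
    rw [mem_union, mem_biUnion] at hz
    rcases hz with hz | ⟨C, hC, hz⟩
    · exact disjoint_left.mp hDR hz' hz
    · exact disjoint_left.mp (hDT C hC) hz' hz
  have := (h1.add h2 hdd).mono (subset_univ _)
  rw [show k - 1 + 1 = k by omega] at this
  exact h.hP this

lemma TD.sparse {k l : ℕ} {S : Finset V} {𝒯 : Finset (Finset V)} (h : TD G k l S 𝒯) :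
    Sparse G (univ \ S) := by
  classical
  rw [sparse_iff_no_dense]
  intro U hU hUd
  obtain ⟨D, hDU, hDg⟩ := hUd.exists_good
  have hk := h.hk
  refine h.no_dense (R := S) subset_rfl (by rw [h.hS]; omega) hDg.dense ?_ ?_
  · rw [disjoint_left]
    intro z hz hzS
    exact (mem_sdiff.mp (hU (hDU hz))).2 hzS
  · intro C hC
    by_contra hcon
    rw [not_disjoint_iff] at hcon
    obtain ⟨z, hzD, hzC⟩ := hcon
    have hg : Good G (D ∩ C) := by
      refine ⟨⟨z, mem_inter.mpr ⟨hzD, hzC⟩⟩, ?_⟩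
      intro v hv
      rw [mem_inter] at hv
      refine (hDg.2 v hv.1).trans ?_
      unfold dN
      apply card_le_card
      intro w hw
      rw [mem_filter] at hw ⊢
      refine ⟨mem_inter.mpr ⟨hw.1, ?_⟩, hw.2⟩
      by_contra hwC
      have := h.closed C hC v hv.2 w hwC hw.2
      exact (mem_sdiff.mp (hU (hDU hw.1))).2 this
    have h1 := hg.dense.2
    have h2 := h.sp C hC _ inter_subset_right hg.1
    omega

lemma TD.mem_comps {k l : ℕ} {S : Finset V} {𝒯 : Finset (Finset V)} (h : TD G k l S 𝒯)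
    {C : Finset V} (hC : C ∈ 𝒯) : C ∈ comps G (univ \ S) := by
  obtain ⟨z, hz⟩ := (h.sub C hC).1
  have hCW : C ⊆ univ \ S := by
    intro w hw
    rw [mem_sdiff]
    exact ⟨mem_univ _, disjoint_left.mp (h.disj C hC) hw⟩
  rw [Pool.Agent.H38.mem_comps]
  refine ⟨z, hCW hz, ?_⟩
  apply Subset.antisymm
  · have hcs := isSub_comp h.sparse (hCW hz)
    apply hcs.subset_of_closed
    · exact h.sparse.mono G (comp_subset _ _)
    · intro u hu huC w hw hadj
      by_contra hwC
      have := h.closed C hC u huC w hwC hadj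
      exact (mem_sdiff.mp (comp_subset _ _ hw)).2 this
    · exact ⟨z, mem_inter.mpr ⟨mem_comp_self (hCW hz), hz⟩⟩
  · exact isSub_subset_comp hCW (h.sub C hC) hz

lemma TD.dN_le_one {k l : ℕ} {S : Finset V} {𝒯 : Finset (Finset V)} (h : TD G k l S 𝒯)
    {C : Finset V} (hC : C ∈ comps G (univ \ S)) {x : V} (hx : x ∈ S) : dN G C x ≤ 1 := by
  by_contra hcon
  push Not at hcon
  have hk := h.hk
  obtain ⟨c1, c2, c3, c4⟩ := comps_spec h.sparse hC
  have hxC : x ∉ C := fun h' => (mem_sdiff.mp (c1 h')).2 hx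
  refine h.no_dense (R := S.erase x) (erase_subset _ _) ?_ (c2.dense_insert hxC (by omega)) ?_ ?_
  · rw [card_erase_of_mem hx, h.hS]; omega
  · rw [disjoint_left]
    intro z hz hz'
    rw [mem_insert] at hz
    rw [mem_erase] at hz'
    rcases hz with rfl | hz
    · exact hz'.1 rfl
    · exact (mem_sdiff.mp (c1 hz)).2 hz'.2
  · intro T hT
    have hne : T ≠ C := by
      rintro rfl
      rw [h.one T hT x hx] at hcon
      omega
    rw [disjoint_insert_left]
    refine ⟨fun hxT => disjoint_left.mp (h.disj T hT) hxT hx, ?_⟩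
    exact comps_disjoint h.sparse hC (h.mem_comps hT) (Ne.symm hne)

lemma exists_label {C : Finset V} {x : V} (h : 1 ≤ dN G C x) : ∃ p ∈ C, G.Adj x p := by
  classical
  unfold dN at h
  obtain ⟨p, hp⟩ := card_pos.mp (show 0 < _ from h)
  rw [mem_filter] at hp
  exact ⟨p, hp⟩

lemma label_unique {C : Finset V} {x p p' : V} (h : dN G C x ≤ 1) (hp : p ∈ C) (hp' : p' ∈ C)
    (h1 : G.Adj x p) (h2 : G.Adj x p') : p = p' := by
  by_contra hne
  have := two_le_dN_of_adj G hne hp hp' h1 h2
  omega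


end

end Pool.Agent.H17.GM
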