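import Pool.Agent.H17.GM.TM3

set_option autoImplicit false
set_option linter.unusedSectionVars false
set_option linter.unusedSimpArgs false
set_option linter.unusedVariables false

/-!
# Finite tree metrics: overlapping private paths; the knapsack function
-/

namespace Pool.Agent.H17.GM

open Finset

/-- knapsack value -/
def phi (K L j : ℕ) : ℕ := j / L - (j / L + (K - 1)) / K

lemma ceil_le {K M : ℕ} (hK : 1 ≤ K) : (M + (K - 1)) / K ≤ M := by
  rcases Nat.eq_zero_or_pos M with h | h
  · subst h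
    rw [Nat.zero_add, Nat.div_eq_of_lt (by omega)]
  · obtain ⟨K', rfl⟩ : ∃ K', K = K' + 1 := ⟨K - 1, by omega⟩
    rw [Nat.add_sub_cancel]
    have h1 : (M + K') / (K' + 1) < M + 1 := by
      rw [Nat.div_lt_iff_lt_mul (by omega)]
      nlinarith
    omega

lemma ceil_add {K M a : ℕ} (hK : 1 ≤ K) (ha : a ≤ K) :
    (M + a + (K - 1)) / K ≤ (M + (K - 1)) / K + 1 := by
  calc (M + a + (K - 1)) / K ≤ (M + (K - 1) + K) / K := Nat.div_le_div_right (by omega)
    _ = (M + (K - 1)) / K + 1 := Nat.add_div_right _ (by omega)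

lemma F_mono {K M M' : ℕ} (hK : 1 ≤ K) (h : M ≤ M') :
    M - (M + (K - 1)) / K ≤ M' - (M' + (K - 1)) / K := by
  induction M', h using Nat.le_induction with
  | base => exact le_rfl
  | succ M' h ih =>
    have h1 := ceil_add (M := M') (a := 1) hK hK
    have h2 := ceil_le (M := M') hK
    omega

lemma phi_mono {K L j j' : ℕ} (hK : 1 ≤ K) (h : j ≤ j') : phi K L j ≤ phi K L j' := by
  unfold phi
  exact F_mono hK (Nat.div_le_div_right h)

lemma phi_step {K L j σ a : ℕ} (hK : 1 ≤ K) (hL : 1 ≤ L) (ha : a ≤ K)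
    (h : 2 ≤ a → L * a ≤ σ) : phi K L j + (a - 1) ≤ phi K L (j + σ) := by
  by_cases h2 : 2 ≤ a
  · refine le_trans ?_ (phi_mono hK (show j + L * a ≤ j + σ from Nat.add_le_add_left (h h2) j))
    unfold phi
    rw [Nat.add_mul_div_left _ _ (by omega)]
    have h3 := ceil_add (M := j / L) hK ha
    have h4 := ceil_le (M := j / L) hK
    omega
  · have := phi_mono (K := K) (L := L) hK (show j ≤ j + σ by omega)
    omega

lemma phi_sum {ι : Type*} [DecidableEq ι] {K L : ℕ} (hK : 1 ≤ K) (hL : 1 ≤ L) (s : Finset ι)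
    (σ a : ι → ℕ) (h1 : ∀ i ∈ s, a i ≤ K) (h2 : ∀ i ∈ s, 2 ≤ a i → L * a i ≤ σ i) :
    ∑ i ∈ s, a i ≤ s.card + phi K L (∑ i ∈ s, σ i) := by
  induction s using Finset.induction_on with
  | empty => simp
  | insert b s hb ih =>
    rw [sum_insert hb, sum_insert hb, card_insert_of_notMem hb]
    have h3 := ih (fun i hi => h1 i (mem_insert_of_mem hi)) (fun i hi => h2 i (mem_insert_of_mem hi))
    have h4 := phi_step (j := ∑ i ∈ s, σ i) hK hL (h1 b (mem_insert_self _ _))
      (h2 b (mem_insert_self _ _))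
    rw [add_comm (σ b)]
    omega

/-- lower estimate -/
lemma phi_ge {K L j : ℕ} (hK : 1 ≤ K) (hL : 1 ≤ L) : (K - 1) * (j / (K * L)) ≤ phi K L j := by
  unfold phi
  have h1 : j / (K * L) = j / L / K := by rw [mul_comm, Nat.div_div_eq_div_mul]
  rw [h1]
  set M := j / L with hM
  have h2 : (M + (K - 1)) / K ≤ M / K + (M % K) := by
    have h3 := Nat.div_add_mod M K
    have h4 := Nat.mod_lt M (show 0 < K by omega)
    rcases Nat.eq_zero_or_pos (M % K) with h5 | h5
    · have : M + (K - 1) < K * (M / K + 1) := by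
        rw [mul_add, mul_one]; omega
      rw [h5, add_zero]
      have := (Nat.div_lt_iff_lt_mul (show 0 < K by omega)).mpr
        (show M + (K - 1) < (M / K + 1) * K by rw [mul_comm]; exact this)
      omega
    · have : M + (K - 1) < K * (M / K + 2) := by
        rw [mul_add, mul_two]; omega
      have := (Nat.div_lt_iff_lt_mul (show 0 < K by omega)).mpr
        (show M + (K - 1) < (M / K + 2) * K by rw [mul_comm]; exact this)
      omega
  have h3 := Nat.div_add_mod M K
  obtain ⟨K', rfl⟩ : ∃ K', K = K' + 1 := ⟨K - 1, by omega⟩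
  rw [Nat.add_sub_cancel] at *
  have h4 : (K' + 1) * (M / (K' + 1)) = K' * (M / (K' + 1)) + M / (K' + 1) := by ring
  omega

section
variable {α : Type*} [DecidableEq α] {T : Finset α} {d : α → α → ℕ}
variable (hT : TreeDist T d)
include hT

/-- labels which are not far apart: overlapping private paths -/
lemma TreeDist.overlap {ι : Type*} [DecidableEq ι] (s : Finset ι) (f : ι → α)
    (hf : ∀ x ∈ s, f x ∈ T) {l : ℕ} (hl : 1 ≤ l)
    (h1 : ∀ x ∈ s, ∀ y ∈ s, x ≠ y → l ≤ d (f x) (f y) + 1) (hs : 2 ≤ s.card) :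
    2 * l * s.card ≤ 2 * T.card + ∑ e ∈ s.offDiag, (2 * l - (d (f e.1) (f e.2) + 1)) := by
  classical
  have hex : ∀ x, ∃ z, x ∈ s → z ∈ s ∧ z ≠ x := by
    intro x
    obtain ⟨a, ha, b, hb, hab⟩ := one_lt_card.mp (show 1 < s.card by omega)
    by_cases h : a = x
    · exact ⟨b, fun _ => ⟨hb, fun h' => hab (h.trans h'.symm)⟩⟩
    · exact ⟨a, fun _ => ⟨ha, h⟩⟩
  choose g hg using hex
  set R : ι → Finset α := fun x => T.filter (fun v => Bt d (f x) v (f (g x)) ∧ d (f x) v < l) with hR
  have hRm : ∀ x v, v ∈ R x ↔ v ∈ T ∧ Bt d (f x) v (f (g x)) ∧ d (f x) v < l := by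
    intro x v; simp only [hR, mem_filter]
  have hRc : ∀ x ∈ s, l ≤ (R x).card := by
    intro x hx
    obtain ⟨hz, hzx⟩ := hg x hx
    have hd := h1 x hx (g x) hz hzx.symm
    have hex : ∀ h' ∈ range l, ∃ v ∈ T, d (f x) v = h' ∧ Bt d (f x) v (f (g x)) := by
      intro h' hh'
      rw [mem_range] at hh'
      exact hT.geo (f x) (hf x hx) (f (g x)) (hf _ hz) h' (by omega)
    have : Nonempty α := ⟨f x⟩
    choose! u hu using hex
    have h3 : (range l).card ≤ (R x).card := by
      apply card_le_card_of_injOn u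
      · intro h' hh'
        have hh := hu h' hh'
        rw [mem_coe, mem_range] at hh'
        rw [mem_coe, hRm]
        exact ⟨hh.1, hh.2.2, by omega⟩
      · intro a ha b hb hab
        have h3 := (hu a ha).2.1
        have h4 := (hu b hb).2.1
        rw [← h3, ← h4, hab]
    rwa [card_range] at h3
  have hint : ∀ e ∈ s.offDiag, (R e.1 ∩ R e.2).card ≤ 2 * l - (d (f e.1) (f e.2) + 1) := by
    rintro ⟨x, y⟩ he
    rw [mem_offDiag] at he
    obtain ⟨hx, hy, hxy⟩ := he
    simp only at hx hy hxy ⊢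
    have hd := h1 x hx y hy hxy
    have h3 : (R x ∩ R y).card ≤ (Ico (d (f x) (f y) + 1 - l) l).card := by
      apply card_le_card_of_injOn (fun v => d (f x) v)
      · intro v hv
        rw [mem_coe, mem_inter, hRm, hRm] at hv
        have h4 := hT.tri (f x) (hf x hx) v hv.1.1 (f y) (hf y hy)
        have h5 := hT.comm v hv.1.1 (f y) (hf y hy)
        simp only [coe_Ico, Set.mem_Ico]
        constructor
        · omega
        · exact hv.1.2.2
      · intro v hv w hw hvw
        rw [mem_coe, mem_inter, hRm] at hv hw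
        exact hT.uniq (f x) (hf x hx) (f (g x)) (hf _ (hg x hx).1) v hv.1.1 w hw.1.1 hv.1.2.1
          hw.1.2.1 hvw
    rw [Nat.card_Ico] at h3
    omega
  have hB := card_biUnion_ge s R
  have hU : (s.biUnion R).card ≤ T.card := by
    apply card_le_card
    rw [biUnion_subset]
    intro x _ v hv
    exact ((hRm x v).mp hv).1
  have hs1 := sum_le_sum hRc
  rw [sum_const, smul_eq_mul] at hs1
  have hs2 := sum_le_sum hint
  have e1 : 2 * l * s.card = 2 * (s.card * l) := by ring
  omega

end

end Pool.Agent.H17.GM
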