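import Pool.Agent.H17.GM.CF
import Pool.Agent.H17.GM.TM4

set_option autoImplicit false
set_option linter.unusedSectionVars false
set_option linter.unusedSimpArgs false
set_option linter.unusedVariables false

namespace Pool.Agent.H17.GM

open Finset Pool.Agent.H38

section
variable {V : Type*} [DecidableEq V] [Fintype V] {G : SimpleGraph V}

/-- in a tight component all label distances are at most `2 l + 2 k - 4` -/
lemma TD.close {k l : ℕ} {S : Finset V} {𝒯 : Finset (Finset V)} (h : TD G k l S 𝒯)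
    (hl : 1 ≤ l) {T : Finset V} (hT : T ∈ 𝒯) {x y : V} (hx : x ∈ S) (hy : y ∈ S) (hxy : x ≠ y) :
    ∃ P ⊆ T, IsSub G P ∧ P.card + 3 ≤ 2 * l + 2 * k ∧ (∃ p ∈ P, G.Adj x p) ∧
      (∃ q ∈ P, G.Adj y q) := by
  classical
  have hk := h.hk
  have hsp := h.sp T hT
  have hsub := h.sub T hT
  have hlab : ∀ z, ∃ p, z ∈ S → p ∈ T ∧ G.Adj z p := by
    intro z
    by_cases hz : z ∈ S
    · obtain ⟨p, hp, hzp⟩ := exists_label (G := G) (C := T) (x := z) (by rw [h.one T hT z hz])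
      exact ⟨p, fun _ => ⟨hp, hzp⟩⟩
    · exact ⟨z, fun h' => absurd h' hz⟩
  choose f hf using hlab
  have hfar : ∀ a ∈ S, ∀ b ∈ S, a ≠ b → 2 * l ≤ dd G T (f a) (f b) + 1 := by
    intro a ha b hb hab
    obtain ⟨P, hPT, hPs, huP, hvP, hPc⟩ := dd_spec hsp subset_rfl hsub (hf a ha).1 (hf b hb).1
    have := h.far T hT a ha b hb hab (f a) (hf a ha).1 (f b) (hf b hb).1 (hf a ha).2 (hf b hb).2
      P hPT hPs huP hvP
    omega
  have hinj : Set.InjOn f S := by
    intro a ha b hb hab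
    by_contra hne
    have h3 := hfar a ha b hb hne
    rw [hab, dd_self (hf b hb).1] at h3
    omega
  have hTD := treeDist_dd hsp T.card T rfl subset_rfl hsub
  set Y := S.image f with hY
  have hYc : Y.card = 2 * k - 1 := by rw [hY, card_image_of_injOn hinj, h.hS]
  have hYT : Y ⊆ T := by
    intro z hz
    rw [hY, mem_image] at hz
    obtain ⟨a, ha, rfl⟩ := hz
    exact (hf a ha).1
  have h1 : ∀ y ∈ Y, ∀ z ∈ Y, y ≠ z → 2 * l ≤ dd G T y z + 1 := by
    intro u hu v hv huv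
    rw [hY, mem_image] at hu hv
    obtain ⟨a, ha, rfl⟩ := hu
    obtain ⟨b, hb, rfl⟩ := hv
    exact hfar a ha b hb (fun h' => huv (by rw [h']))
  have h2 := hTD.tight_dist hYT hl h1 (by rw [h.card T hT, hYc]; ring)
    (mem_image_of_mem f hx) (mem_image_of_mem f hy) (fun h' => hxy (hinj hx hy h'))
  rw [hYc] at h2
  obtain ⟨P, hPT, hPs, hpP, hqP, hPc⟩ := dd_spec hsp subset_rfl hsub (hf x hx).1 (hf y hy).1
  exact ⟨P, hPT, hPs, by omega, ⟨f x, hpP, (hf x hx).2⟩, ⟨f y, hqP, (hf y hy).2⟩⟩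

lemma TD.indep {k l : ℕ} {S : Finset V} {𝒯 : Finset (Finset V)} (h : TD G k l S 𝒯)
    (hkl : k ≤ l) : eI G S = 0 := by
  classical
  have hk := h.hk
  have h1 := sum_dN G S
  have h2 : ∑ v ∈ S, dN G S v = 0 := by
    apply sum_eq_zero
    intro x hx
    unfold dN
    rw [card_eq_zero, filter_eq_empty_iff]
    intro y hy hxy
    have hTc := h.hT
    obtain ⟨T, hT⟩ := card_pos.mp (show 0 < 𝒯.card by omega)
    obtain ⟨P, hPT, hPs, hPc, ⟨p, hp, hxp⟩, ⟨q, hq, hyq⟩⟩ :=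
      h.close (by omega) hT hx hy hxy.ne
    have hyP : y ∉ P := fun h' => disjoint_left.mp (h.disj T hT) (hPT h') hy
    have hxP : x ∉ P := fun h' => disjoint_left.mp (h.disj T hT) (hPT h') hx
    have hs := hPs.insert_of_adj hq hyP hyq
    have hx' : x ∉ insert y P := by
      rw [mem_insert]
      rintro (h' | h')
      · exact hxy.ne h'
      · exact hxP h'
    have hd : 2 ≤ dN G (insert y P) x :=
      two_le_dN_of_adj G (show y ≠ p from fun h' => hyP (h' ▸ hp)) (mem_insert_self _ _)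
        (mem_insert_of_mem hp) hxy hxp
    refine h.hg _ ?_ (hs.dense_insert hx' hd)
    rw [card_insert_of_notMem hx', card_insert_of_notMem hyP]
    omega
  omega

/-- two labels in one component and a common tight tree -/
lemma TD.dist_ge {k l : ℕ} {S : Finset V} {𝒯 : Finset (Finset V)} (h : TD G k l S 𝒯)
    (hl : 1 ≤ l) {C : Finset V} (hC : C ∈ comps G (univ \ S)) {x y p q : V} (hx : x ∈ S)
    (hy : y ∈ S) (hxy : x ≠ y) (hpC : p ∈ C) (hqC : q ∈ C) (hxp : G.Adj x p) (hyq : G.Adj y q) :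
    2 * l + 1 ≤ dd G (univ \ S) p q + 2 * k := by
  classical
  have hk := h.hk
  by_contra hcon
  push Not at hcon
  obtain ⟨c1, c2, c3, c4⟩ := comps_spec h.sparse hC
  obtain ⟨P, hPC, hPs, hpP, hqP, hPc⟩ := dd_spec h.sparse c1 c2 hpC hqC
  have hTc := h.hT
  have : (1 : ℕ) ≤ (𝒯.erase C).card := by
    have := pred_card_le_card_erase (s := 𝒯) (a := C)
    omega
  obtain ⟨T, hTe⟩ := card_pos.mp (show 0 < (𝒯.erase C).card from this)
  rw [mem_erase] at hTe
  obtain ⟨hTC, hT⟩ := hTe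
  obtain ⟨P', hPT', hPs', hPc', ⟨p', hp', hxp'⟩, ⟨q', hq', hyq'⟩⟩ := h.close hl hT hx hy hxy
  have hdis : Disjoint P P' :=
    (comps_disjoint h.sparse hC (h.mem_comps hT) (Ne.symm hTC)).mono hPC hPT'
  have hxP : x ∉ P := fun h' => (mem_sdiff.mp (c1 (hPC h'))).2 hx
  have hyP : y ∉ P := fun h' => (mem_sdiff.mp (c1 (hPC h'))).2 hy
  have hxP' : x ∉ P' := fun h' => disjoint_left.mp (h.disj T hT) (hPT' h') hx
  have hyP' : y ∉ P' := fun h' => disjoint_left.mp (h.disj T hT) (hPT' h') hy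
  refine h.hg _ ?_ (pair_dense hPs hPs' hdis hxy hxP hxP' hyP hyP'
    (one_le_dN_of_adj G hqP hyq) (one_le_dN_of_adj G hq' hyq')
    (one_le_dN_of_adj G hpP hxp) (one_le_dN_of_adj G hp' hxp'))
  have h1 := card_insert_le x (insert y (P ∪ P'))
  have h2 := card_insert_le y (P ∪ P')
  have h3 := card_union_le P P'
  omega

/-- a pair of names is close in at most one component -/
lemma TD.short_unique {k l : ℕ} {S : Finset V} {𝒯 : Finset (Finset V)} (h : TD G k l S 𝒯)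
    {C C' : Finset V} (hC : C ∈ comps G (univ \ S)) (hC' : C' ∈ comps G (univ \ S))
    {x y p q p' q' : V} (hx : x ∈ S) (hy : y ∈ S) (hxy : x ≠ y) (hpC : p ∈ C) (hqC : q ∈ C)
    (hxp : G.Adj x p) (hyq : G.Adj y q) (hpC' : p' ∈ C') (hqC' : q' ∈ C')
    (hxp' : G.Adj x p') (hyq' : G.Adj y q') (h1 : dd G (univ \ S) p q + 1 < 2 * l)
    (h2 : dd G (univ \ S) p' q' + 1 < 2 * l) : C = C' := by
  classical
  by_contra hne
  obtain ⟨c1, c2, c3, c4⟩ := comps_spec h.sparse hC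
  obtain ⟨c1', c2', c3', c4'⟩ := comps_spec h.sparse hC'
  obtain ⟨P, hPC, hPs, hpP, hqP, hPc⟩ := dd_spec h.sparse c1 c2 hpC hqC
  obtain ⟨P', hPC', hPs', hpP', hqP', hPc'⟩ := dd_spec h.sparse c1' c2' hpC' hqC'
  have hdis : Disjoint P P' := (comps_disjoint h.sparse hC hC' hne).mono hPC hPC'
  have hxP : x ∉ P := fun h' => (mem_sdiff.mp (c1 (hPC h'))).2 hx
  have hyP : y ∉ P := fun h' => (mem_sdiff.mp (c1 (hPC h'))).2 hy
  have hxP' : x ∉ P' := fun h' => (mem_sdiff.mp (c1' (hPC' h'))).2 hx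
  have hyP' : y ∉ P' := fun h' => (mem_sdiff.mp (c1' (hPC' h'))).2 hy
  refine h.hg _ ?_ (pair_dense hPs hPs' hdis hxy hxP hxP' hyP hyP'
    (one_le_dN_of_adj G hqP hyq) (one_le_dN_of_adj G hqP' hyq')
    (one_le_dN_of_adj G hpP hxp) (one_le_dN_of_adj G hpP' hxp'))
  have h1 := card_insert_le x (insert y (P ∪ P'))
  have h2 := card_insert_le y (P ∪ P')
  have h3 := card_union_le P P'
  omega

open scoped Classical in
/-- by how much the labels of `x` and `y` in `C` are too close -/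
noncomputable def sh (G : SimpleGraph V) (W : Finset V) (l : ℕ) (C : Finset V) (x y : V) : ℕ :=
  ((C ×ˢ C).filter (fun e => G.Adj x e.1 ∧ G.Adj y e.2)).sup
    (fun e => 2 * l - (dd G W e.1 e.2 + 1))

lemma sh_ge {W : Finset V} {l : ℕ} {C : Finset V} {x y p q : V} (hp : p ∈ C) (hq : q ∈ C)
    (hxp : G.Adj x p) (hyq : G.Adj y q) : 2 * l - (dd G W p q + 1) ≤ sh G W l C x y := by
  classical
  unfold sh
  exact le_sup (f := fun e : V × V => 2 * l - (dd G W e.1 e.2 + 1)) (b := (p, q))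
    (by rw [mem_filter, mem_product]; exact ⟨⟨hp, hq⟩, hxp, hyq⟩)

lemma sh_pos {W : Finset V} {l : ℕ} {C : Finset V} {x y : V} (h : sh G W l C x y ≠ 0) :
    ∃ p ∈ C, ∃ q ∈ C, G.Adj x p ∧ G.Adj y q ∧ dd G W p q + 1 < 2 * l ∧
      sh G W l C x y = 2 * l - (dd G W p q + 1) := by
  classical
  unfold sh at h ⊢
  by_cases hne : ((C ×ˢ C).filter (fun e => G.Adj x e.1 ∧ G.Adj y e.2)).Nonempty
  · obtain ⟨e, he, hes⟩ := exists_mem_eq_sup _ hne (fun e : V × V => 2 * l - (dd G W e.1 e.2 + 1))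
    rw [hes] at h ⊢
    rw [mem_filter, mem_product] at he
    exact ⟨e.1, he.1.1, e.2, he.1.2, he.2.1, he.2.2, by omega, rfl⟩
  · rw [not_nonempty_iff_eq_empty] at hne
    rw [hne, sup_empty] at h
    exact absurd rfl h

lemma TD.sum_sh {k l : ℕ} {S : Finset V} {𝒯 : Finset (Finset V)} (h : TD G k l S 𝒯)
    (hl : 1 ≤ l) {x y : V} (hx : x ∈ S) (hy : y ∈ S) (hxy : x ≠ y) :
    ∑ C ∈ comps G (univ \ S), sh G (univ \ S) l C x y ≤ 2 * k - 2 := by
  classical
  have hk := h.hk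
  by_cases hex : ∃ C ∈ comps G (univ \ S), sh G (univ \ S) l C x y ≠ 0
  · obtain ⟨C, hC, hne⟩ := hex
    obtain ⟨p, hp, q, hq, hxp, hyq, hlt, hval⟩ := sh_pos hne
    rw [sum_eq_single_of_mem C hC]
    · rw [hval]
      have := h.dist_ge hl hC hx hy hxy hp hq hxp hyq
      omega
    · intro C' hC' hCC
      by_contra hne'
      obtain ⟨p', hp', q', hq', hxp', hyq', hlt', hval'⟩ := sh_pos hne'
      exact hCC (h.short_unique hC' hC hx hy hxy hp' hq' hxp' hyq' hp hq hxp hyq hlt' hlt)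
  · push Not at hex
    rw [sum_eq_zero hex]
    exact Nat.zero_le _

/-- the size of a component -/
lemma TD.comp_card {k l : ℕ} {S : Finset V} {𝒯 : Finset (Finset V)} (h : TD G k l S 𝒯)
    (hl : 1 ≤ l) (hkl : l = 1 ∨ 2 * k - 2 ≤ l) {C : Finset V} (hC : C ∈ comps G (univ \ S))
    (hL : 2 ≤ ∑ x ∈ S, dN G C x) :
    2 * l * (∑ x ∈ S, dN G C x) ≤ 2 * C.card + ∑ e ∈ S.offDiag, sh G (univ \ S) l C e.1 e.2 := by
  classical
  obtain ⟨c1, c2, c3, c4⟩ := comps_spec h.sparse hC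
  set s := S.filter (fun x => 1 ≤ dN G C x) with hs
  have hsm : ∀ x, x ∈ s ↔ x ∈ S ∧ 1 ≤ dN G C x := by intro x; rw [hs, mem_filter]
  have hsum : ∑ x ∈ S, dN G C x = s.card := by
    rw [hs, card_filter]
    apply sum_congr rfl
    intro x hx
    have := h.dN_le_one hC hx
    split_ifs with h1
    · omega
    · omega
  rw [hsum] at hL ⊢
  have hlab : ∀ z, ∃ p, z ∈ s → p ∈ C ∧ G.Adj z p := by
    intro z
    by_cases hz : z ∈ s
    · obtain ⟨p, hp, hzp⟩ := exists_label ((hsm z).mp hz).2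
      exact ⟨p, fun _ => ⟨hp, hzp⟩⟩
    · exact ⟨z, fun h' => absurd h' hz⟩
  choose f hf using hlab
  have hTD := treeDist_dd h.sparse C.card C rfl c1 c2
  have h1 : ∀ x ∈ s, ∀ y ∈ s, x ≠ y → l ≤ dd G (univ \ S) (f x) (f y) + 1 := by
    intro x hx y hy hxy
    have := h.dist_ge hl hC ((hsm x).mp hx).1 ((hsm y).mp hy).1 hxy (hf x hx).1 (hf y hy).1
      (hf x hx).2 (hf y hy).2
    rcases hkl with hkl | hkl
    · omega
    · omega
  have h2 := hTD.overlap s f (fun x hx => (hf x hx).1) hl h1 hL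
  refine h2.trans (Nat.add_le_add_left ?_ _)
  calc ∑ e ∈ s.offDiag, (2 * l - (dd G (univ \ S) (f e.1) (f e.2) + 1))
      ≤ ∑ e ∈ s.offDiag, sh G (univ \ S) l C e.1 e.2 := by
        apply sum_le_sum
        intro e he
        rw [mem_offDiag] at he
        exact sh_ge (hf _ he.1).1 (hf _ he.2.1).1 (hf _ he.1).2 (hf _ he.2.1).2
    _ ≤ ∑ e ∈ S.offDiag, sh G (univ \ S) l C e.1 e.2 := by
        apply sum_le_sum_of_subset
        exact offDiag_mono (filter_subset _ _)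

/-- upper bound in the presence of tight data -/
theorem TD.bound {k l : ℕ} {S : Finset V} {𝒯 : Finset (Finset V)} (h : TD G k l S 𝒯)
    (hl : 1 ≤ l) (hkl : l = 1 ∨ 2 * k - 2 ≤ l) :
    eI G univ ≤ eI G S + (Fintype.card V - (2 * k - 1)) +
      phi (2 * k - 1) (2 * l) (2 * (Fintype.card V - (2 * k - 1)) +
        (2 * k - 1) * (2 * k - 2) * (2 * k - 2)) := by
  classical
  have hk := h.hk
  have hSW : S ∪ (univ \ S) = univ := by rw [union_sdiff_of_subset (subset_univ _)]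
  have h1 := eI_univ_split (G := G) (X := S) (W := univ \ S) disjoint_sdiff h.sparse
  rw [hSW] at h1
  have hWc : (univ \ S : Finset V).card = Fintype.card V - (2 * k - 1) := by
    rw [card_sdiff_of_subset (subset_univ _), card_univ, h.hS]
  have h2 := phi_sum (K := 2 * k - 1) (L := 2 * l) (by omega) (by omega) (comps G (univ \ S))
    (fun C => 2 * C.card + ∑ e ∈ S.offDiag, sh G (univ \ S) l C e.1 e.2)
    (fun C => ∑ x ∈ S, dN G C x)
    (by
      intro C hC
      calc ∑ x ∈ S, dN G C x ≤ ∑ x ∈ S, 1 := sum_le_sum (fun x hx => h.dN_le_one hC hx)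
        _ = 2 * k - 1 := by rw [sum_const, smul_eq_mul, mul_one, h.hS])
    (fun C hC hL => h.comp_card hl hkl hC hL)
  have h3 : ∑ C ∈ comps G (univ \ S), (2 * C.card +
      ∑ e ∈ S.offDiag, sh G (univ \ S) l C e.1 e.2) ≤
      2 * (Fintype.card V - (2 * k - 1)) + (2 * k - 1) * (2 * k - 2) * (2 * k - 2) := by
    rw [sum_add_distrib, ← mul_sum, ← card_comps h.sparse, hWc, sum_comm]
    apply Nat.add_le_add_left
    have h4 : ∀ e ∈ S.offDiag, ∑ C ∈ comps G (univ \ S), sh G (univ \ S) l C e.1 e.2 ≤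
        2 * k - 2 := by
      intro e he
      rw [mem_offDiag] at he
      exact h.sum_sh hl he.1 he.2.1 he.2.2
    have h5 := sum_le_sum h4
    rw [sum_const, smul_eq_mul, offDiag_card, h.hS] at h5
    refine h5.trans (Nat.mul_le_mul_right _ ?_)
    obtain ⟨κ, rfl⟩ : ∃ κ, k = κ + 2 := ⟨k - 2, by omega⟩
    have e1 : 2 * (κ + 2) - 1 = 2 * κ + 3 := by omega
    have e2 : 2 * (κ + 2) - 2 = 2 * κ + 2 := by omega
    rw [e1, e2]
    have : (2 * κ + 3) * (2 * κ + 3) = (2 * κ + 3) * (2 * κ + 2) + (2 * κ + 3) := by ring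
    omega
  have h4 := phi_mono (K := 2 * k - 1) (L := 2 * l) (by omega) h3
  rw [hWc] at h1
  omega

end

end Pool.Agent.H17.GM
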