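import Pool.Agent.H17.GM.CG

set_option autoImplicit false
set_option linter.unusedSectionVars false
set_option linter.unusedSimpArgs false
set_option linter.unusedVariables false

namespace Pool.Agent.H17.GM

open Finset Pool.Agent.H38

lemma phi_double {K l j : ℕ} : phi K (2 * l) (2 * j) = phi K l j := by
  unfold phi
  rw [Nat.mul_div_mul_left _ _ (by norm_num)]

/-- the main upper bound, `σ = (2k-1)(k-1)(2k-2)` -/
theorem upper (k l a b : ℕ) (hk : 2 ≤ k) (hl : 1 ≤ l) (ha : 1 ≤ a)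
    (hkl : l = 1 ∨ 2 * k - 2 ≤ l) : ∃ n0 : ℕ, ∀ (V : Type) [Fintype V] [DecidableEq V]
    (G : SimpleGraph V), n0 ≤ Fintype.card V →
    (∀ U : Finset V, U.card < 4 * l + 1 → ¬ Dense G U) → ¬ Pack G univ k →
    TB G k l → LB G k l a b →
    eI G univ ≤ (2 * k - 1) * (2 * k - 1) + (Fintype.card V - (2 * k - 1)) +
        phi (2 * k - 1) l (Fintype.card V - (2 * k - 1) + (2 * k - 1) * (k - 1) * (2 * k - 2)) ∧
    (k ≤ l → eI G univ ≤ (Fintype.card V - (2 * k - 1)) +
        phi (2 * k - 1) l (Fintype.card V - (2 * k - 1) +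
          (2 * k - 1) * (k - 1) * (2 * k - 2))) := by
  obtain ⟨n0, hn0⟩ := exists_TD k l a b hk hl ha
  refine ⟨n0, fun V _ _ G hn hg hP hTB hLB => ?_⟩
  set N := Fintype.card V - (2 * k - 1) with hN
  by_cases hcon : N + (2 * k - 2) * (N / ((2 * k - 1) * l)) ≤ eI G univ
  · obtain ⟨S, 𝒯, htd⟩ := hn0 V G hn hg hP hTB hLB hcon
    have h1 := htd.bound hl hkl
    have e1 : 2 * (Fintype.card V - (2 * k - 1)) + (2 * k - 1) * (2 * k - 2) * (2 * k - 2) =
        2 * (N + (2 * k - 1) * (k - 1) * (2 * k - 2)) := by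
      obtain ⟨κ, rfl⟩ : ∃ κ, k = κ + 1 := ⟨k - 1, by omega⟩
      have e2 : 2 * (κ + 1) - 2 = 2 * κ := by omega
      have e3 : κ + 1 - 1 = κ := by omega
      rw [← hN, e2, e3]
      ring
    rw [e1, phi_double] at h1
    have h2 := eI_le_sq (G := G) S
    rw [htd.hS] at h2
    refine ⟨by omega, fun hkl' => ?_⟩
    have h3 := htd.indep hkl'
    omega
  · push Not at hcon
    have h1 : (2 * k - 2) * (N / ((2 * k - 1) * l)) ≤
        phi (2 * k - 1) l (N + (2 * k - 1) * (k - 1) * (2 * k - 2)) := by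
      have h2 := phi_ge (K := 2 * k - 1) (L := l) (j := N) (by omega) hl
      have h3 := phi_mono (K := 2 * k - 1) (L := l) (j := N)
        (j' := N + (2 * k - 1) * (k - 1) * (2 * k - 2)) (by omega) (Nat.le_add_right _ _)
      have e1 : 2 * k - 1 - 1 = 2 * k - 2 := by omega
      rw [e1] at h2
      exact h2.trans h3
    exact ⟨by omega, fun _ => by omega⟩

end Pool.Agent.H17.GM
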