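import Pool.Agent.H38.Interface
import Pool.Agent.H38.Dist

set_option autoImplicit false
set_option linter.unusedSectionVars false
set_option linter.unusedSimpArgs false
set_option linter.unusedVariables false

/-!
# Transport of the basic notions along embeddings; passages through closed components
-/

namespace Pool.Agent.H17.GM

open Finset Pool.Agent.H38

section
variable {V V' : Type*} [DecidableEq V] [DecidableEq V'] {H : SimpleGraph V'} (f : V ↪ V')

lemma dN_comap (U : Finset V) (v : V) : dN (H.comap f) U v = dN H (U.map f) (f v) := by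
  classical
  unfold dN
  rw [filter_map, card_map]
  rfl

lemma eI_comap (U : Finset V) : eI (H.comap f) U = eI H (U.map f) := by
  classical
  induction U using Finset.induction_on with
  | empty => simp [eI]
  | insert a U ha ih =>
    have h1 : f a ∉ U.map f := by
      rw [mem_map']; exact ha
    rw [map_insert, eI_insert _ ha, eI_insert _ h1, ih, dN_comap]

lemma isSub_comap {U : Finset V} : IsSub (H.comap f) U ↔ IsSub H (U.map f) := by
  unfold IsSub
  rw [eI_comap, card_map, map_nonempty]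

lemma dense_comap {U : Finset V} : Dense (H.comap f) U ↔ Dense H (U.map f) := by
  unfold Pool.Agent.H38.Dense
  rw [eI_comap, card_map, map_nonempty]

lemma sparse_comap {U : Finset V} : Sparse (H.comap f) U ↔ Sparse H (U.map f) := by
  classical
  constructor
  · intro h P hP hne
    obtain ⟨P0, hP0, rfl⟩ := subset_map_iff.mp hP
    rw [← eI_comap, card_map]
    exact h P0 hP0 (map_nonempty.mp hne)
  · intro h P hP hne
    have := h (P.map f) (map_subset_map.mpr hP) (hne.map)
    rwa [← eI_comap, card_map] at this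

lemma pack_comap {U : Finset V} {k : ℕ} (h : Pack (H.comap f) U k) : Pack H (U.map f) k := by
  obtain ⟨D, hD, hd⟩ := h
  refine ⟨fun i => (D i).map f, fun i => ⟨map_subset_map.mpr (hD i).1,
    (dense_comap f).mp (hD i).2⟩, ?_⟩
  intro i j hij
  rw [disjoint_map]
  exact hd i j hij

end

/-- transport to `Fin n` -/
lemma transport {V : Type*} [Fintype V] [DecidableEq V] (G : SimpleGraph V) {k n g : ℕ}
    (hc : Fintype.card V = n) (h1 : ¬ Pack G univ k)
    (h2 : ∀ U : Finset V, U.card < g → ¬ Dense G U) :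
    ∃ G' : SimpleGraph (Fin n), ¬ HasDisjointCycles G' k ∧ (g : ℕ∞) ≤ G'.egirth ∧
      G'.edgeSet.ncard = eI G univ := by
  classical
  let e : Fin n ≃ V := (Fintype.equivFinOfCardEq hc).symm
  have hun : (univ : Finset (Fin n)).map e.toEmbedding = univ := by
    rw [map_univ_equiv]
  refine ⟨G.comap e.toEmbedding, ?_, ?_, ?_⟩
  · rw [← pack_iff]
    intro hp
    have := pack_comap e.toEmbedding hp
    rw [hun] at this
    exact h1 this
  · rw [egirth_iff]
    intro U hU hd
    refine h2 (U.map e.toEmbedding) ?_ ((dense_comap e.toEmbedding).mp hd)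
    rw [card_map]; exact hU
  · rw [← eI_univ_eq, eI_comap, hun]

/-- transport of an induced subgraph to `Fin n` -/
lemma transport_sub {V : Type*} [Fintype V] [DecidableEq V] (G : SimpleGraph V) {k n g : ℕ}
    (s : Finset V) (hc : s.card = n) (h1 : ¬ Pack G univ k)
    (h2 : ∀ U : Finset V, U.card < g → ¬ Dense G U) :
    ∃ G' : SimpleGraph (Fin n), ¬ HasDisjointCycles G' k ∧ (g : ℕ∞) ≤ G'.egirth ∧
      G'.edgeSet.ncard = eI G s := by
  classical
  let e : Fin n ↪ V := (s.equivFinOfCardEq hc).symm.toEmbedding.trans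
    (Function.Embedding.subtype (· ∈ s))
  have hun : (univ : Finset (Fin n)).map e = s := by
    ext v
    rw [mem_map]
    constructor
    · rintro ⟨i, _, rfl⟩
      exact ((s.equivFinOfCardEq hc).symm i).2
    · intro hv
      refine ⟨s.equivFinOfCardEq hc ⟨v, hv⟩, mem_univ _, ?_⟩
      show (((s.equivFinOfCardEq hc).symm (s.equivFinOfCardEq hc ⟨v, hv⟩) : {x // x ∈ s}) : V) = v
      rw [Equiv.symm_apply_apply]
  refine ⟨G.comap e, ?_, ?_, ?_⟩
  · rw [← pack_iff]
    intro hp
    exact h1 ((pack_comap e hp).mono (subset_univ _))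
  · rw [egirth_iff]
    intro U hU hd
    refine h2 (U.map e) ?_ ((dense_comap e).mp hd)
    rw [card_map]; exact hU
  · rw [← eI_univ_eq, eI_comap, hun]

section
variable {V : Type*} [DecidableEq V] {G : SimpleGraph V}

lemma sum_dN_comm (A B : Finset V) : ∑ u ∈ A, dN G B u = ∑ x ∈ B, dN G A x := by
  classical
  unfold dN
  simp only [card_filter]
  rw [sum_comm]
  apply sum_congr rfl
  intro x _
  apply sum_congr rfl
  intro u _
  simp only [G.adj_comm]

/-- a good set which meets a closed component passes through it from hub to hub -/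
lemma passage {S T D : Finset V} {m : ℕ} (hTs : Sparse G T)
    (hone : ∀ x ∈ S, dN G T x ≤ 1)
    (hcl : ∀ u ∈ T, ∀ w, w ∉ T → G.Adj u w → w ∈ S)
    (hfar : ∀ x ∈ S, ∀ y ∈ S, x ≠ y → ∀ p ∈ T, ∀ q ∈ T, G.Adj x p → G.Adj y q →
      ∀ P ⊆ T, IsSub G P → p ∈ P → q ∈ P → m ≤ P.card)
    (hD : Good G D) (hne : (D ∩ T).Nonempty) : m ≤ (D ∩ T).card ∧ 2 ≤ (D ∩ S).card := by
  classical
  obtain ⟨v, hv⟩ := hne
  have hWs : Sparse G (D ∩ T) := hTs.mono G inter_subset_right
  set Q := comp G (D ∩ T) v with hQ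
  have hQsub : IsSub G Q := isSub_comp hWs hv
  have hQW : Q ⊆ D ∩ T := comp_subset _ _
  have h1 := sum_dN G Q
  have h2 := hQsub.eI_eq hWs hQW
  have h3 : ∀ u ∈ Q, 2 ≤ dN G Q u + dN G (D ∩ S) u := by
    intro u hu
    have huD := mem_inter.mp (hQW hu)
    refine (hD.2 u huD.1).trans ?_
    unfold dN
    refine (card_le_card (t := Q.filter (fun w => G.Adj u w) ∪
      (D ∩ S).filter (fun w => G.Adj u w)) ?_).trans (card_union_le _ _)
    intro w hw
    rw [mem_filter] at hw
    rw [mem_union, mem_filter, mem_filter, mem_inter]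
    by_cases hwT : w ∈ T
    · left
      exact ⟨comp_closed hWs hu (mem_inter.mpr ⟨hw.1, hwT⟩) hw.2, hw.2⟩
    · right
      exact ⟨⟨hw.1, hcl u huD.2 w hwT hw.2⟩, hw.2⟩
  have h4 := sum_le_sum h3
  rw [sum_const, smul_eq_mul, sum_add_distrib] at h4
  have h5 : 2 ≤ ∑ u ∈ Q, dN G (D ∩ S) u := by
    have := card_pos.mpr hQsub.1
    omega
  rw [sum_dN_comm] at h5
  have h6 : ∀ x ∈ D ∩ S, dN G Q x ≤ 1 := by
    intro x hx
    exact (dN_mono G (hQW.trans inter_subset_right) x).trans (hone x (mem_inter.mp hx).2)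
  have h7 : ∑ x ∈ D ∩ S, dN G Q x ≤ ((D ∩ S).filter (fun x => 1 ≤ dN G Q x)).card := by
    rw [card_filter]
    apply sum_le_sum
    intro x hx
    have := h6 x hx
    split_ifs with hh
    · exact this
    · omega
  obtain ⟨x, hx, y, hy, hxy⟩ := one_lt_card.mp
    (show 1 < ((D ∩ S).filter (fun x => 1 ≤ dN G Q x)).card by omega)
  rw [mem_filter] at hx hy
  constructor
  · have hlab : ∀ z, 1 ≤ dN G Q z → ∃ p ∈ Q, G.Adj z p := by
      intro z hz
      unfold dN at hz
      obtain ⟨p, hp⟩ := card_pos.mp (show 0 < _ from hz)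
      rw [mem_filter] at hp
      exact ⟨p, hp⟩
    obtain ⟨p, hp, hxp⟩ := hlab x hx.2
    obtain ⟨q, hq, hyq⟩ := hlab y hy.2
    have := hfar x (mem_inter.mp hx.1).2 y (mem_inter.mp hy.1).2 hxy p
      (mem_inter.mp (hQW hp)).2 q (mem_inter.mp (hQW hq)).2 hxp hyq Q
      (hQW.trans inter_subset_right) hQsub hp hq
    exact this.trans (card_le_card hQW)
  · exact one_lt_card.mpr ⟨x, hx.1, y, hy.1, hxy⟩

end

end Pool.Agent.H17.GM
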