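import Pool.Agent.H17.GM.CG
import Pool.Agent.H17.GM.CM

set_option autoImplicit false
set_option linter.unusedSectionVars false
set_option linter.unusedSimpArgs false
set_option linter.unusedVariables false

/-!
# Copying and deleting a tight component
-/

namespace Pool.Agent.H17.GM

open Finset Pool.Agent.H38

section
variable {V : Type*} [DecidableEq V] (G : SimpleGraph V) (T : Finset V)

/-- adjacency of the graph with a second copy of `T` -/
def cpAdj : V ⊕ {v // v ∈ T} → V ⊕ {v // v ∈ T} → Prop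
  | .inl a, .inl b => G.Adj a b
  | .inl a, .inr b => a ∉ T ∧ G.Adj a b.1
  | .inr a, .inl b => b ∉ T ∧ G.Adj a.1 b
  | .inr a, .inr b => G.Adj a.1 b.1

/-- the graph with a second copy of `T` -/
def cp : SimpleGraph (V ⊕ {v // v ∈ T}) where
  Adj := cpAdj G T
  symm := ⟨by
    rintro (a | a) (b | b) h
    · exact SimpleGraph.Adj.symm (G := G) h
    · exact ⟨h.1, h.2.symm⟩
    · exact ⟨h.1, h.2.symm⟩
    · exact SimpleGraph.Adj.symm (G := G) h⟩
  loopless := ⟨by
    rintro (a | a) h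
    · exact G.irrefl h
    · exact G.irrefl h⟩

/-- projection -/
def prj : V ⊕ {v // v ∈ T} → V
  | .inl a => a
  | .inr a => a.1

variable {G T}

@[simp] lemma cp_ll {a b : V} : (cp G T).Adj (.inl a) (.inl b) ↔ G.Adj a b := Iff.rfl
@[simp] lemma cp_lr {a : V} {b : {v // v ∈ T}} :
    (cp G T).Adj (.inl a) (.inr b) ↔ a ∉ T ∧ G.Adj a b.1 := Iff.rfl
@[simp] lemma cp_rl {b : V} {a : {v // v ∈ T}} :
    (cp G T).Adj (.inr a) (.inl b) ↔ b ∉ T ∧ G.Adj a.1 b := Iff.rfl
@[simp] lemma cp_rr {a b : {v // v ∈ T}} : (cp G T).Adj (.inr a) (.inr b) ↔ G.Adj a.1 b.1 :=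
  Iff.rfl

lemma cp_prj {a b : V ⊕ {v // v ∈ T}} (h : (cp G T).Adj a b) : G.Adj (prj T a) (prj T b) := by
  rcases a with a | a <;> rcases b with b | b
  · exact h
  · exact h.2
  · exact h.2
  · exact h

lemma cp_comap_inl : (cp G T).comap (Function.Embedding.inl : V ↪ V ⊕ {v // v ∈ T}) = G := by
  ext a b
  exact Iff.rfl

lemma cp_comap_inr : (cp G T).comap (Function.Embedding.inr : {v // v ∈ T} ↪ V ⊕ {v // v ∈ T}) =
    G.comap (Function.Embedding.subtype (· ∈ T)) := by
  ext a b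
  exact Iff.rfl

/-- the copy -/
abbrev T2 (T : Finset V) : Finset (V ⊕ {v // v ∈ T}) :=
  (univ : Finset {v // v ∈ T}).map Function.Embedding.inr

/-- the old vertices -/
abbrev inlm (T : Finset V) (U : Finset V) : Finset (V ⊕ {v // v ∈ T}) :=
  U.map Function.Embedding.inl

lemma univ_map_sub : (univ : Finset {v // v ∈ T}).map (Function.Embedding.subtype (· ∈ T)) = T := by
  ext v
  simp

lemma dN_inlm (U : Finset V) (v : V) : dN (cp G T) (inlm T U) (.inl v) = dN G U v := by
  have := dN_comap (H := cp G T) (Function.Embedding.inl : V ↪ V ⊕ {v // v ∈ T}) U v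
  rw [cp_comap_inl] at this
  exact this.symm

lemma eI_inlm (U : Finset V) : eI (cp G T) (inlm T U) = eI G U := by
  have := eI_comap (H := cp G T) (Function.Embedding.inl : V ↪ V ⊕ {v // v ∈ T}) U
  rw [cp_comap_inl] at this
  exact this.symm

lemma isSub_inlm {U : Finset V} : IsSub (cp G T) (inlm T U) ↔ IsSub G U := by
  have := isSub_comap (H := cp G T) (Function.Embedding.inl : V ↪ V ⊕ {v // v ∈ T}) (U := U)
  rw [cp_comap_inl] at this
  exact this.symm

lemma sparse_inlm {U : Finset V} : Sparse (cp G T) (inlm T U) ↔ Sparse G U := by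
  have := sparse_comap (H := cp G T) (Function.Embedding.inl : V ↪ V ⊕ {v // v ∈ T}) (U := U)
  rw [cp_comap_inl] at this
  exact this.symm

lemma dN_T2_inl {v : V} (hv : v ∉ T) : dN (cp G T) (T2 T) (.inl v) = dN G T v := by
  classical
  unfold dN
  apply card_bij (fun (a : V ⊕ {v // v ∈ T}) _ => prj T a)
  · intro a ha
    rw [mem_filter, mem_map] at ha
    obtain ⟨⟨b, _, rfl⟩, hadj⟩ := ha
    rw [mem_filter]
    exact ⟨b.2, hadj.2⟩
  · intro a ha b hb hab
    rw [mem_filter, mem_map] at ha hb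
    obtain ⟨⟨a', _, rfl⟩, _⟩ := ha
    obtain ⟨⟨b', _, rfl⟩, _⟩ := hb
    have : a' = b' := Subtype.ext hab
    rw [this]
  · intro b hb
    rw [mem_filter] at hb
    refine ⟨.inr ⟨b, hb.1⟩, ?_, rfl⟩
    rw [mem_filter, mem_map]
    exact ⟨⟨⟨b, hb.1⟩, mem_univ _, rfl⟩, hv, hb.2⟩

lemma map_sub_inr (P : Finset {v // v ∈ T}) :
    IsSub (cp G T) (P.map Function.Embedding.inr) ↔
      IsSub G (P.map (Function.Embedding.subtype (· ∈ T))) := by
  rw [← isSub_comap, ← isSub_comap, cp_comap_inr]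

lemma isSub_T2 : IsSub (cp G T) (T2 T) ↔ IsSub G T := by
  unfold T2
  rw [map_sub_inr, univ_map_sub]

lemma sparse_T2 : Sparse (cp G T) (T2 T) ↔ Sparse G T := by
  unfold T2
  rw [← sparse_comap, cp_comap_inr, sparse_comap, univ_map_sub]

lemma eI_T2 : eI (cp G T) (T2 T) = eI G T := by
  unfold T2
  rw [← eI_comap, cp_comap_inr, eI_comap, univ_map_sub]

/-- a set which does not contain a vertex of `T` together with its copy -/
lemma good_prj {D : Finset (V ⊕ {v // v ∈ T})} (hD : Good (cp G T) D)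
    (hinj : Set.InjOn (prj T) D) : Good G (D.image (prj T)) := by
  classical
  refine ⟨hD.1.image _, ?_⟩
  intro v hv
  rw [mem_image] at hv
  obtain ⟨a, ha, rfl⟩ := hv
  refine (hD.2 a ha).trans ?_
  unfold dN
  apply card_le_card_of_injOn (prj T)
  · intro b hb
    rw [mem_coe, mem_filter] at hb
    rw [mem_coe, mem_filter]
    exact ⟨mem_image_of_mem _ hb.1, cp_prj hb.2⟩
  · intro b hb c hc hbc
    rw [mem_coe, mem_filter] at hb hc
    exact hinj hb.1 hc.1 hbc

end

end Pool.Agent.H17.GM
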