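import Pool.Agent.H17.GM.CP

set_option autoImplicit false
set_option linter.unusedSectionVars false
set_option linter.unusedSimpArgs false
set_option linter.unusedVariables false

/-!
# Copying and deleting a tight component, main lemmas
-/

namespace Pool.Agent.H17.GM

open Finset Pool.Agent.H38

section
variable {V : Type*} [DecidableEq V] [Fintype V] {G : SimpleGraph V}

lemma TD.pass1 {k l : ℕ} {S : Finset V} {𝒯 : Finset (Finset V)} (h : TD G k l S 𝒯)
    {T C : Finset V} (hT : T ∈ 𝒯) (hC : C ∈ 𝒯) {D : Finset (V ⊕ {v // v ∈ T})}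
    (hD : Good (cp G T) D) (hne : (D ∩ inlm T C).Nonempty) :
    2 * l ≤ (D ∩ inlm T C).card ∧ 2 ≤ (D ∩ inlm T S).card := by
  classical
  apply passage (sparse_inlm.mpr (h.sp C hC)) _ _ _ hD hne
  · intro x hx
    rw [mem_map] at hx
    obtain ⟨x0, hx0, rfl⟩ := hx
    exact (dN_inlm C x0).trans_le (h.one C hC x0 hx0).le
  · intro u hu w hw hadj
    rw [mem_map] at hu
    obtain ⟨u0, hu0, rfl⟩ := hu
    rcases w with w | w
    · have hw' : w ∉ C := fun h' => hw (mem_map_of_mem _ h')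
      exact mem_map_of_mem _ (h.closed C hC u0 hu0 w hw' hadj)
    · exfalso
      have h1 : u0 ∉ T ∧ G.Adj u0 w.1 := hadj
      have hne' : C ≠ T := by
        rintro rfl
        exact h1.1 hu0
      have hwC : w.1 ∉ C := fun h' => disjoint_left.mp (h.pd C hC T hT hne') h' w.2
      exact disjoint_left.mp (h.disj T hT) w.2 (h.closed C hC u0 hu0 w.1 hwC h1.2)
  · intro x hx y hy hxy p hp q hq hxp hyq P hP hPs hpP hqP
    rw [mem_map] at hx hy hp hq
    obtain ⟨x0, hx0, rfl⟩ := hx
    obtain ⟨y0, hy0, rfl⟩ := hy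
    obtain ⟨p0, hp0, rfl⟩ := hp
    obtain ⟨q0, hq0, rfl⟩ := hq
    obtain ⟨P0, hP0, rfl⟩ := subset_map_iff.mp hP
    rw [card_map]
    exact h.far C hC x0 hx0 y0 hy0 (fun h' => hxy (by rw [h'])) p0 hp0 q0 hq0 hxp hyq P0 hP0
      (isSub_inlm.mp hPs) ((mem_map' _).mp hpP) ((mem_map' _).mp hqP)

lemma TD.pass2 {k l : ℕ} {S : Finset V} {𝒯 : Finset (Finset V)} (h : TD G k l S 𝒯)
    {T : Finset V} (hT : T ∈ 𝒯) {D : Finset (V ⊕ {v // v ∈ T})}
    (hD : Good (cp G T) D) (hne : (D ∩ T2 T).Nonempty) :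
    2 * l ≤ (D ∩ T2 T).card ∧ 2 ≤ (D ∩ inlm T S).card := by
  classical
  have hST : ∀ x ∈ S, x ∉ T := fun x hx hxT => disjoint_left.mp (h.disj T hT) hxT hx
  apply passage (sparse_T2.mpr (h.sp T hT)) _ _ _ hD hne
  · intro x hx
    rw [mem_map] at hx
    obtain ⟨x0, hx0, rfl⟩ := hx
    exact (dN_T2_inl (hST x0 hx0)).trans_le (h.one T hT x0 hx0).le
  · intro u hu w hw hadj
    rw [mem_map] at hu
    obtain ⟨u0, hu0, rfl⟩ := hu
    rcases w with w | w
    · have h1 : w ∉ T ∧ G.Adj u0.1 w := hadj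
      exact mem_map_of_mem _ (h.closed T hT u0.1 u0.2 w h1.1 h1.2)
    · exact absurd (mem_map_of_mem _ (mem_univ w)) hw
  · intro x hx y hy hxy p hp q hq hxp hyq P hP hPs hpP hqP
    rw [mem_map] at hx hy hp hq
    obtain ⟨x0, hx0, rfl⟩ := hx
    obtain ⟨y0, hy0, rfl⟩ := hy
    obtain ⟨p0, hp0, rfl⟩ := hp
    obtain ⟨q0, hq0, rfl⟩ := hq
    obtain ⟨P0, hP0, rfl⟩ := subset_map_iff.mp hP
    rw [card_map, ← card_map (Function.Embedding.subtype (· ∈ T))]
    have h1 : G.Adj x0 p0.1 := (show x0 ∉ T ∧ G.Adj x0 p0.1 from hxp).2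
    have h2 : G.Adj y0 q0.1 := (show y0 ∉ T ∧ G.Adj y0 q0.1 from hyq).2
    refine h.far T hT x0 hx0 y0 hy0 (fun h' => hxy (by rw [h'])) p0.1 p0.2 q0.1 q0.2 h1 h2
      (P0.map (Function.Embedding.subtype (· ∈ T))) ?_ ((map_sub_inr P0).mp hPs) ?_ ?_
    · intro v hv
      rw [mem_map] at hv
      obtain ⟨a, _, rfl⟩ := hv
      exact a.2
    · exact mem_map_of_mem _ ((mem_map' _).mp hpP)
    · exact mem_map_of_mem _ ((mem_map' _).mp hqP)

lemma inj_prj {T : Finset V} {D : Finset (V ⊕ {v // v ∈ T})}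
    (h : (D ∩ inlm T T) = ∅ ∨ (D ∩ T2 T) = ∅) : Set.InjOn (prj T) D := by
  classical
  intro a ha b hb hab
  rw [mem_coe] at ha hb
  have key : ∀ (a : V) (b : {v // v ∈ T}), (Sum.inl a : V ⊕ {v // v ∈ T}) ∈ D →
      (Sum.inr b : V ⊕ {v // v ∈ T}) ∈ D → a = b.1 → False := by
    rintro a b ha hb rfl
    rcases h with h | h
    · have : (Sum.inl b.1 : V ⊕ {v // v ∈ T}) ∈ D ∩ inlm T T :=
        mem_inter.mpr ⟨ha, mem_map_of_mem Function.Embedding.inl b.2⟩
      rw [h] at this
      exact notMem_empty _ this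
    · have : (Sum.inr b : V ⊕ {v // v ∈ T}) ∈ D ∩ T2 T :=
        mem_inter.mpr ⟨hb, mem_map_of_mem Function.Embedding.inr (mem_univ b)⟩
      rw [h] at this
      exact notMem_empty _ this
  rcases a with a | a <;> rcases b with b | b
  · exact congrArg Sum.inl hab
  · exact (key a b ha hb hab).elim
  · exact (key b a hb ha hab.symm).elim
  · exact congrArg Sum.inr (Subtype.ext hab)

lemma TD.copy_girth {k l : ℕ} {S : Finset V} {𝒯 : Finset (Finset V)} (h : TD G k l S 𝒯)
    {T : Finset V} (hT : T ∈ 𝒯) {g : ℕ} (hg : g ≤ 4 * l + 2)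
    (hG : ∀ U : Finset V, U.card < g → ¬ Pool.Agent.H38.Dense G U)
    (U : Finset (V ⊕ {v // v ∈ T})) (hU : U.card < g) : ¬ Pool.Agent.H38.Dense (cp G T) U := by
  classical
  intro hd
  obtain ⟨D, hDU, hD⟩ := hd.exists_good
  have hDc := card_le_card hDU
  by_cases h1 : (D ∩ inlm T T) = ∅ ∨ (D ∩ T2 T) = ∅
  · have h2 := good_prj hD (inj_prj h1)
    have h3 : (D.image (prj T)).card ≤ D.card := card_image_le
    exact hG _ (by omega) h2.dense
  · push Not at h1
    have h2 := h.pass1 hT hT hD h1.1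
    have h3 := h.pass2 hT hD h1.2
    have hd1 : Disjoint (inlm T T) (T2 T) := by
      rw [disjoint_left]
      intro a ha hb
      rw [mem_map] at ha hb
      obtain ⟨a0, _, rfl⟩ := ha
      obtain ⟨b0, _, hb0⟩ := hb
      cases hb0
    have hd2 : Disjoint (inlm T S) (T2 T) := by
      rw [disjoint_left]
      intro a ha hb
      rw [mem_map] at ha hb
      obtain ⟨a0, _, rfl⟩ := ha
      obtain ⟨b0, _, hb0⟩ := hb
      cases hb0
    have hd3 : Disjoint (inlm T S) (inlm T T) := by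
      rw [disjoint_map]
      exact (h.disj T hT).symm
    have h4 : (D ∩ inlm T S).card + ((D ∩ inlm T T).card + (D ∩ T2 T).card) ≤ D.card := by
      rw [← card_union_of_disjoint (hd1.mono inter_subset_right inter_subset_right),
        ← card_union_of_disjoint]
      · apply card_le_card
        intro z hz
        rw [mem_union, mem_union, mem_inter, mem_inter, mem_inter] at hz
        rcases hz with hz | hz | hz
        · exact hz.1
        · exact hz.1
        · exact hz.1
      · rw [disjoint_union_right]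
        exact ⟨hd3.mono inter_subset_right inter_subset_right,
          hd2.mono inter_subset_right inter_subset_right⟩
    omega

lemma TD.copy_pack {k l : ℕ} {S : Finset V} {𝒯 : Finset (Finset V)} (h : TD G k l S 𝒯)
    {T : Finset V} (hT : T ∈ 𝒯) : ¬ Pack (cp G T) univ k := by
  classical
  rintro ⟨f, hf, hdis⟩
  have hk := h.hk
  choose D hD hDg using fun i => (hf i).2.exists_good
  have key : ∀ i, 2 ≤ (D i ∩ inlm T S).card := by
    intro i
    by_contra hcon
    have hT2 : D i ∩ T2 T = ∅ := by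
      by_contra hne
      exact hcon (h.pass2 hT (hDg i) (nonempty_iff_ne_empty.mpr hne)).2
    have hC : ∀ C ∈ 𝒯, D i ∩ inlm T C = ∅ := by
      intro C hC
      by_contra hne
      exact hcon (h.pass1 hT hC (hDg i) (nonempty_iff_ne_empty.mpr hne)).2
    have h2 := good_prj (hDg i) (inj_prj (Or.inr hT2))
    set D0 := (D i).image (prj T) with hD0
    have hmem : ∀ v ∈ D0, (Sum.inl v : V ⊕ {v // v ∈ T}) ∈ D i := by
      intro v hv
      rw [hD0, mem_image] at hv
      obtain ⟨a, ha, rfl⟩ := hv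
      rcases a with a | a
      · exact ha
      · exfalso
        have : (Sum.inr a : V ⊕ {v // v ∈ T}) ∈ D i ∩ T2 T :=
          mem_inter.mpr ⟨ha, mem_map_of_mem Function.Embedding.inr (mem_univ a)⟩
        rw [hT2] at this
        exact notMem_empty _ this
    have h3 : (S ∩ D0).card ≤ (D i ∩ inlm T S).card := by
      rw [← card_map (Function.Embedding.inl : V ↪ V ⊕ {v // v ∈ T})]
      apply card_le_card
      intro a ha
      rw [mem_map] at ha
      obtain ⟨v, hv, rfl⟩ := ha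
      rw [mem_inter] at hv
      exact mem_inter.mpr ⟨hmem v hv.2, mem_map_of_mem _ hv.1⟩
    refine h.no_dense (R := S \ D0) sdiff_subset ?_ h2.dense disjoint_sdiff ?_
    · have h4 := card_sdiff_add_card_inter S D0
      rw [h.hS] at h4
      omega
    · intro C hCT
      rw [disjoint_left]
      intro v hv hvC
      have : (Sum.inl v : V ⊕ {v // v ∈ T}) ∈ D i ∩ inlm T C :=
        mem_inter.mpr ⟨hmem v hv, mem_map_of_mem _ hvC⟩
      rw [hC C hCT] at this
      exact notMem_empty _ this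
  have h2 : (univ.biUnion (fun i => D i ∩ inlm T S)).card = ∑ i, (D i ∩ inlm T S).card := by
    apply card_biUnion
    intro i _ j _ hij
    exact ((hdis i j hij).mono (hD i) (hD j)).mono inter_subset_left inter_subset_left
  have h3 : (univ.biUnion (fun i => D i ∩ inlm T S)).card ≤ (inlm T S).card := by
    apply card_le_card
    rw [biUnion_subset]
    intro i _
    exact inter_subset_right
  have h4 : ∑ i : Fin k, 2 ≤ ∑ i, (D i ∩ inlm T S).card := sum_le_sum (fun i _ => key i)
  rw [sum_const, card_univ, Fintype.card_fin, smul_eq_mul] at h4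
  rw [card_map, h.hS] at h3
  omega

lemma TD.sum_att {k l : ℕ} {S : Finset V} {𝒯 : Finset (Finset V)} (h : TD G k l S 𝒯)
    {T : Finset V} (hT : T ∈ 𝒯) {X : Finset V} (hSX : S ⊆ X) (hX : ∀ x ∈ X, x ∉ T) :
    ∑ x ∈ X, dN G T x = 2 * k - 1 := by
  classical
  rw [← sum_subset hSX]
  · rw [sum_congr rfl (fun x hx => h.one T hT x hx), sum_const, smul_eq_mul, mul_one, h.hS]
  · intro x hx hxS
    unfold dN
    rw [card_eq_zero, filter_eq_empty_iff]
    intro u hu hxu
    exact hxS (h.closed T hT u hu x (hX x hx) hxu.symm)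

lemma TD.eI_T {k l : ℕ} {S : Finset V} {𝒯 : Finset (Finset V)} (h : TD G k l S 𝒯)
    {T : Finset V} (hT : T ∈ 𝒯) : eI G T + 1 = (2 * k - 1) * l := by
  have h1 := (h.sub T hT).eI_eq (h.sp T hT) subset_rfl
  rw [h.card T hT] at h1
  omega

lemma TD.copy_eI {k l : ℕ} {S : Finset V} {𝒯 : Finset (Finset V)} (h : TD G k l S 𝒯)
    {T : Finset V} (hT : T ∈ 𝒯) :
    eI (cp G T) univ + 1 = eI G univ + (2 * k - 1) * l + (2 * k - 1) := by
  classical
  have hun : T2 T ∪ inlm T univ = univ := by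
    ext a
    rcases a with a | a
    · simp
    · simp
  have hdis : Disjoint (T2 T) (inlm T univ) := by
    rw [disjoint_left]
    intro a ha hb
    rw [mem_map] at ha hb
    obtain ⟨a0, _, rfl⟩ := ha
    obtain ⟨b0, _, hb0⟩ := hb
    cases hb0
  have h1 := eI_union_disjoint (G := cp G T) hdis
  rw [hun, eI_T2, eI_inlm, sum_dN_comm, sum_map] at h1
  have h2 : ∑ x : V, dN (cp G T) (T2 T) (Function.Embedding.inl x) =
      ∑ x ∈ univ \ T, dN G T x := by
    rw [← sum_subset (subset_univ (univ \ T))]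
    · apply sum_congr rfl
      intro x hx
      exact dN_T2_inl (mem_sdiff.mp hx).2
    · intro x _ hx
      have hxT : x ∈ T := by
        by_contra h'
        exact hx (mem_sdiff.mpr ⟨mem_univ _, h'⟩)
      unfold dN
      rw [card_eq_zero, filter_eq_empty_iff]
      intro u hu hxu
      rw [mem_map] at hu
      obtain ⟨u0, _, rfl⟩ := hu
      exact (show x ∉ T ∧ G.Adj x u0.1 from hxu).1 hxT
  have h3 := h.sum_att hT (X := univ \ T)
    (fun x hx => mem_sdiff.mpr ⟨mem_univ _, fun h' => disjoint_left.mp (h.disj T hT) h' hx⟩)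
    (fun x hx => (mem_sdiff.mp hx).2)
  have h4 := h.eI_T hT
  rw [h2, h3] at h1
  omega

lemma TD.del_eI {k l : ℕ} {S : Finset V} {𝒯 : Finset (Finset V)} (h : TD G k l S 𝒯)
    {T : Finset V} (hT : T ∈ 𝒯) :
    eI G univ + 1 = eI G (univ \ T) + (2 * k - 1) * l + (2 * k - 1) := by
  classical
  have h1 := eI_union_disjoint (G := G) (U := T) (W := univ \ T) disjoint_sdiff
  rw [union_sdiff_of_subset (subset_univ _), sum_dN_comm] at h1
  have h3 := h.sum_att hT (X := univ \ T)
    (fun x hx => mem_sdiff.mpr ⟨mem_univ _, fun h' => disjoint_left.mp (h.disj T hT) h' hx⟩)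
    (fun x hx => (mem_sdiff.mp hx).2)
  have h4 := h.eI_T hT
  rw [h3] at h1
  omega

end

end Pool.Agent.H17.GM
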