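import Pool.Agent.H17.GM.CA
import Pool.Agent.H38.Upper

set_option autoImplicit false
set_option linter.unusedSectionVars false
set_option linter.unusedSimpArgs false
set_option linter.unusedVariables false

namespace Pool.Agent.H17.GM

open Finset Pool.Agent.H38

/-- data of many identical tight components -/
structure TD {V : Type*} [DecidableEq V] [Fintype V] (G : SimpleGraph V) (k l : ℕ)
    (S : Finset V) (𝒯 : Finset (Finset V)) : Prop where
  hk : 2 ≤ k
  hg : ∀ U : Finset V, U.card < 4 * l + 1 → ¬ Dense G U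
  hP : ¬ Pack G univ k
  hS : S.card = 2 * k - 1
  hT : 2 * k + 1 ≤ 𝒯.card
  sub : ∀ C ∈ 𝒯, IsSub G C
  sp : ∀ C ∈ 𝒯, Sparse G C
  disj : ∀ C ∈ 𝒯, Disjoint C S
  card : ∀ C ∈ 𝒯, C.card = (2 * k - 1) * l
  one : ∀ C ∈ 𝒯, ∀ x ∈ S, dN G C x = 1
  closed : ∀ C ∈ 𝒯, ∀ u ∈ C, ∀ w, w ∉ C → G.Adj u w → w ∈ S
  far : ∀ C ∈ 𝒯, ∀ x ∈ S, ∀ y ∈ S, x ≠ y → ∀ p ∈ C, ∀ q ∈ C, G.Adj x p → G.Adj y q →
          ∀ P ⊆ C, IsSub G P → p ∈ P → q ∈ P → 2 * l ≤ P.card
  pd : ∀ C ∈ 𝒯, ∀ C' ∈ 𝒯, C ≠ C' → Disjoint C C'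

/-- existence of many identical tight components -/
theorem exists_TD (k l a b : ℕ) (hk : 2 ≤ k) (hl : 1 ≤ l) (ha : 1 ≤ a) : ∃ n0 : ℕ, ∀ (V : Type) [Fintype V] [DecidableEq V]
    (G : SimpleGraph V), n0 ≤ Fintype.card V →
    (∀ U : Finset V, U.card < 4 * l + 1 → ¬ Dense G U) → ¬ Pack G univ k →
    TB G k l → LB G k l a b →
    (Fintype.card V - (2 * k - 1)) + (2 * k - 2) *
      ((Fintype.card V - (2 * k - 1)) / ((2 * k - 1) * l)) ≤ eI G univ →
    ∃ (S : Finset V) (𝒯 : Finset (Finset V)), TD G k l S 𝒯 := by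
  obtain ⟨M, hM⟩ := Int.eq_ofNat_of_zero_le (show 0 ≤ cM k l by linarith [cM_pos hk hl])
  obtain ⟨q, hq⟩ := Int.eq_ofNat_of_zero_le (show 0 ≤ cq a by linarith [cq_pos ha])
  obtain ⟨C1, hC1⟩ := Int.eq_ofNat_of_zero_le (c1_nonneg b)
  obtain ⟨C2, hC2⟩ := Int.eq_ofNat_of_zero_le (c2_nonneg b hk hl ha)
  set C0 : ℕ := (2 * k - 2) * M + (M + 2 * k - 2) * (2 * k - 1) with hC0
  obtain ⟨L0, hL0⟩ := FF_XX_lt M q C1 C2 C0 k
  have hMe : M = (2 * k - 1) * l := by
    have : (M : ℤ) = ((2 * k - 1) * l : ℕ) := by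
      rw [← hM]; unfold cM
      push_cast [show 1 ≤ 2 * k by omega]
      ring
    exact_mod_cast this
  refine ⟨2 ^ L0, fun V _ _ G hn hg hP hTB hLB hcon => ?_⟩
  set n := Fintype.card V with hndef
  have hn0 : n ≠ 0 := by
    have : 0 < 2 ^ L0 := by positivity
    omega
  set L := Nat.log 2 n with hL
  have hLL0 : L0 ≤ L := by
    rw [hL]
    exact (Nat.le_log_iff_pow_le (by norm_num) hn0).mpr hn
  have h2L : 2 ^ L ≤ n := Nat.pow_log_le_self 2 hn0
  have hlt := lt_of_lt_of_le (hL0 L hLL0) h2L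
  obtain ⟨s, hs, A, B, hAB, hA, hcard, hWs, hB, hLp⟩ := exists_decomp G k (by omega) hP
  rw [← hndef, ← hL] at hs
  have hdec : Dec G k l A B (univ \ (A ∪ B)) :=
    ⟨hk, hg, hP, hAB, rfl, hA, hWs, hB, hLp⟩
  have hXc : (A ∪ B).card ≤ XX k L := by
    rw [card_union_of_disjoint hAB]
    refine hcard.trans ?_
    unfold XX
    gcongr
  have he : (cM k l + 2 * k - 2) * n ≤ cM k l * eI G univ + C0 := by
    rw [hM]
    have key : (M + 2 * k - 2) * n ≤ M * eI G univ + C0 := by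
      -- eI is large
      set N := n - (2 * k - 1) with hN
      have h1 : N + (2 * k - 2) * (N / M) ≤ eI G univ := by rw [hMe]; exact hcon
      have h3 := Nat.div_add_mod N M
      have h4 : N % M < M := Nat.mod_lt _ (by rw [hMe]; exact Nat.mul_pos (by omega) (by omega))
      obtain ⟨κ, rfl⟩ : ∃ κ, k = κ + 1 := ⟨k - 1, by omega⟩
      have e2 : 2 * (κ + 1) - 1 = 2 * κ + 1 := by omega
      have e3 : M + 2 * (κ + 1) - 2 = M + 2 * κ := by omega
      have e4 : 2 * (κ + 1) - 2 = 2 * κ := by omega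
      rw [e4] at h1
      rw [hC0, e3, e4, e2]
      rw [e2] at hN
      have hnN : n ≤ N + (2 * κ + 1) := by omega
      have h6 := Nat.mul_le_mul_left M h1
      have h7 := Nat.mul_le_mul_left (M + 2 * κ) hnN
      have h8 : 2 * κ * (N % M) ≤ 2 * κ * M := Nat.mul_le_mul_left _ (by omega)
      have h9 : 2 * κ * N = 2 * κ * (M * (N / M)) + 2 * κ * (N % M) := by
        rw [← mul_add, h3]
      have h10 : (M + 2 * κ) * (N + (2 * κ + 1)) =
          M * N + 2 * κ * N + (M + 2 * κ) * (2 * κ + 1) := by ring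
      have h11 : M * (N + 2 * κ * (N / M)) = M * N + 2 * κ * (M * (N / M)) := by ring
      rw [h10] at h7
      rw [h11] at h6
      generalize (M + 2 * κ) * (2 * κ + 1) = z1 at *
      generalize M * N = z2 at *
      generalize 2 * κ * (M * (N / M)) = z3 at *
      generalize 2 * κ * (N % M) = z4 at *
      generalize 2 * κ * N = z5 at *
      generalize 2 * κ * M = z6 at *
      generalize (M + 2 * κ) * n = z7 at *
      generalize M * eI G univ = z8 at *
      omega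
    have h1 : ((M + 2 * k - 2 : ℕ) : ℤ) = (M : ℤ) + 2 * k - 2 := by
      have : 2 ≤ M + 2 * k := by omega
      push_cast [this]
      ring
    have h2 : ((M : ℤ) + 2 * k - 2) * n ≤ M * eI G univ + C0 := by
      rw [← h1]; exact_mod_cast key
    exact_mod_cast h2
  have hnb : (A ∪ B).card + cM k l * ((A ∪ B).card * (A ∪ B).card +
        ((A ∪ B).card + 1) ^ (2 * k) * (2 * k)) +
      ((cq a + c2 k l a b) * (C0 + 2 * cM k l * ((A ∪ B).card * (A ∪ B).card)) +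
      ((B.card + 1) ^ (2 * k) * (2 * k)) *
        ((1 + c2 k l a b) * (c1 b + cq a * cM k l * B.card))) < (n : ℤ) := by
    rw [hM, hq, hC1, hC2]
    have hBc : B.card ≤ (A ∪ B).card := card_le_card subset_union_right
    have h1 : (A ∪ B).card + M * ((A ∪ B).card * (A ∪ B).card +
        ((A ∪ B).card + 1) ^ (2 * k) * (2 * k)) +
      ((q + C2) * (C0 + 2 * M * ((A ∪ B).card * (A ∪ B).card)) +
      ((B.card + 1) ^ (2 * k) * (2 * k)) *
        ((1 + C2) * (C1 + q * M * B.card))) ≤ FF M q C1 C2 C0 k (A ∪ B).card := by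
      unfold FF
      gcongr
    have h2 := FF_mono M q C1 C2 C0 k hXc
    have h3 := lt_of_le_of_lt (h1.trans h2) hlt
    exact_mod_cast h3
  obtain ⟨S, hS, 𝒯, hT, hTs, hTd⟩ := hdec.exists_tight hl ha hTB hLB C0 he hnb
  exact ⟨S, 𝒯, hk, hg, hP, hS, hT, fun C hC => (hTs C hC).1,
    fun C hC => (hTs C hC).2.1, fun C hC => (hTs C hC).2.2.1, fun C hC => (hTs C hC).2.2.2.1,
    fun C hC => (hTs C hC).2.2.2.2.1, fun C hC => (hTs C hC).2.2.2.2.2.1,
    fun C hC => (hTs C hC).2.2.2.2.2.2, hTd⟩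

end Pool.Agent.H17.GM
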