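import Pool.Agent.H38.Decomp

set_option autoImplicit false
set_option linter.unusedSectionVars false
set_option linter.unusedSimpArgs false
set_option linter.unusedVariables false

namespace Pool.Agent.H17.GM

open Finset Pool.Agent.H38

/-- `p` is a neighbour of `x` in `W` which is close to a neighbour of `y` -/
def IsCf {V : Type*} (G : SimpleGraph V) (W : Finset V) (l : ℕ) (x y p : V) : Prop :=
  p ∈ W ∧ G.Adj x p ∧ ∃ P ⊆ W, IsSub G P ∧ p ∈ P ∧ P.card < 2 * l ∧ ∃ q ∈ P, G.Adj y q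

/-- `p` is a neighbour of `x` without conflicts -/
def IsLam {V : Type*} (G : SimpleGraph V) (X W : Finset V) (l : ℕ) (x p : V) : Prop :=
  G.Adj x p ∧ ∀ y ∈ X, y ≠ x → ¬ IsCf G W l x y p

open scoped Classical in
/-- neighbours of `x` in `W` without conflicts -/
noncomputable def Lam {V : Type*} (G : SimpleGraph V) (X W : Finset V) (l : ℕ) (x : V) :
    Finset V :=
  W.filter (fun p => IsLam G X W l x p)

section
variable {V : Type*} [DecidableEq V] {G : SimpleGraph V}

lemma isCf_unique {W : Finset V} {l : ℕ} (hW : Sparse G W)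
    (hg : ∀ U : Finset V, U.card < 4 * l + 1 → ¬ Dense G U) {x y p p' : V} (hxy : x ≠ y)
    (hx : x ∉ W) (hy : y ∉ W) (h : IsCf G W l x y p) (h' : IsCf G W l x y p') : p = p' := by
  by_contra hne
  obtain ⟨hpW, hxp, P, hPW, hPs, hpP, hPc, q, hqP, hyq⟩ := h
  obtain ⟨hpW', hxp', P', hPW', hPs', hpP', hPc', q', hqP', hyq'⟩ := h'
  have hc := card_union_le P P'
  have h2 : 2 ≤ dN G (P ∪ P') x :=
    two_le_dN_of_adj G hne (mem_union_left _ hpP) (mem_union_right _ hpP') hxp hxp'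
  have hxPP : x ∉ P ∪ P' := fun h => hx ((union_subset hPW hPW') h)
  by_cases hi : (P ∩ P').Nonempty
  · have hs := hPs.union hW hPW hPs' hi
    refine hg _ ?_ (hs.dense_insert hxPP h2)
    rw [card_insert_of_notMem hxPP]
    omega
  · rw [not_nonempty_iff_eq_empty, ← disjoint_iff_inter_eq_empty] at hi
    have hs := isSub_join hPs hPs' hi (fun h => hy (hPW h)) (fun h => hy (hPW' h))
      (one_le_dN_of_adj G hqP hyq) (one_le_dN_of_adj G hqP' hyq')
    have h3 := dN_mono G (subset_insert y (P ∪ P')) x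
    have hx' : x ∉ insert y (P ∪ P') := by
      rw [mem_insert]
      rintro (h | h)
      · exact hxy h
      · exact hxPP h
    refine hg _ ?_ (hs.dense_insert hx' (h2.trans h3))
    rw [card_insert_of_notMem hx']
    have := card_insert_le y (P ∪ P')
    omega

lemma mem_Lam {X W : Finset V} {l : ℕ} {x p : V} :
    p ∈ Lam G X W l x ↔ p ∈ W ∧ G.Adj x p ∧ ∀ y ∈ X, y ≠ x → ¬ IsCf G W l x y p := by
  classical
  unfold Lam
  rw [mem_filter]
  rfl

lemma dN_le_Lam {X W : Finset V} {l : ℕ} (hW : Sparse G W) (hd : Disjoint X W)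
    (hg : ∀ U : Finset V, U.card < 4 * l + 1 → ¬ Dense G U) {x : V} (hx : x ∈ X) :
    dN G W x ≤ (Lam G X W l x).card + X.card := by
  classical
  have hsub : W.filter (fun u => G.Adj x u) ⊆ Lam G X W l x ∪
      (X.erase x).biUnion (fun y => W.filter (fun p => IsCf G W l x y p)) := by
    intro p hp
    rw [mem_filter] at hp
    rw [mem_union, mem_Lam]
    by_cases h : ∀ y ∈ X, y ≠ x → ¬ IsCf G W l x y p
    · exact Or.inl ⟨hp.1, hp.2, h⟩
    · right
      push Not at h
      obtain ⟨y, hy, hyx, hc⟩ := h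
      rw [mem_biUnion]
      exact ⟨y, mem_erase.mpr ⟨hyx, hy⟩, mem_filter.mpr ⟨hp.1, hc⟩⟩
  have h1 := card_le_card hsub
  have h2 : ((X.erase x).biUnion (fun y => W.filter (fun p => IsCf G W l x y p))).card ≤
      (X.erase x).card * 1 := by
    apply card_biUnion_le_card_mul
    intro y hy
    rw [mem_erase] at hy
    rw [card_le_one]
    intro p hp p' hp'
    rw [mem_filter] at hp hp'
    exact isCf_unique hW hg (Ne.symm hy.1) (disjoint_left.mp hd hx) (disjoint_left.mp hd hy.2)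
      hp.2 hp'.2
  have h3 := card_union_le (Lam G X W l x)
    ((X.erase x).biUnion (fun y => W.filter (fun p => IsCf G W l x y p)))
  have h4 := card_erase_le (s := X) (a := x)
  unfold dN
  omega

lemma Lam_subset {X W : Finset V} {l : ℕ} {x : V} : Lam G X W l x ⊆ W := by
  intro p hp
  exact (mem_Lam.mp hp).1

lemma Lam_inter_card_le {X W C : Finset V} {l : ℕ} {x : V} :
    (Lam G X W l x ∩ C).card ≤ dN G C x := by
  classical
  unfold dN
  apply card_le_card
  intro p hp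
  rw [mem_inter, mem_Lam] at hp
  rw [mem_filter]
  exact ⟨hp.2, hp.1.2.1⟩

lemma sum_inter_comps {W L : Finset V} (hW : Sparse G W) (hL : L ⊆ W) :
    L.card = ∑ C ∈ comps G W, (L ∩ C).card := by
  classical
  have h := sum_comps hW (fun v => if v ∈ L then 1 else 0)
  have h1 : ∑ v ∈ W, (if v ∈ L then 1 else 0) = L.card := by
    rw [← card_filter]
    congr 1
    ext z
    simp only [mem_filter]
    exact ⟨fun h => h.2, fun h => ⟨hL h, h⟩⟩
  rw [← h1, h]
  apply sum_congr rfl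
  intro C _
  rw [← card_filter]
  congr 1
  ext z
  simp only [mem_filter, mem_inter]
  tauto

lemma Lam_dist {X W C : Finset V} {l : ℕ} (hW : Sparse G W) (hC : C ⊆ W) (hCs : IsSub G C) :
    ∀ x ∈ X, ∀ y ∈ X, x ≠ y → ∀ p ∈ Lam G X W l x, ∀ q ∈ Lam G X W l y, p ∈ C → q ∈ C →
      2 * l ≤ dd G W p q + 1 := by
  intro x hx y hy hxy p hp q hq hpC hqC
  by_contra hcon
  push Not at hcon
  obtain ⟨P, hPC, hPs, hpP, hqP, hPc⟩ := dd_spec hW hC hCs hpC hqC
  rw [mem_Lam] at hp hq
  exact hp.2.2 y hy (Ne.symm hxy) ⟨hp.1, hp.2.1, P, hPC.trans hC, hPs, hpP, by omega, q, hqP, hq.2.1⟩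

/-- two neighbours of an outside vertex are far apart in a subtree -/
lemma same_dist {W C : Finset V} {l : ℕ} (hW : Sparse G W) (hC : C ⊆ W) (hCs : IsSub G C)
    (hg : ∀ U : Finset V, U.card < 4 * l + 1 → ¬ Dense G U) {x p q : V} (hx : x ∉ W)
    (hp : G.Adj x p) (hq : G.Adj x q) (hpq : p ≠ q) (hpC : p ∈ C) (hqC : q ∈ C) :
    4 * l ≤ dd G W p q + 1 := by
  by_contra hcon
  push Not at hcon
  obtain ⟨P, hPC, hPs, hpP, hqP, hPc⟩ := dd_spec hW hC hCs hpC hqC
  have hxP : x ∉ P := fun h => hx (hC (hPC h))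
  refine hg _ ?_ (hPs.dense_insert hxP (two_le_dN_of_adj G hpq hpP hqP hp hq))
  rw [card_insert_of_notMem hxP]
  omega

lemma Lam_dist' {X W C : Finset V} {l : ℕ} (hW : Sparse G W) (hC : C ⊆ W) (hCs : IsSub G C)
    (hd : Disjoint X W)
    (hg : ∀ U : Finset V, U.card < 4 * l + 1 → ¬ Dense G U) :
    ∀ x ∈ X, ∀ p ∈ Lam G X W l x, ∀ q ∈ Lam G X W l x, p ≠ q → p ∈ C → q ∈ C →
      4 * l ≤ dd G W p q + 1 := by
  intro x hx p hp q hq hpq hpC hqC
  rw [mem_Lam] at hp hq
  exact same_dist hW hC hCs hg (disjoint_left.mp hd hx) hp.2.1 hq.2.1 hpq hpC hqC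

lemma eI_le_sq (X : Finset V) : eI G X ≤ X.card * X.card := by
  classical
  have h1 := sum_dN G X
  have h2 : ∑ v ∈ X, dN G X v ≤ ∑ v ∈ X, X.card := by
    apply sum_le_sum
    intro v _
    unfold dN
    exact card_le_card (filter_subset _ _)
  rw [sum_const, smul_eq_mul] at h2
  omega

/-- global edge count -/
lemma edge_count {X W : Finset V} {l : ℕ} (hW : Sparse G W) (hd : Disjoint X W)
    (hg : ∀ U : Finset V, U.card < 4 * l + 1 → ¬ Dense G U) :
    eI G (X ∪ W) + (comps G W).card ≤ 2 * (X.card * X.card) + W.card +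
      ∑ C ∈ comps G W, ∑ x ∈ X, (Lam G X W l x ∩ C).card := by
  rw [eI_univ_split hd hW]
  have h1 := eI_le_sq (G := G) X
  have h2 : ∑ C ∈ comps G W, ∑ x ∈ X, dN G C x = ∑ x ∈ X, dN G W x := by
    rw [sum_comm]
    exact sum_congr rfl (fun x _ => (dN_eq_sum_comps hW x).symm)
  have h3 : ∑ C ∈ comps G W, ∑ x ∈ X, (Lam G X W l x ∩ C).card =
      ∑ x ∈ X, (Lam G X W l x).card := by
    rw [sum_comm]
    exact sum_congr rfl (fun x _ => (sum_inter_comps hW Lam_subset).symm)
  have h4 : ∑ x ∈ X, dN G W x ≤ ∑ x ∈ X, ((Lam G X W l x).card + X.card) :=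
    sum_le_sum (fun x hx => dN_le_Lam hW hd hg hx)
  rw [sum_add_distrib, sum_const, smul_eq_mul] at h4
  rw [h2, h3]
  omega

end

end Pool.Agent.H17.GM
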