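import Pool.Agent.H38.Interface

set_option autoImplicit false
set_option linter.unusedSectionVars false
set_option linter.unusedSimpArgs false
set_option linter.unusedVariables false

/-!
# Spiders attached to hubs, legs of variable length
-/

namespace Pool.Agent.H17.GM.LG

open Finset Pool.Agent.H38

section
variable (K J p : ℕ) (Lg : Fin J → ℕ) (len : ℕ → ℕ)

/-- vertices: hubs, centres, leg vertices, pendant vertices -/
abbrev Vt := Fin K ⊕ (Fin J ⊕
  (((e : (j : Fin J) × Fin (Lg j)) × Fin (len e.2.1)) ⊕ Fin p))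

variable {K J p Lg len}

abbrev vS (x : Fin K) : Vt K J p Lg len := Sum.inl x
abbrev vC (j : Fin J) : Vt K J p Lg len := Sum.inr (Sum.inl j)
abbrev vL (e : (j : Fin J) × Fin (Lg j)) (b : Fin (len e.2.1)) : Vt K J p Lg len :=
  Sum.inr (Sum.inr (Sum.inl ⟨e, b⟩))
abbrev vQ (x : Fin p) : Vt K J p Lg len := Sum.inr (Sum.inr (Sum.inr x))

/-- the path along leg `e`, from the centre to the hub -/
def pth (hL : ∀ j, Lg j ≤ K) (e : (j : Fin J) × Fin (Lg j)) (a : ℕ) : Vt K J p Lg len :=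
  if a = 0 then vC e.1 else if h : a - 1 < len e.2.1 then vL e ⟨a - 1, h⟩
    else vS (Fin.castLE (hL e.1) e.2)

lemma pth_zero (hL : ∀ j, Lg j ≤ K) (e : (j : Fin J) × Fin (Lg j)) :
    (pth hL e 0 : Vt K J p Lg len) = vC e.1 := by
  simp [pth]

lemma pth_mid (hL : ∀ j, Lg j ≤ K) (e : (j : Fin J) × Fin (Lg j)) (b : ℕ) (h : b < len e.2.1) :
    (pth hL e (b + 1) : Vt K J p Lg len) = vL e ⟨b, h⟩ := by
  unfold pth
  rw [if_neg (by omega), dif_pos (show b + 1 - 1 < len e.2.1 by omega)]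
  rfl

lemma pth_last (hL : ∀ j, Lg j ≤ K) (e : (j : Fin J) × Fin (Lg j)) :
    (pth hL e (len e.2.1 + 1) : Vt K J p Lg len) = vS (Fin.castLE (hL e.1) e.2) := by
  unfold pth
  rw [if_neg (by omega), dif_neg (by omega)]

/-- directed edges -/
def rel (hL : ∀ j, Lg j ≤ K) (s0 : Fin K) (u v : Vt K J p Lg len) : Prop :=
  (∃ e : (j : Fin J) × Fin (Lg j), ∃ a : ℕ, a ≤ len e.2.1 ∧ u = pth hL e a ∧
    v = pth hL e (a + 1)) ∨
    ∃ x : Fin p, u = vQ x ∧ v = vS s0

/-- the extremal graph -/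
def gr (hL : ∀ j, Lg j ≤ K) (s0 : Fin K) : SimpleGraph (Vt K J p Lg len) :=
  SimpleGraph.fromRel (rel hL s0)

variable {hL : ∀ j, Lg j ≤ K} {s0 : Fin K}

lemma vL_inj {e e' : (j : Fin J) × Fin (Lg j)} {b : Fin (len e.2.1)} {b' : Fin (len e'.2.1)}
    (h : (vL e b : Vt K J p Lg len) = vL e' b') : e = e' ∧ b.1 = b'.1 := by
  simp only [vL, Sum.inr.injEq, Sum.inl.injEq, Sigma.mk.inj_iff] at h
  obtain ⟨rfl, h⟩ := h
  exact ⟨rfl, by rw [eq_of_heq h]⟩

lemma rel_L {e : (j : Fin J) × Fin (Lg j)} {b : Fin (len e.2.1)} {w : Vt K J p Lg len}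
    (h : rel hL s0 (vL e b) w) : w = pth hL e (b.1 + 2) := by
  rcases h with ⟨e', a, ha, h1, h2⟩ | ⟨x, h1, h2⟩
  · rcases Nat.eq_zero_or_pos a with h0 | h0
    · subst h0
      rw [pth_zero] at h1
      simp [vL, vC] at h1
    · obtain ⟨a', rfl⟩ : ∃ a', a = a' + 1 := ⟨a - 1, by omega⟩
      rw [pth_mid hL e' a' (by omega)] at h1
      obtain ⟨rfl, h3⟩ := vL_inj h1
      simp only at h3
      rw [h3]
      exact h2
  · simp [vL, vQ] at h1

lemma rel_L' {e : (j : Fin J) × Fin (Lg j)} {b : Fin (len e.2.1)} {w : Vt K J p Lg len}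
    (h : rel hL s0 w (vL e b)) : w = pth hL e b.1 := by
  rcases h with ⟨e', a, ha, h1, h2⟩ | ⟨x, h1, h2⟩
  · rcases Nat.lt_or_ge a (len e'.2.1) with h0 | h0
    · rw [pth_mid hL e' a h0] at h2
      obtain ⟨rfl, h3⟩ := vL_inj h2
      simp only at h3
      rw [h3]
      exact h1
    · obtain rfl : a = len e'.2.1 := by omega
      rw [pth_last] at h2
      simp [vL, vS] at h2
  · simp [vL, vS] at h2

lemma adj_L {e : (j : Fin J) × Fin (Lg j)} {b : Fin (len e.2.1)} {w : Vt K J p Lg len}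
    (h : (gr hL s0).Adj (vL e b) w) : w = pth hL e (b.1 + 2) ∨ w = pth hL e b.1 := by
  rcases h.2 with h | h
  · exact Or.inl (rel_L h)
  · exact Or.inr (rel_L' h)

lemma adj_C {j : Fin J} {w : Vt K J p Lg len} (h : (gr hL s0).Adj (vC j) w) :
    ∃ i : Fin (Lg j), w = pth hL ⟨j, i⟩ 1 := by
  rcases h.2 with h | h
  · rcases h with ⟨e', a, ha, h1, h2⟩ | ⟨x, h1, h2⟩
    · rcases Nat.eq_zero_or_pos a with h0 | h0
      · subst h0
        rw [pth_zero] at h1
        simp only [vC, Sum.inr.injEq, Sum.inl.injEq] at h1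
        subst h1
        exact ⟨e'.2, h2⟩
      · obtain ⟨a', rfl⟩ : ∃ a', a = a' + 1 := ⟨a - 1, by omega⟩
        rw [pth_mid hL e' a' (by omega)] at h1
        simp [vL, vC] at h1
    · simp [vC, vQ] at h1
  · rcases h with ⟨e', a, ha, h1, h2⟩ | ⟨x, h1, h2⟩
    · rcases Nat.lt_or_ge a (len e'.2.1) with h0 | h0
      · rw [pth_mid hL e' a h0] at h2
        simp [vL, vC] at h2
      · obtain rfl : a = len e'.2.1 := by omega
        rw [pth_last] at h2
        simp [vC, vS] at h2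
    · simp [vC, vS] at h2

lemma adj_S {x : Fin K} {w : Vt K J p Lg len} (h : (gr hL s0).Adj (vS x) w) :
    (∃ e : (j : Fin J) × Fin (Lg j), e.2.1 = x.1 ∧ w = pth hL e (len e.2.1)) ∨
      ∃ y, w = vQ y := by
  rcases h.2 with h | h
  · rcases h with ⟨e', a, ha, h1, h2⟩ | ⟨x, h1, h2⟩
    · rcases Nat.eq_zero_or_pos a with h0 | h0
      · subst h0
        rw [pth_zero] at h1
        simp [vC, vS] at h1
      · obtain ⟨a', rfl⟩ : ∃ a', a = a' + 1 := ⟨a - 1, by omega⟩
        rw [pth_mid hL e' a' (by omega)] at h1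
        simp [vL, vS] at h1
    · simp [vS, vQ] at h1
  · rcases h with ⟨e', a, ha, h1, h2⟩ | ⟨y, h1, h2⟩
    · rcases Nat.lt_or_ge a (len e'.2.1) with h0 | h0
      · rw [pth_mid hL e' a h0] at h2
        simp [vL, vS] at h2
      · obtain rfl : a = len e'.2.1 := by omega
        rw [pth_last] at h2
        simp only [vS, Sum.inl.injEq] at h2
        left
        refine ⟨e', ?_, h1⟩
        rw [h2]
        rfl
    · exact Or.inr ⟨y, h1⟩

lemma adj_Q {x : Fin p} {w : Vt K J p Lg len} (h : (gr hL s0).Adj (vQ x) w) : w = vS s0 := by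
  rcases h.2 with h | h
  · rcases h with ⟨e', a, ha, h1, h2⟩ | ⟨x, h1, h2⟩
    · rcases Nat.eq_zero_or_pos a with h0 | h0
      · subst h0
        rw [pth_zero] at h1
        simp [vC, vQ] at h1
      · obtain ⟨a', rfl⟩ : ∃ a', a = a' + 1 := ⟨a - 1, by omega⟩
        rw [pth_mid hL e' a' (by omega)] at h1
        simp [vL, vQ] at h1
    · exact h2
  · rcases h with ⟨e', a, ha, h1, h2⟩ | ⟨y, h1, h2⟩
    · rcases Nat.lt_or_ge a (len e'.2.1) with h0 | h0
      · rw [pth_mid hL e' a h0] at h2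
        simp [vL, vQ] at h2
      · obtain rfl : a = len e'.2.1 := by omega
        rw [pth_last] at h2
        simp [vS, vQ] at h2
    · simp [vS, vQ] at h2

section good
variable {D : Finset (Vt K J p Lg len)} (hD : Good (gr hL s0) D)
include hD

lemma good_L {e : (j : Fin J) × Fin (Lg j)} {b : ℕ} (hb : b < len e.2.1)
    (h : pth hL e (b + 1) ∈ D) : pth hL e b ∈ D ∧ pth hL e (b + 2) ∈ D := by
  obtain ⟨w1, hw1, w2, hw2, hne, a1, a2⟩ := exists_two_of_two_le_dN _ (hD.2 _ h)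
  rw [pth_mid hL e b hb] at a1 a2
  rcases adj_L a1 with h1 | h1 <;> rcases adj_L a2 with h2 | h2
  · exact absurd (h1.trans h2.symm) hne
  · exact ⟨h2 ▸ hw2, h1 ▸ hw1⟩
  · exact ⟨h1 ▸ hw1, h2 ▸ hw2⟩
  · exact absurd (h1.trans h2.symm) hne

lemma good_up {e : (j : Fin J) × Fin (Lg j)} {b : ℕ} (hb1 : 1 ≤ b)
    (h : pth hL e b ∈ D) : ∀ a, b ≤ a → a ≤ len e.2.1 + 1 → pth hL e a ∈ D := by
  intro a hba
  induction a, hba using Nat.le_induction with
  | base => intro _; exact h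
  | succ a hba ih =>
    intro ha
    have h1 := ih (by omega)
    obtain ⟨a', rfl⟩ : ∃ a', a = a' + 1 := ⟨a - 1, by omega⟩
    exact (good_L hD (by omega) h1).2

lemma good_down {e : (j : Fin J) × Fin (Lg j)} : ∀ b : ℕ, b ≤ len e.2.1 →
    pth hL e b ∈ D → ∀ a, a ≤ b → pth hL e a ∈ D := by
  intro b
  induction b with
  | zero => intro _ h a ha; obtain rfl : a = 0 := by omega
            exact h
  | succ b ih =>
    intro hb h a ha
    rcases Nat.lt_or_ge a (b + 1) with h1 | h1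
    · exact ih (by omega) (good_L hD (by omega) h).1 a (by omega)
    · obtain rfl : a = b + 1 := by omega
      exact h

lemma good_C {j : Fin J} (h : vC j ∈ D) : ∃ i i' : Fin (Lg j), i ≠ i' ∧
    (∀ a, a ≤ len i.1 + 1 → pth hL ⟨j, i⟩ a ∈ D) ∧
    (∀ a, a ≤ len i'.1 + 1 → pth hL ⟨j, i'⟩ a ∈ D) := by
  obtain ⟨w1, hw1, w2, hw2, hne, a1, a2⟩ := exists_two_of_two_le_dN _ (hD.2 _ h)
  obtain ⟨i, hi⟩ := adj_C a1
  obtain ⟨i', hi'⟩ := adj_C a2
  refine ⟨i, i', ?_, ?_, ?_⟩
  · rintro rfl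
    exact hne (hi.trans hi'.symm)
  · intro a ha
    rcases Nat.eq_zero_or_pos a with h0 | h0
    · subst h0
      rw [pth_zero]
      exact h
    · exact good_up hD le_rfl (hi ▸ hw1) a h0 ha
  · intro a ha
    rcases Nat.eq_zero_or_pos a with h0 | h0
    · subst h0
      rw [pth_zero]
      exact h
    · exact good_up hD le_rfl (hi' ▸ hw2) a h0 ha

lemma good_Q {x : Fin p} : vQ x ∉ D := by
  intro h
  obtain ⟨w1, hw1, w2, hw2, hne, a1, a2⟩ := exists_two_of_two_le_dN _ (hD.2 _ h)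
  exact hne ((adj_Q a1).trans (adj_Q a2).symm)

lemma good_S {x : Fin K} (h : vS x ∈ D) : ∃ j j' : Fin J, j ≠ j' ∧
    vC j ∈ D ∧ vC j' ∈ D := by
  obtain ⟨w1, hw1, w2, hw2, hne, a1, a2⟩ := exists_two_of_two_le_dN _ (hD.2 _ h)
  rcases adj_S a1 with ⟨e, he, h1⟩ | ⟨y, rfl⟩
  swap
  · exact absurd hw1 (good_Q hD)
  rcases adj_S a2 with ⟨e', he', h2⟩ | ⟨y, rfl⟩
  swap
  · exact absurd hw2 (good_Q hD)
  refine ⟨e.1, e'.1, ?_, ?_, ?_⟩
  · intro hee
    apply hne
    rw [h1, h2]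
    obtain ⟨j, i⟩ := e
    obtain ⟨j', i'⟩ := e'
    simp only at hee he he'
    subst hee
    have : i = i' := Fin.ext (he.trans he'.symm)
    rw [this]
  · have := good_down hD _ le_rfl (h1 ▸ hw1) 0 (Nat.zero_le _)
    rwa [pth_zero] at this
  · have := good_down hD _ le_rfl (h2 ▸ hw2) 0 (Nat.zero_le _)
    rwa [pth_zero] at this

lemma good_main : ∃ j j' : Fin J, j ≠ j' ∧ vC j ∈ D ∧ vC j' ∈ D := by
  obtain ⟨v, hv⟩ := hD.1
  have hC : ∀ j, vC j ∈ D → ∃ j j' : Fin J, j ≠ j' ∧ vC j ∈ D ∧ vC j' ∈ D := by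
    intro j hj
    obtain ⟨i, i', _, h1, _⟩ := good_C hD hj
    have := h1 (len i.1 + 1) le_rfl
    rw [pth_last hL ⟨j, i⟩] at this
    exact good_S hD this
  rcases v with x | j | ⟨e, b⟩ | x
  · exact good_S hD hv
  · exact hC j hv
  · have h1 : pth hL e (b.1 + 1) ∈ D := by
      rw [pth_mid hL e b.1 b.2]; exact hv
    have := good_up hD (by omega) h1 (len e.2.1 + 1) (by omega) le_rfl
    rw [pth_last] at this
    exact good_S hD this
  · exact absurd hv (good_Q hD)

/-- the size of a good set: two centres, two complete legs at each of them -/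
lemma good_card {B : ℕ} (hB : ∀ i i' : ℕ, i ≠ i' → B ≤ len i + len i') :
    2 * B + 4 ≤ D.card ∧
    2 ≤ (D ∩ (univ : Finset (Fin K)).map ⟨Sum.inl, Sum.inl_injective⟩).card := by
  classical
  obtain ⟨j, j', hjj, hj, hj'⟩ := good_main hD
  obtain ⟨i1, i2, hi, h1, h2⟩ := good_C hD hj
  obtain ⟨i1', i2', hi', h1', h2'⟩ := good_C hD hj'
  set T : Finset ((j : Fin J) × Fin (Lg j)) := {⟨j, i1⟩, ⟨j, i2⟩, ⟨j', i1'⟩, ⟨j', i2'⟩} with hT
  have hTs : ∑ e ∈ T, len e.2.1 = len i1.1 + (len i2.1 + (len i1'.1 + len i2'.1)) := by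
    rw [hT, sum_insert, sum_insert, sum_insert, sum_singleton]
    · simp [hi']
    · simp [hjj]
    · simp [hi, hjj]
  have hTm : ∀ e ∈ T, ∀ a, a ≤ len e.2.1 + 1 → pth hL e a ∈ D := by
    intro e he a ha
    rw [hT] at he
    simp only [mem_insert, mem_singleton] at he
    rcases he with rfl | rfl | rfl | rfl
    · exact h1 a ha
    · exact h2 a ha
    · exact h1' a ha
    · exact h2' a ha
  have hs1 := h1 (len i1.1 + 1) le_rfl
  have hs2 := h2 (len i2.1 + 1) le_rfl
  rw [pth_last hL ⟨j, i1⟩] at hs1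
  rw [pth_last hL ⟨j, i2⟩] at hs2
  set x1 : Fin K := Fin.castLE (hL j) i1 with hx1
  set x2 : Fin K := Fin.castLE (hL j) i2 with hx2
  have hx12 : x1 ≠ x2 := fun h => hi (Fin.castLE_injective _ h)
  constructor
  · have hsub : ({x1, x2} : Finset (Fin K)).disjSum (({j, j'} : Finset (Fin J)).disjSum
        ((T.sigma (fun e => (univ : Finset (Fin (len e.2.1))))).disjSum (∅ : Finset (Fin p)))) ⊆
        D := by
      intro v hv
      rcases v with x | c | ⟨e, b⟩ | x
      · rw [inl_mem_disjSum, mem_insert, mem_singleton] at hv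
        rcases hv with rfl | rfl
        · exact hs1
        · exact hs2
      · rw [inr_mem_disjSum, inl_mem_disjSum, mem_insert, mem_singleton] at hv
        rcases hv with rfl | rfl
        · exact hj
        · exact hj'
      · rw [inr_mem_disjSum, inr_mem_disjSum, inl_mem_disjSum, mem_sigma] at hv
        have := hTm e hv.1 (b.1 + 1) (by omega)
        rwa [pth_mid hL e b.1 b.2] at this
      · rw [inr_mem_disjSum, inr_mem_disjSum, inr_mem_disjSum] at hv
        simp at hv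
    have h3 := card_le_card hsub
    rw [card_disjSum, card_disjSum, card_disjSum, card_pair hx12, card_pair hjj, card_sigma,
      card_empty] at h3
    simp only [card_univ, Fintype.card_fin] at h3
    rw [hTs] at h3
    have h4 := hB i1.1 i2.1 (fun h => hi (Fin.ext h))
    have h5 := hB i1'.1 i2'.1 (fun h => hi' (Fin.ext h))
    omega
  · have hsub : ({Sum.inl x1, Sum.inl x2} : Finset (Vt K J p Lg len)) ⊆
        D ∩ (univ : Finset (Fin K)).map ⟨Sum.inl, Sum.inl_injective⟩ := by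
      intro v hv
      rw [mem_insert, mem_singleton] at hv
      rw [mem_inter, mem_map]
      rcases hv with rfl | rfl
      · exact ⟨hs1, x1, mem_univ _, rfl⟩
      · exact ⟨hs2, x2, mem_univ _, rfl⟩
    have h3 := card_le_card hsub
    rwa [card_pair (fun h => hx12 (Sum.inl_injective h))] at h3

end good

/-- rank of a vertex -/
def rk : Vt K J p Lg len → ℕ
  | Sum.inl x => len x.1 + 1
  | Sum.inr (Sum.inl _) => 0
  | Sum.inr (Sum.inr (Sum.inl ⟨_, b⟩)) => b.1 + 1
  | Sum.inr (Sum.inr (Sum.inr _)) => 0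

lemma rk_pth (e : (j : Fin J) × Fin (Lg j)) {a : ℕ} (ha : a ≤ len e.2.1 + 1) :
    rk (pth hL e a : Vt K J p Lg len) = a := by
  rcases Nat.eq_zero_or_pos a with h0 | h0
  · subst h0; rw [pth_zero]; rfl
  · obtain ⟨a', rfl⟩ : ∃ a', a = a' + 1 := ⟨a - 1, by omega⟩
    rcases Nat.lt_or_ge a' (len e.2.1) with h1 | h1
    · rw [pth_mid hL e a' h1]; rfl
    · obtain rfl : a' = len e.2.1 := by omega
      rw [pth_last]; rfl

lemma pth_ne_Q (e : (j : Fin J) × Fin (Lg j)) (a : ℕ) (x : Fin p) :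
    (pth hL e a : Vt K J p Lg len) ≠ vQ x := by
  unfold pth
  split_ifs <;> simp [vC, vL, vS, vQ]

/-- the edges -/
def ed (hL : ∀ j, Lg j ≤ K) (s0 : Fin K) :
    ((e : (j : Fin J) × Fin (Lg j)) × Fin (len e.2.1 + 1)) ⊕ Fin p → Sym2 (Vt K J p Lg len)
  | Sum.inl ⟨e, a⟩ => s(pth hL e a.1, pth hL e (a.1 + 1))
  | Sum.inr x => s(vQ x, vS s0)

lemma ed_mem (x : ((e : (j : Fin J) × Fin (Lg j)) × Fin (len e.2.1 + 1)) ⊕ Fin p) :
    ed hL s0 x ∈ (gr hL s0 : SimpleGraph (Vt K J p Lg len)).edgeSet := by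
  rcases x with ⟨e, a⟩ | x
  · have h1 := rk_pth (hL := hL) (p := p) (len := len) e (show a.1 ≤ len e.2.1 + 1 by omega)
    have h2 := rk_pth (hL := hL) (p := p) (len := len) e (show a.1 + 1 ≤ len e.2.1 + 1 by omega)
    refine ⟨?_, Or.inl (Or.inl ⟨e, a.1, by omega, rfl, rfl⟩)⟩
    intro h
    have h' : (pth hL e a.1 : Vt K J p Lg len) = pth hL e (a.1 + 1) := h
    rw [h', h2] at h1
    omega
  · refine ⟨by simp [vQ, vS], Or.inl (Or.inr ⟨x, rfl, rfl⟩)⟩

lemma ed_inj : Function.Injective (ed hL s0 :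
    ((e : (j : Fin J) × Fin (Lg j)) × Fin (len e.2.1 + 1)) ⊕ Fin p →
      Sym2 (Vt K J p Lg len)) := by
  rintro (⟨e, a⟩ | x) (⟨e', a'⟩ | x') h
  · have r1 := rk_pth (hL := hL) (p := p) (len := len) e (show a.1 ≤ len e.2.1 + 1 by omega)
    have r2 := rk_pth (hL := hL) (p := p) (len := len) e (show a.1 + 1 ≤ len e.2.1 + 1 by omega)
    have r1' := rk_pth (hL := hL) (p := p) (len := len) e' (show a'.1 ≤ len e'.2.1 + 1 by omega)
    have r2' := rk_pth (hL := hL) (p := p) (len := len) e'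
      (show a'.1 + 1 ≤ len e'.2.1 + 1 by omega)
    have h' : s(pth hL e a.1, pth hL e (a.1 + 1)) =
      (s(pth hL e' a'.1, pth hL e' (a'.1 + 1)) : Sym2 (Vt K J p Lg len)) := h
    rw [Sym2.eq_iff] at h'
    rcases h' with ⟨h1, h2⟩ | ⟨h1, h2⟩
    · have haa : a.1 = a'.1 := by
        rw [h1, r1'] at r1
        exact r1.symm
      have hee : e = e' := by
        rcases Nat.lt_or_ge a.1 (len e.2.1) with h3 | h3
        · rcases Nat.lt_or_ge a'.1 (len e'.2.1) with h4 | h4
          · rw [pth_mid hL e a.1 h3, pth_mid hL e' a'.1 h4] at h2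
            exact (vL_inj h2).1
          · exfalso
            have h5 : a'.1 = len e'.2.1 := by omega
            rw [pth_mid hL e a.1 h3, h5, pth_last] at h2
            simp [vL, vS] at h2
        · have h3' : a.1 = len e.2.1 := by omega
          rcases Nat.lt_or_ge a'.1 (len e'.2.1) with h4 | h4
          · exfalso
            rw [pth_mid hL e' a'.1 h4, h3', pth_last] at h2
            simp [vL, vS] at h2
          · have h5 : a'.1 = len e'.2.1 := by omega
            rw [h3', h5, pth_last, pth_last] at h2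
            have h6 : e.1 = e'.1 := by
              rcases Nat.eq_zero_or_pos a.1 with h0 | h0
              · rw [← haa, h0, pth_zero, pth_zero] at h1
                simpa [vC] using h1
              · obtain ⟨c, hc⟩ : ∃ c, a.1 = c + 1 := ⟨a.1 - 1, by omega⟩
                rw [← haa, hc, pth_mid hL e c (by omega), pth_mid hL e' c (by omega)] at h1
                rw [(vL_inj h1).1]
            obtain ⟨j, i⟩ := e
            obtain ⟨j', i'⟩ := e'
            simp only at h6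
            subst h6
            simp only [vS, Sum.inl.injEq] at h2
            have := Fin.castLE_injective _ h2
            rw [this]
      subst hee
      have : a = a' := Fin.ext haa
      rw [this]
    · exfalso
      rw [h1, r2'] at r1
      rw [h2, r1'] at r2
      omega
  · exfalso
    have h' : s(pth hL e a.1, pth hL e (a.1 + 1)) =
      (s(vQ x', vS s0) : Sym2 (Vt K J p Lg len)) := h
    rw [Sym2.eq_iff] at h'
    rcases h' with ⟨h1, h2⟩ | ⟨h1, h2⟩
    · exact pth_ne_Q _ _ _ h1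
    · exact pth_ne_Q _ _ _ h2
  · exfalso
    have h' : (s(vQ x, vS s0) : Sym2 (Vt K J p Lg len)) =
      s(pth hL e' a'.1, pth hL e' (a'.1 + 1)) := h
    rw [Sym2.eq_iff] at h'
    rcases h' with ⟨h1, h2⟩ | ⟨h1, h2⟩
    · exact pth_ne_Q _ _ _ h1.symm
    · exact pth_ne_Q _ _ _ h1.symm
  · have h' : (s(vQ x, vS s0) : Sym2 (Vt K J p Lg len)) = s(vQ x', vS s0) := h
    rw [Sym2.eq_iff] at h'
    rcases h' with ⟨h1, h2⟩ | ⟨h1, h2⟩
    · simp only [vQ, Sum.inr.injEq] at h1
      rw [h1]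
    · simp [vQ, vS] at h1

lemma card_Vt : Fintype.card (Vt K J p Lg len) =
    K + (J + ((∑ j, ∑ i : Fin (Lg j), len i.1) + p)) := by
  rw [Fintype.card_sum, Fintype.card_sum, Fintype.card_sum, Fintype.card_fin, Fintype.card_fin,
    Fintype.card_fin, Fintype.card_sigma]
  simp only [Fintype.card_fin]
  rw [← Fintype.sum_sigma']

lemma edges_ge : (∑ j, ∑ i : Fin (Lg j), (len i.1 + 1)) + p ≤
    (gr hL s0 : SimpleGraph (Vt K J p Lg len)).edgeSet.ncard := by
  classical
  have h1 : Set.range (ed hL s0) ⊆ (gr hL s0 : SimpleGraph (Vt K J p Lg len)).edgeSet := by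
    rintro _ ⟨x, rfl⟩
    exact ed_mem x
  have h2 := Set.ncard_le_ncard h1 (Set.toFinite _)
  have h3 : (Set.range (ed hL s0 : ((e : (j : Fin J) × Fin (Lg j)) × Fin (len e.2.1 + 1)) ⊕
      Fin p → Sym2 (Vt K J p Lg len))).ncard = (∑ j, ∑ i : Fin (Lg j), (len i.1 + 1)) + p := by
    rw [← Set.image_univ, Set.ncard_image_of_injective _ ed_inj, Set.ncard_univ,
      Nat.card_eq_fintype_card, Fintype.card_sum, Fintype.card_sigma, Fintype.card_fin]
    simp only [Fintype.card_fin]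
    rw [← Fintype.sum_sigma']
  omega

end

end Pool.Agent.H17.GM.LG
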