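import Pool.Agent.H17.GM.LG
import Pool.Agent.H17.GM.TM4
import Pool.Agent.H38.Main

set_option autoImplicit false
set_option linter.unusedSectionVars false
set_option linter.unusedSimpArgs false
set_option linter.unusedVariables false

/-!
# The lower bound graph
-/

namespace Pool.Agent.H17.GM

open Finset Pool.Agent.H38

namespace LG

/-- lower bound graph, transported to `Fin n` -/
lemma exists_lower (k B J p : ℕ) (hk : 2 ≤ k) (len : ℕ → ℕ)
    (hB : ∀ i i' : ℕ, i ≠ i' → B ≤ len i + len i') (Lg : Fin J → ℕ)
    (hL : ∀ j, Lg j ≤ 2 * k - 1) (n : ℕ)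
    (hn : n = (2 * k - 1) + (J + ((∑ j, ∑ i : Fin (Lg j), len i.1) + p))) :
    ∃ G : SimpleGraph (Fin n), ¬ HasDisjointCycles G k ∧ ((2 * B + 4 : ℕ) : ℕ∞) ≤ G.egirth ∧
      (∑ j, ∑ i : Fin (Lg j), (len i.1 + 1)) + p ≤ G.edgeSet.ncard := by
  classical
  have hpos : 0 < 2 * k - 1 := by omega
  let H : SimpleGraph (Vt (2 * k - 1) J p Lg len) := gr hL ⟨0, hpos⟩
  have hcard : Fintype.card (Vt (2 * k - 1) J p Lg len) = n := by
    rw [card_Vt, hn]
  let e : Vt (2 * k - 1) J p Lg len ≃ Fin n := Fintype.equivFinOfCardEq hcard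
  let G : SimpleGraph (Fin n) := H.map e.toEmbedding
  have iso : H ≃g G := SimpleGraph.Iso.map e H
  refine ⟨G, ?_, ?_, ?_⟩
  · intro hdis
    have h1 : HasDisjointCycles H k := hdis.map iso.symm
    rw [← pack_iff] at h1
    obtain ⟨f, hf, hd⟩ := h1
    choose D hD hDg using fun i => (hf i).2.exists_good
    set S : Finset (Vt (2 * k - 1) J p Lg len) :=
      (univ : Finset (Fin (2 * k - 1))).map ⟨Sum.inl, Sum.inl_injective⟩ with hS
    have hSc : S.card = 2 * k - 1 := by rw [hS, card_map, card_univ, Fintype.card_fin]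
    have h2 : (univ.biUnion (fun i => D i ∩ S)).card = ∑ i, (D i ∩ S).card := by
      apply card_biUnion
      intro i _ j _ hij
      exact ((hd i j hij).mono (hD i) (hD j)).mono inter_subset_left inter_subset_left
    have h3 : (univ.biUnion (fun i => D i ∩ S)).card ≤ S.card := by
      apply card_le_card
      rw [biUnion_subset]
      intro i _
      exact inter_subset_right
    have h4 : ∑ i : Fin k, 2 ≤ ∑ i, (D i ∩ S).card :=
      sum_le_sum (fun i _ => (good_card (hDg i) hB).2)
    rw [sum_const, card_univ, Fintype.card_fin, smul_eq_mul] at h4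
    omega
  · rw [← iso.egirth_eq, egirth_iff]
    intro U hU hd
    obtain ⟨D, hD, hg⟩ := hd.exists_good
    have h1 := (good_card hg hB).1
    have h2 := card_le_card hD
    omega
  · have h1 : (∑ j, ∑ i : Fin (Lg j), (len i.1 + 1)) + p ≤ H.edgeSet.ncard := edges_ge
    have h2 : H.edgeSet.ncard = G.edgeSet.ncard := by
      rw [← Nat.card_coe_set_eq, ← Nat.card_coe_set_eq]
      exact Nat.card_congr iso.mapEdgeSet
    omega

end LG

/-- the leg lengths -/
def legs (l i : ℕ) : ℕ := if i = 0 then l - 1 else l

lemma sum_legs (l : ℕ) (hl : 1 ≤ l) (q : ℕ) (hq : 1 ≤ q) :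
    (∑ i : Fin q, legs l i.1) + 1 = l * q := by
  obtain ⟨r, rfl⟩ : ∃ r, q = r + 1 := ⟨q - 1, by omega⟩
  rw [Fin.sum_univ_succ]
  have h1 : ∑ i : Fin r, legs l (Fin.succ i).1 = r * l := by
    rw [sum_congr rfl (g := fun _ => l)]
    · rw [sum_const, card_univ, Fintype.card_fin, smul_eq_mul]
    · intro i _
      unfold legs
      rw [if_neg (by simp)]
  rw [h1]
  unfold legs
  simp only [Fin.val_zero, if_true]
  have : l * (r + 1) = r * l + l := by ring
  omega

/-- ceiling -/
lemma ceil_eq (K t s : ℕ) (hK : 1 ≤ K) (hs : s < K) :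
    (K * t + s + (K - 1)) / K = t + (if s = 0 then 0 else 1) := by
  split_ifs with h
  · subst h
    rw [add_zero, add_zero, Nat.mul_add_div (by omega), Nat.div_eq_of_lt (by omega), add_zero]
  · have : K * t + s + (K - 1) = K * (t + 1) + (s - 1) := by
      rw [mul_add, mul_one]; omega
    rw [this, Nat.mul_add_div (by omega), Nat.div_eq_of_lt (by omega), add_zero]

/-- the lower bound -/
theorem lower (k l n : ℕ) (hk : 2 ≤ k) (hl : 1 ≤ l) (hn : 2 * k - 1 ≤ n) :
    ∃ G : SimpleGraph (Fin n), ¬ HasDisjointCycles G k ∧ ((4 * l + 2 : ℕ) : ℕ∞) ≤ G.egirth ∧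
      (n - (2 * k - 1)) + phi (2 * k - 1) l (n - (2 * k - 1)) ≤ G.edgeSet.ncard := by
  set K := 2 * k - 1 with hK
  have hK1 : 1 ≤ K := by omega
  obtain ⟨N, rfl⟩ : ∃ N, n = K + N := ⟨n - K, by omega⟩
  rw [Nat.add_sub_cancel_left]
  set M := N / l with hM
  set t := M / K with ht
  set s := M % K with hs
  have hMe : K * t + s = M := Nat.div_add_mod M K
  have hsK : s < K := Nat.mod_lt _ (by omega)
  have hNe : l * M + N % l = N := Nat.div_add_mod N l
  have hB : ∀ i i' : ℕ, i ≠ i' → 2 * l - 1 ≤ legs l i + legs l i' := by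
    intro i i' hne
    unfold legs
    split_ifs with h1 h2 h2 <;> omega
  have hphi : phi K l N = M - (t + (if s = 0 then 0 else 1)) := by
    unfold phi
    rw [← hM, ← ceil_eq K t s hK1 hsK, hMe]
  by_cases hs0 : s = 0
  · obtain ⟨G, h1, h2, h3⟩ := LG.exists_lower k (2 * l - 1) t (N % l) hk (legs l) hB
      (fun _ => K) (fun _ => le_rfl) (K + N) (by
        rw [sum_const, card_univ, Fintype.card_fin, smul_eq_mul]
        have h1 := sum_legs l hl K hK1
        have h2 : t * (∑ i : Fin K, legs l i.1) + t = l * M := by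
          rw [← hMe, hs0, add_zero]
          calc t * (∑ i : Fin K, legs l i.1) + t = t * ((∑ i : Fin K, legs l i.1) + 1) := by ring
            _ = t * (l * K) := by rw [h1]
            _ = _ := by ring
        omega)
    refine ⟨G, h1, ?_, ?_⟩
    · have e : 2 * (2 * l - 1) + 4 = 4 * l + 2 := by omega
      rw [e] at h2
      exact h2
    · refine le_trans ?_ h3
      rw [sum_const, card_univ, Fintype.card_fin, smul_eq_mul, hphi, if_pos hs0, add_zero,
        sum_add_distrib, sum_const, card_univ, Fintype.card_fin, smul_eq_mul, mul_one]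
      have h1 := sum_legs l hl K hK1
      have h2 : t * (∑ i : Fin K, legs l i.1 + K) + t = l * M + M := by
        rw [← hMe, hs0, add_zero]
        calc t * (∑ i : Fin K, legs l i.1 + K) + t =
            t * ((∑ i : Fin K, legs l i.1) + 1) + t * K := by ring
          _ = t * (l * K) + t * K := by rw [h1]
          _ = _ := by ring
      have h3 : t ≤ M := Nat.div_le_self _ _
      omega
  · have hsum : ∀ f : ℕ → ℕ, ∑ j : Fin (t + 1), f (if j.1 < t then K else s) =
        t * f K + f s := by
      intro f
      rw [Fin.sum_univ_castSucc]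
      have : ∀ j : Fin t, f (if (Fin.castSucc j).1 < t then K else s) = f K := by
        intro j
        rw [if_pos (by simp)]
      rw [sum_congr rfl (fun j _ => this j), sum_const, card_univ, Fintype.card_fin, smul_eq_mul]
      simp
    obtain ⟨G, h1, h2, h3⟩ := LG.exists_lower k (2 * l - 1) (t + 1) (N % l) hk (legs l) hB
      (fun j => if j.1 < t then K else s) (by
        intro j
        show (if j.1 < t then K else s) ≤ K
        split_ifs <;> omega) (K + N) (by
        rw [hsum (fun q => ∑ i : Fin q, legs l i.1)]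
        have h1 := sum_legs l hl K hK1
        have h1' := sum_legs l hl s (by omega)
        have h2 : t * (∑ i : Fin K, legs l i.1) + t = l * (K * t) := by
          calc t * (∑ i : Fin K, legs l i.1) + t = t * ((∑ i : Fin K, legs l i.1) + 1) := by ring
            _ = t * (l * K) := by rw [h1]
            _ = _ := by ring
        have h4 : l * M = l * (K * t) + l * s := by rw [← hMe]; ring
        omega)
    refine ⟨G, h1, ?_, ?_⟩
    · have e : 2 * (2 * l - 1) + 4 = 4 * l + 2 := by omega
      rw [e] at h2
      exact h2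
    · refine le_trans ?_ h3
      rw [hsum (fun q => ∑ i : Fin q, (legs l i.1 + 1)), hphi, if_neg hs0]
      simp only [sum_add_distrib, sum_const, card_univ, Fintype.card_fin, smul_eq_mul, mul_one]
      have h1 := sum_legs l hl K hK1
      have h1' := sum_legs l hl s (by omega)
      have h2 : t * (∑ i : Fin K, legs l i.1 + K) + t = l * (K * t) + K * t := by
        calc t * (∑ i : Fin K, legs l i.1 + K) + t =
            t * ((∑ i : Fin K, legs l i.1) + 1) + t * K := by ring
          _ = t * (l * K) + t * K := by rw [h1]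
          _ = _ := by ring
      have h4 : l * M = l * (K * t) + l * s := by rw [← hMe]; ring
      have h5 : t ≤ K * t := Nat.le_mul_of_pos_left _ (by omega)
      omega

end Pool.Agent.H17.GM
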