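import Pool.Agent.H17.GM.CH
import Pool.Agent.H17.GM.CQ
import Pool.Agent.H17.GM.LM
import Pool.Agent.H45.GF.TBLB

set_option autoImplicit false
set_option linter.unusedSectionVars false
set_option linter.unusedSimpArgs false
set_option linter.unusedVariables false

/-!
# Girth `4 l + 1` and `4 l + 2`: the main theorem
-/

namespace Pool.Agent.H17.GM

open Finset Pool.Agent.H38

/-- `e` is the greatest number of edges -/
def Mx (k n g e : ℕ) : Prop :=
  (∃ G : SimpleGraph (Fin n), ¬ HasDisjointCycles G k ∧ (g : ℕ∞) ≤ G.egirth ∧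
    G.edgeSet.ncard = e) ∧
  ∀ G : SimpleGraph (Fin n), ¬ HasDisjointCycles G k → (g : ℕ∞) ≤ G.egirth →
    G.edgeSet.ncard ≤ e

lemma exists_Mx {k n g : ℕ} (h : ∃ G : SimpleGraph (Fin n), ¬ HasDisjointCycles G k ∧
    (g : ℕ∞) ≤ G.egirth) : ∃ e, Mx k n g e := by
  classical
  obtain ⟨G, hG, hmax⟩ := Set.exists_max_image
    {G : SimpleGraph (Fin n) | ¬ HasDisjointCycles G k ∧ (g : ℕ∞) ≤ G.egirth}
    (fun G => G.edgeSet.ncard) (Set.toFinite _) h
  exact ⟨G.edgeSet.ncard, ⟨G, hG.1, hG.2, rfl⟩, fun G' h1 h2 => hmax G' ⟨h1, h2⟩⟩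

lemma phi_near {K l N σ : ℕ} (hK : 1 ≤ K) (hl : 1 ≤ l) (h : σ ≤ l) :
    phi K l (N + σ) ≤ phi K l N + 1 := by
  refine (phi_mono hK (show N + σ ≤ N + l by omega)).trans ?_
  unfold phi
  rw [Nat.add_div_right _ (by omega)]
  have h1 : (N / l + (K - 1)) / K ≤ (N / l + 1 + (K - 1)) / K := Nat.div_le_div_right (by omega)
  omega

lemma phi_eq_of_mod {K l N σ : ℕ} (hl : 1 ≤ l) (h : N % l + σ < l) :
    phi K l (N + σ) = phi K l N := by
  have h1 : (N + σ) / l = N / l := by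
    have h2 := Nat.div_add_mod N l
    have h3 : N + σ = l * (N / l) + (N % l + σ) := by omega
    rw [h3, Nat.mul_add_div (by omega), Nat.div_eq_of_lt h, add_zero]
  unfold phi
  rw [h1]

lemma phi_eq_of_dvd {K l N σ : ℕ} (hK : 1 ≤ K) (hl : 1 ≤ l) (h : σ ≤ l) (hd : K ∣ N / l) :
    phi K l (N + σ) = phi K l N := by
  apply le_antisymm
  · refine (phi_mono hK (show N + σ ≤ N + l by omega)).trans ?_
    unfold phi
    rw [Nat.add_div_right _ (by omega)]
    obtain ⟨q, hq⟩ := hd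
    rw [hq]
    have h1 : (K * q + (K - 1)) / K = q := by
      rw [Nat.mul_add_div (by omega), Nat.div_eq_of_lt (by omega), add_zero]
    have h2 : (K * q + 1 + (K - 1)) / K = q + 1 := by
      have : K * q + 1 + (K - 1) = K * (q + 1) := by
        rw [mul_add, mul_one]; omega
      rw [this, Nat.mul_div_cancel_left _ (by omega)]
    rw [h1, h2]
    omega
  · exact phi_mono hK (by omega)

theorem main (k l g : ℕ) (hk : 2 ≤ k) (hkl : 2 * (k - 1) * (k - 2) < l) (hkl' : k ≤ l)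
    (hg : g = 4 * l + 1 ∨ g = 4 * l + 2) : ∃ n0 : ℕ, ∀ n : ℕ, n0 ≤ n → ∃ e : ℕ,
    Mx k n g e ∧ Mx k (n + (2 * k - 1) * l) g (e + (2 * k - 1) * (l + 1) - 1) ∧
    (n - (2 * k - 1)) + phi (2 * k - 1) l (n - (2 * k - 1)) ≤ e ∧
    e ≤ (n - (2 * k - 1)) +
      phi (2 * k - 1) l (n - (2 * k - 1) + (2 * k - 1) * (k - 1) * (2 * k - 2)) := by
  classical
  have hl : 1 ≤ l := by omega
  have ha : 1 ≤ 2 * (k - 1) * l := Nat.mul_pos (by omega) (by omega)
  have hkl2 : l = 1 ∨ 2 * k - 2 ≤ l := by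
    right
    rcases Nat.lt_or_ge k 3 with h3 | h3
    · omega
    · have : 2 * (k - 1) * 1 ≤ 2 * (k - 1) * (k - 2) := Nat.mul_le_mul_left _ (by omega)
      omega
  obtain ⟨n1, hn1⟩ := upper k l (2 * (k - 1) * l) (8 * (k - 1) ^ 3 * l ^ 2) hk hl ha hkl2
  obtain ⟨n2, hn2⟩ := exists_TD k l (2 * (k - 1) * l) (8 * (k - 1) ^ 3 * l ^ 2) hk hl ha
  have hgg : 4 * l + 1 ≤ g ∧ g ≤ 4 * l + 2 := by omega
  have key : ∀ n, n1 + n2 + (2 * k - 1) ≤ n → ∃ (e : ℕ) (G : SimpleGraph (Fin n))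
      (S : Finset (Fin n)) (𝒯 : Finset (Finset (Fin n))), Mx k n g e ∧
      eI G univ = e ∧ ¬ Pack G univ k ∧
      (∀ U : Finset (Fin n), U.card < g → ¬ Pool.Agent.H38.Dense G U) ∧ TD G k l S 𝒯 ∧
      (n - (2 * k - 1)) + phi (2 * k - 1) l (n - (2 * k - 1)) ≤ e ∧
      e ≤ (n - (2 * k - 1)) +
        phi (2 * k - 1) l (n - (2 * k - 1) + (2 * k - 1) * (k - 1) * (2 * k - 2)) := by
    intro n hn
    obtain ⟨G0, h01, h02, h03⟩ := lower k l n hk hl (by omega)
    have hle : (g : ℕ∞) ≤ ((4 * l + 2 : ℕ) : ℕ∞) := by exact_mod_cast hgg.2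
    obtain ⟨e, he⟩ := exists_Mx ⟨G0, h01, hle.trans h02⟩
    have hlow := h03.trans (he.2 G0 h01 (hle.trans h02))
    obtain ⟨G, hG1, hG2, hG3⟩ := he.1
    have hP : ¬ Pack G univ k := by rw [pack_iff]; exact hG1
    have hU := (egirth_iff g).mp hG2
    have hU' : ∀ U : Finset (Fin n), U.card < 4 * l + 1 → ¬ Pool.Agent.H38.Dense G U :=
      fun U hc => hU U (by omega)
    have hEI : eI G univ = e := by rw [eI_univ_eq, hG3]
    have hcard : Fintype.card (Fin n) = n := Fintype.card_fin n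
    have htb := Pool.Agent.H45.GF.tb G hk hl hkl.le
    have hlb := Pool.Agent.H45.GF.lb G hk hl hkl
    have hup := hn1 (Fin n) G (by rw [hcard]; omega) hU' hP htb hlb
    rw [hcard, hEI] at hup
    have hcon : (Fintype.card (Fin n) - (2 * k - 1)) + (2 * k - 2) *
        ((Fintype.card (Fin n) - (2 * k - 1)) / ((2 * k - 1) * l)) ≤ eI G univ := by
      rw [hcard, hEI]
      have h2 := phi_ge (K := 2 * k - 1) (L := l) (j := n - (2 * k - 1)) (by omega) hl
      have e1 : 2 * k - 1 - 1 = 2 * k - 2 := by omega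
      rw [e1] at h2
      omega
    obtain ⟨S, 𝒯, htd⟩ := hn2 (Fin n) G (by rw [hcard]; omega) hU' hP htb hlb hcon
    exact ⟨e, G, S, 𝒯, he, hEI, hP, hU, htd, hlow, hup.2 hkl'⟩
  refine ⟨n1 + n2 + (2 * k - 1), fun n hn => ?_⟩
  obtain ⟨e, G, S, 𝒯, he, hEI, hP, hU, htd, hlow, hup⟩ := key n hn
  refine ⟨e, he, ⟨?_, ?_⟩, hlow, hup⟩
  · have hTc := htd.hT
    obtain ⟨T, hT⟩ := card_pos.mp (show 0 < 𝒯.card by omega)
    have hc : Fintype.card (Fin n ⊕ {v // v ∈ T}) = n + (2 * k - 1) * l := by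
      rw [Fintype.card_sum, Fintype.card_fin, Fintype.card_coe, htd.card T hT]
    obtain ⟨G', h1, h2, h3⟩ := transport (cp G T) (g := g) hc (htd.copy_pack hT)
      (htd.copy_girth hT hgg.2 hU)
    refine ⟨G', h1, h2, ?_⟩
    have h4 := htd.copy_eI hT
    rw [h3]
    have e1 : (2 * k - 1) * (l + 1) = (2 * k - 1) * l + (2 * k - 1) := by ring
    rw [e1]
    omega
  · obtain ⟨e', G', S', 𝒯', he', hEI', hP', hU', htd', hlow', hup'⟩ :=
      key (n + (2 * k - 1) * l) (by omega)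
    have hTc := htd'.hT
    obtain ⟨T, hT⟩ := card_pos.mp (show 0 < 𝒯'.card by omega)
    have hc : (univ \ T).card = n := by
      rw [card_sdiff_of_subset (subset_univ _), card_univ, Fintype.card_fin,
        htd'.card T hT]
      omega
    obtain ⟨G'', h1, h2, h3⟩ := transport_sub G' (univ \ T) hc hP' hU'
    have h4 := htd'.del_eI hT
    have h5 := he.2 G'' h1 h2
    intro H hH1 hH2
    have h6 := he'.2 H hH1 hH2
    have e1 : (2 * k - 1) * (l + 1) = (2 * k - 1) * l + (2 * k - 1) := by ring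
    rw [e1]
    omega

end Pool.Agent.H17.GM
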