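import Mathlib

set_option autoImplicit false
set_option linter.unusedSectionVars false
set_option linter.unusedSimpArgs false
set_option linter.unusedVariables false

/-!
# Finite tree metrics: private balls

`TreeDist T d`: the function `d` behaves on the finite set `T` like the distance of a tree.
-/

namespace Pool.Agent.H17.GM

open Finset

/-- `v` lies between `x` and `y` -/
def Bt {α : Type*} (d : α → α → ℕ) (x v y : α) : Prop := d x v + d v y = d x y

/-- tree metric on a finite set -/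
structure TreeDist {α : Type*} (T : Finset α) (d : α → α → ℕ) : Prop where
  self : ∀ x ∈ T, d x x = 0
  comm : ∀ x ∈ T, ∀ y ∈ T, d x y = d y x
  tri : ∀ x ∈ T, ∀ y ∈ T, ∀ z ∈ T, d x z ≤ d x y + d y z
  geo : ∀ x ∈ T, ∀ y ∈ T, ∀ h, h ≤ d x y → ∃ v ∈ T, d x v = h ∧ Bt d x v y
  uniq : ∀ x ∈ T, ∀ y ∈ T, ∀ v ∈ T, ∀ w ∈ T, Bt d x v y → Bt d x w y → d x v = d x w → v = w
  med : ∀ x ∈ T, ∀ y ∈ T, ∀ z ∈ T, ∃ m, ∀ v ∈ T, Bt d x v y → v ≠ m →
    (Bt d z v x ∧ ¬ Bt d z v y) ∨ (¬ Bt d z v x ∧ Bt d z v y)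

section
variable {α : Type*} [DecidableEq α] {T : Finset α} {d : α → α → ℕ}

/-- private ball -/
def U (T : Finset α) (d : α → α → ℕ) (l : ℕ) (y : α) : Finset α := T.filter (fun v => d y v < l)

open scoped Classical in
/-- the vertices of the private ball which are on some, but not on all, paths to other labels -/
noncomputable def Wt (T : Finset α) (d : α → α → ℕ) (Y : Finset α) (l : ℕ) (y : α) : Finset α :=
  T.filter (fun v => d y v < l ∧ (∃ z ∈ Y, z ≠ y ∧ Bt d y v z) ∧ ∃ z ∈ Y, z ≠ y ∧ ¬ Bt d y v z)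

open scoped Classical in
/-- uncovered vertices -/
noncomputable def unc (T : Finset α) (d : α → α → ℕ) (Y : Finset α) (l : ℕ) : Finset α :=
  T.filter (fun v => ∀ y ∈ Y, l ≤ d y v)

open scoped Classical in
/-- free vertices -/
noncomputable def Free (T : Finset α) (d : α → α → ℕ) (Y : Finset α) (l : ℕ) : Finset α :=
  T.filter (fun v => ∀ y ∈ Y, d y v < l → v ∈ Wt T d Y l y)

lemma mem_U {l : ℕ} {y v : α} : v ∈ U T d l y ↔ v ∈ T ∧ d y v < l := by
  unfold U; rw [mem_filter]

lemma mem_Wt {Y : Finset α} {l : ℕ} {y v : α} : v ∈ Wt T d Y l y ↔ v ∈ T ∧ d y v < l ∧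
    (∃ z ∈ Y, z ≠ y ∧ Bt d y v z) ∧ ∃ z ∈ Y, z ≠ y ∧ ¬ Bt d y v z := by
  classical
  unfold Wt; rw [mem_filter]

lemma mem_unc {Y : Finset α} {l : ℕ} {v : α} : v ∈ unc T d Y l ↔ v ∈ T ∧ ∀ y ∈ Y, l ≤ d y v := by
  classical
  unfold unc; rw [mem_filter]

lemma mem_Free {Y : Finset α} {l : ℕ} {v : α} : v ∈ Free T d Y l ↔ v ∈ T ∧
    ∀ y ∈ Y, d y v < l → v ∈ Wt T d Y l y := by
  classical
  unfold Free; rw [mem_filter]

lemma Wt_subset_U {Y : Finset α} {l : ℕ} {y : α} : Wt T d Y l y ⊆ U T d l y := by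
  intro v hv
  rw [mem_Wt] at hv
  rw [mem_U]
  exact ⟨hv.1, hv.2.1⟩

variable (hT : TreeDist T d)
include hT

lemma TreeDist.U_disj {Y : Finset α} (hY : Y ⊆ T) {l : ℕ}
    (h1 : ∀ y ∈ Y, ∀ z ∈ Y, y ≠ z → 2 * l ≤ d y z + 1) {y z : α} (hy : y ∈ Y) (hz : z ∈ Y)
    (hyz : y ≠ z) {v : α} (hv : v ∈ T) (hyv : d y v < l) (hzv : d z v < l) : False := by
  have h2 := hT.tri y (hY hy) v hv z (hY hz)
  have h3 := hT.comm v hv z (hY hz)
  have h4 := h1 y hy z hz hyz
  omega

/-- level by level count in a private ball -/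
lemma TreeDist.U_card {Y : Finset α} (hY : Y ⊆ T) {l : ℕ} (hl : 1 ≤ l)
    (h1 : ∀ y ∈ Y, ∀ z ∈ Y, y ≠ z → 2 * l ≤ d y z + 1) {y : α} (hy : y ∈ Y)
    (hex : ∃ z ∈ Y, z ≠ y) :
    2 * l + (Wt T d Y l y).card ≤ 2 * (U T d l y).card := by
  classical
  have hyT := hY hy
  have e1 : (Wt T d Y l y).card = ∑ h ∈ range l, ((Wt T d Y l y).filter (fun v => d y v = h)).card := by
    apply card_eq_sum_card_fiberwise
    intro v hv
    have := (mem_Wt.mp hv).2.1
    simpa using this
  have e2 : (U T d l y).card = ∑ h ∈ range l, ((U T d l y).filter (fun v => d y v = h)).card := by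
    apply card_eq_sum_card_fiberwise
    intro v hv
    have := (mem_U.mp hv).2
    simpa using this
  have key : ∀ h ∈ range l, 2 + ((Wt T d Y l y).filter (fun v => d y v = h)).card ≤
      2 * ((U T d l y).filter (fun v => d y v = h)).card := by
    intro h hh
    rw [mem_range] at hh
    obtain ⟨z, hz, hzy⟩ := hex
    have hzT := hY hz
    have hdz := h1 y hy z hz (Ne.symm hzy)
    obtain ⟨v, hvT, hvh, hvb⟩ := hT.geo y hyT z hzT h (by omega)
    have hvU : v ∈ (U T d l y).filter (fun v => d y v = h) := by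
      rw [mem_filter, mem_U]
      exact ⟨⟨hvT, by omega⟩, hvh⟩
    have hsub : (Wt T d Y l y).filter (fun v => d y v = h) ⊆
        (U T d l y).filter (fun v => d y v = h) := filter_subset_filter _ Wt_subset_U
    have hc := card_le_card hsub
    have hpos : 0 < ((U T d l y).filter (fun v => d y v = h)).card := card_pos.mpr ⟨v, hvU⟩
    by_cases hW : ((Wt T d Y l y).filter (fun v => d y v = h)) = ∅
    · rw [hW, card_empty]; omega
    · -- at least two vertices
      obtain ⟨w, hw⟩ := nonempty_iff_ne_empty.mpr hW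
      have hwU := hsub hw
      rw [mem_filter, mem_Wt] at hw
      obtain ⟨⟨hwT, hwl, ⟨z1, hz1, hz1y, hb1⟩, ⟨z2, hz2, hz2y, hb2⟩⟩, hwh⟩ := hw
      have hdz2 := h1 y hy z2 hz2 (Ne.symm hz2y)
      obtain ⟨w', hw'T, hw'h, hw'b⟩ := hT.geo y hyT z2 (hY hz2) h (by omega)
      have hne : w ≠ w' := by
        rintro rfl
        exact hb2 hw'b
      have hw'U : w' ∈ (U T d l y).filter (fun v => d y v = h) := by
        rw [mem_filter, mem_U]
        exact ⟨⟨hw'T, by omega⟩, hw'h⟩
      have h2 : ({w, w'} : Finset α).card ≤ ((U T d l y).filter (fun v => d y v = h)).card := by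
        apply card_le_card
        intro t ht
        rw [mem_insert, mem_singleton] at ht
        rcases ht with rfl | rfl
        · exact hwU
        · exact hw'U
      rw [card_pair hne] at h2
      omega
  rw [e1, e2, mul_sum]
  calc 2 * l + ∑ h ∈ range l, ((Wt T d Y l y).filter (fun v => d y v = h)).card
      = ∑ h ∈ range l, (2 + ((Wt T d Y l y).filter (fun v => d y v = h)).card) := by
        rw [sum_add_distrib, sum_const, card_range, smul_eq_mul]; ring
    _ ≤ _ := sum_le_sum key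

lemma TreeDist.main_card {Y : Finset α} (hY : Y ⊆ T) {l : ℕ} (hl : 1 ≤ l)
    (h1 : ∀ y ∈ Y, ∀ z ∈ Y, y ≠ z → 2 * l ≤ d y z + 1) (hex : 2 ≤ Y.card) :
    2 * l * Y.card + (Free T d Y l).card + (unc T d Y l).card ≤ 2 * T.card := by
  classical
  have hUsum : (Y.biUnion (U T d l)).card = ∑ y ∈ Y, (U T d l y).card := by
    apply card_biUnion
    intro y hy z hz hyz
    rw [Function.onFun, disjoint_left]
    intro v hv hv'
    rw [mem_U] at hv hv'
    exact hT.U_disj hY h1 hy hz hyz hv.1 hv.2 hv'.2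
  have hWsum : (Y.biUnion (Wt T d Y l)).card = ∑ y ∈ Y, (Wt T d Y l y).card := by
    apply card_biUnion
    intro y hy z hz hyz
    rw [Function.onFun, disjoint_left]
    intro v hv hv'
    rw [mem_Wt] at hv hv'
    exact hT.U_disj hY h1 hy hz hyz hv.1 hv.2.1 hv'.2.1
  have hTc : T.card = (unc T d Y l).card + (Y.biUnion (U T d l)).card := by
    rw [← card_union_of_disjoint]
    · congr 1
      ext v
      rw [mem_union, mem_unc, mem_biUnion]
      constructor
      · intro hv
        by_cases h : ∀ y ∈ Y, l ≤ d y v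
        · exact Or.inl ⟨hv, h⟩
        · push Not at h
          obtain ⟨y, hy, hyv⟩ := h
          exact Or.inr ⟨y, hy, mem_U.mpr ⟨hv, hyv⟩⟩
      · rintro (h | ⟨y, hy, h⟩)
        · exact h.1
        · exact (mem_U.mp h).1
    · rw [disjoint_left]
      intro v hv hv'
      rw [mem_unc] at hv
      rw [mem_biUnion] at hv'
      obtain ⟨y, hy, hyv⟩ := hv'
      have := hv.2 y hy
      have := (mem_U.mp hyv).2
      omega
  have hFc : (Free T d Y l).card ≤ (unc T d Y l).card + (Y.biUnion (Wt T d Y l)).card := by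
    rw [← card_union_of_disjoint]
    · apply card_le_card
      intro v hv
      rw [mem_Free] at hv
      rw [mem_union, mem_unc, mem_biUnion]
      by_cases h : ∀ y ∈ Y, l ≤ d y v
      · exact Or.inl ⟨hv.1, h⟩
      · push Not at h
        obtain ⟨y, hy, hyv⟩ := h
        exact Or.inr ⟨y, hy, hv.2 y hy hyv⟩
    · rw [disjoint_left]
      intro v hv hv'
      rw [mem_unc] at hv
      rw [mem_biUnion] at hv'
      obtain ⟨y, hy, hyv⟩ := hv'
      have := hv.2 y hy
      have := (mem_Wt.mp hyv).2.1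
      omega
  have hsum : ∑ y ∈ Y, (2 * l + (Wt T d Y l y).card) ≤ ∑ y ∈ Y, 2 * (U T d l y).card := by
    apply sum_le_sum
    intro y hy
    apply hT.U_card hY hl h1 hy
    obtain ⟨a, ha, b, hb, hab⟩ := one_lt_card.mp (show 1 < Y.card by omega)
    by_cases h : a = y
    · exact ⟨b, hb, fun h' => hab (h.trans h'.symm)⟩
    · exact ⟨a, ha, h⟩
  rw [sum_add_distrib, sum_const, smul_eq_mul, ← mul_sum] at hsum
  rw [← hUsum, ← hWsum] at hsum
  have h5 : Y.card * (2 * l) = 2 * l * Y.card := by ring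
  omega

lemma TreeDist.card_ge {Y : Finset α} (hY : Y ⊆ T) {l : ℕ} (hl : 1 ≤ l)
    (h1 : ∀ y ∈ Y, ∀ z ∈ Y, y ≠ z → 2 * l ≤ d y z + 1) (hex : 2 ≤ Y.card) :
    l * Y.card ≤ T.card := by
  have := hT.main_card hY hl h1 hex
  have h2 : 2 * l * Y.card = 2 * (l * Y.card) := by ring
  omega

end

end Pool.Agent.H17.GM
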