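import Pool.Agent.H17.GM.TM

set_option autoImplicit false
set_option linter.unusedSectionVars false
set_option linter.unusedSimpArgs false
set_option linter.unusedVariables false

/-!
# Finite tree metrics: paths between two labels
-/

namespace Pool.Agent.H17.GM

open Finset

section
variable {α : Type*} [DecidableEq α] {T : Finset α} {d : α → α → ℕ}

open scoped Classical in
/-- middle part of the path from `y` to `y'` -/
noncomputable def Pp (T : Finset α) (d : α → α → ℕ) (l : ℕ) (y y' : α) : Finset α :=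
  T.filter (fun v => Bt d y v y' ∧ l ≤ d y v ∧ d y v < 2 * l)

lemma mem_Pp {l : ℕ} {y y' v : α} : v ∈ Pp T d l y y' ↔ v ∈ T ∧ Bt d y v y' ∧ l ≤ d y v ∧
    d y v < 2 * l := by
  classical
  unfold Pp; rw [mem_filter]

open scoped Classical in
/-- the labels different from `y`, `y'` whose private balls meet `Q` -/
noncomputable def Zs (d : α → α → ℕ) (Y : Finset α) (l : ℕ) (y y' : α) (Q : Finset α) :
    Finset α :=
  Y.filter (fun z => z ≠ y ∧ z ≠ y' ∧ ∃ v ∈ Q, d z v < l)

lemma mem_Zs {Y Q : Finset α} {l : ℕ} {y y' z : α} : z ∈ Zs d Y l y y' Q ↔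
    z ∈ Y ∧ z ≠ y ∧ z ≠ y' ∧ ∃ v ∈ Q, d z v < l := by
  classical
  unfold Zs; rw [mem_filter]

variable (hT : TreeDist T d)
include hT

lemma TreeDist.Pp_card {l : ℕ} {y y' : α} (hy : y ∈ T) (hy' : y' ∈ T) (h : 2 * l ≤ d y y' + 1) :
    l ≤ (Pp T d l y y').card := by
  classical
  have hex : ∀ h' ∈ Ico l (2 * l), ∃ v ∈ T, d y v = h' ∧ Bt d y v y' := by
    intro h' hh'
    rw [mem_Ico] at hh'
    exact hT.geo y hy y' hy' h' (by omega)
  have : Nonempty α := ⟨y⟩
  choose! f hf using hex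
  have h1 : (Ico l (2 * l)).card ≤ (Pp T d l y y').card := by
    apply card_le_card_of_injOn f
    · intro h' hh'
      have hh := hf h' hh'
      rw [mem_coe, mem_Ico] at hh'
      rw [mem_coe, mem_Pp]
      exact ⟨hh.1, hh.2.2, by omega, by omega⟩
    · intro a ha b hb hab
      have h3 := (hf a ha).2.1
      have h4 := (hf b hb).2.1
      rw [← h3, ← h4, hab]
  rw [Nat.card_Ico] at h1
  omega

/-- on the path from `y` to `y'` outside the private balls of `y` and `y'` at most one vertex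
of each other private ball is not free -/
lemma TreeDist.nonfree_le {Y : Finset α} (hY : Y ⊆ T) {l : ℕ} {y y' : α} (hy : y ∈ Y)
    (hy' : y' ∈ Y) (Q : Finset α) (hQ : Q ⊆ T) (hQb : ∀ v ∈ Q, Bt d y v y')
    (hQ1 : ∀ v ∈ Q, l ≤ d y v) (hQ2 : ∀ v ∈ Q, l ≤ d y' v) :
    (Q \ Free T d Y l).card ≤ (Zs d Y l y y' Q).card := by
  classical
  have hex : ∀ v ∈ Q \ Free T d Y l, ∃ z ∈ Y, d z v < l ∧ v ∉ Wt T d Y l z := by
    intro v hv
    rw [mem_sdiff, mem_Free] at hv
    by_contra hcon
    push Not at hcon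
    exact hv.2 ⟨hQ hv.1, fun z hz hzv => hcon z hz hzv⟩
  choose! f hf using hex
  have hfne : ∀ v ∈ Q \ Free T d Y l, f v ≠ y ∧ f v ≠ y' := by
    intro v hv
    have h1 := (hf v hv).2.1
    rw [mem_sdiff] at hv
    constructor
    · intro h; rw [h] at h1
      have := hQ1 v hv.1
      omega
    · intro h; rw [h] at h1
      have := hQ2 v hv.1
      omega
  apply card_le_card_of_injOn f
  · intro v hv
    rw [mem_coe, mem_Zs]
    exact ⟨(hf v hv).1, (hfne v hv).1, (hfne v hv).2, v, (mem_sdiff.mp hv).1, (hf v hv).2.1⟩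
  · intro v hv w hw hvw
    obtain ⟨hz, hzv, hvW⟩ := hf v hv
    obtain ⟨hz', hzw, hwW⟩ := hf w hw
    have hne := hfne v hv
    rw [← hvw] at hzw hwW
    have hvQ := (mem_sdiff.mp hv).1
    have hwQ := (mem_sdiff.mp hw).1
    obtain ⟨m, hm⟩ := hT.med y (hY hy) y' (hY hy') (f v) (hY hz)
    have key : ∀ u ∈ Q, d (f v) u < l → u ∉ Wt T d Y l (f v) → u = m := by
      intro u hu hul huW
      by_contra hum
      apply huW
      rw [mem_Wt]
      refine ⟨hQ hu, hul, ?_⟩
      rcases hm u (hQ hu) (hQb u hu) hum with h | h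
      · exact ⟨⟨y, hy, hne.1.symm, h.1⟩, ⟨y', hy', hne.2.symm, h.2⟩⟩
      · exact ⟨⟨y', hy', hne.2.symm, h.2⟩, ⟨y, hy, hne.1.symm, h.1⟩⟩
    rw [key v hvQ hzv hvW, key w hwQ hzw hwW]

/-- distance between two labels in a tight tree -/
lemma TreeDist.tight_dist {Y : Finset α} (hY : Y ⊆ T) {l : ℕ} (hl : 1 ≤ l)
    (h1 : ∀ y ∈ Y, ∀ z ∈ Y, y ≠ z → 2 * l ≤ d y z + 1) (ht : T.card = l * Y.card)
    {y y' : α} (hy : y ∈ Y) (hy' : y' ∈ Y) (hne : y ≠ y') :
    d y y' + 3 ≤ 2 * l + Y.card := by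
  classical
  have hc2 : 2 ≤ Y.card := by
    have : ({y, y'} : Finset α) ⊆ Y := by
      intro z hz
      rw [mem_insert, mem_singleton] at hz
      rcases hz with rfl | rfl <;> assumption
    have := card_le_card this
    rwa [card_pair hne] at this
  have hmain := hT.main_card hY hl h1 hc2
  have hF : Free T d Y l = ∅ := by
    rw [← card_eq_zero]
    have : 2 * l * Y.card = 2 * T.card := by rw [ht]; ring
    omega
  set Q := T.filter (fun v => Bt d y v y' ∧ l ≤ d y v ∧ l ≤ d y' v) with hQdef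
  have hQ : ∀ v, v ∈ Q ↔ v ∈ T ∧ Bt d y v y' ∧ l ≤ d y v ∧ l ≤ d y' v := by
    intro v; rw [hQdef, mem_filter]
  have hnf := hT.nonfree_le hY hy hy' Q (fun v hv => ((hQ v).mp hv).1)
    (fun v hv => ((hQ v).mp hv).2.1) (fun v hv => ((hQ v).mp hv).2.2.1)
    (fun v hv => ((hQ v).mp hv).2.2.2)
  rw [hF, sdiff_empty] at hnf
  have hZ : (Zs d Y l y y' Q).card ≤ Y.card - 2 := by
    have hsub : Zs d Y l y y' Q ⊆ (Y.erase y).erase y' := by
      intro z hz
      rw [mem_Zs] at hz
      rw [mem_erase, mem_erase]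
      exact ⟨hz.2.2.1, hz.2.1, hz.1⟩
    have := card_le_card hsub
    rw [card_erase_of_mem (mem_erase.mpr ⟨hne.symm, hy'⟩), card_erase_of_mem hy] at this
    omega
  -- the vertices at distance l, ..., d - l from y
  have hyT := hY hy
  have hy'T := hY hy'
  have hex : ∀ h' ∈ Ico l (d y y' + 1 - l), ∃ v ∈ T, d y v = h' ∧ Bt d y v y' := by
    intro h' hh'
    rw [mem_Ico] at hh'
    exact hT.geo y hyT y' hy'T h' (by omega)
  have : Nonempty α := ⟨y⟩
  choose! f hf using hex
  have h3 : (Ico l (d y y' + 1 - l)).card ≤ Q.card := by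
    apply card_le_card_of_injOn f
    · intro h' hh'
      obtain ⟨f1, f2, f3⟩ := hf h' hh'
      rw [mem_coe, mem_Ico] at hh'
      rw [mem_coe, hQ]
      refine ⟨f1, f3, by omega, ?_⟩
      have h4 := hT.comm (f h') f1 y' hy'T
      unfold Bt at f3
      omega
    · intro a ha b hb hab
      have h4 := (hf a ha).2.1
      have h5 := (hf b hb).2.1
      rw [← h4, ← h5, hab]
  rw [Nat.card_Ico] at h3
  omega

omit hT in
/-- overlapping private paths: Bonferroni -/
lemma card_biUnion_ge {ι β : Type*} [DecidableEq ι] [DecidableEq β] (Y : Finset ι)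
    (R : ι → Finset β) :
    2 * ∑ y ∈ Y, (R y).card ≤ 2 * (Y.biUnion R).card +
      ∑ e ∈ Y.offDiag, (R e.1 ∩ R e.2).card := by
  classical
  induction Y using Finset.induction_on with
  | empty => simp
  | insert a s ha ih =>
    rw [sum_insert ha, biUnion_insert, offDiag_insert ha]
    have h1 := card_union_add_card_inter (R a) (s.biUnion R)
    have h2 : (R a ∩ s.biUnion R).card ≤ ∑ y ∈ s, (R y ∩ R a).card := by
      rw [inter_comm, biUnion_inter]
      exact card_biUnion_le
    have h4 : Disjoint (s.offDiag ∪ {a} ×ˢ s) (s ×ˢ {a}) := by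
      rw [disjoint_left]
      rintro ⟨u, v⟩ h5 h6
      simp only [mem_union, mem_offDiag, mem_product, mem_singleton] at h5 h6
      rcases h5 with h5 | h5
      · exact ha (h6.2 ▸ h5.2.1)
      · exact ha (h5.1 ▸ h6.1)
    have h5 : Disjoint s.offDiag ({a} ×ˢ s) := by
      rw [disjoint_left]
      rintro ⟨u, v⟩ h5 h6
      simp only [mem_offDiag, mem_product, mem_singleton] at h5 h6
      exact ha (h6.1 ▸ h5.1)
    rw [sum_union h4, sum_union h5, sum_product, sum_product, sum_singleton]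
    simp only [sum_singleton]
    have h6 : ∑ y ∈ s, (R a ∩ R y).card = ∑ y ∈ s, (R y ∩ R a).card :=
      sum_congr rfl (fun y _ => by rw [inter_comm])
    rw [h6]
    omega

end

end Pool.Agent.H17.GM
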