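import Pool.Agent.H17.GM.TM2

set_option autoImplicit false
set_option linter.unusedSectionVars false
set_option linter.unusedSimpArgs false
set_option linter.unusedVariables false

/-!
# Finite tree metrics: the inequalities
-/

namespace Pool.Agent.H17.GM

open Finset

section
variable {α : Type*} [DecidableEq α] {T : Finset α} {d : α → α → ℕ}
variable (hT : TreeDist T d)
include hT

/-- two vertices of a path: the nearer one is between the end and the other one -/
lemma TreeDist.bt_of_le {y y' v w : α} (hy : y ∈ T) (hy' : y' ∈ T) (hv : v ∈ T) (hw : w ∈ T)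
    (hbv : Bt d y v y') (hbw : Bt d y w y') (hle : d y v ≤ d y w) : Bt d y v w := by
  obtain ⟨v', hv', h1, h2⟩ := hT.geo y hy w hw (d y v) hle
  have h3 : Bt d y v' y' := by
    have t1 := hT.tri v' hv' w hw y' hy'
    have t2 := hT.tri y hy v' hv' y' hy'
    unfold Bt at *
    omega
  have := hT.uniq y hy y' hy' v' hv' v hv h3 hbv h1
  rw [← this]
  exact h2

lemma TreeDist.names {ι : Type*} [DecidableEq ι] {Y : Finset α} (hY : Y ⊆ T) {l : ℕ} (hl : 1 ≤ l)
    (nm : α → ι) (h2 : ∀ y ∈ Y, ∀ z ∈ Y, y ≠ z → nm y = nm z → 4 * l ≤ d y z + 1)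
    {y y' : α} (hy : y ∈ Y) (hy' : y' ∈ Y) :
    (Zs d Y l y y' (Pp T d l y y')).card + 1 ≤ (Y.image nm).card := by
  classical
  have h3 : (Zs d Y l y y' (Pp T d l y y')).card ≤ ((Y.image nm).erase (nm y)).card := by
    apply card_le_card_of_injOn nm
    · intro z hz
      rw [mem_coe, mem_Zs] at hz
      rw [mem_coe, mem_erase, mem_image]
      obtain ⟨hz1, hz2, hz3, v, hv, hzv⟩ := hz
      refine ⟨?_, z, hz1, rfl⟩
      intro h
      rw [mem_Pp] at hv
      have h4 := h2 z hz1 y hy hz2 h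
      have h5 := hT.tri z (hY hz1) v hv.1 y (hY hy)
      have h6 := hT.comm v hv.1 y (hY hy)
      omega
    · intro z hz z' hz' hzz
      rw [mem_coe, mem_Zs] at hz hz'
      by_contra hne
      obtain ⟨hz1, hz2, hz3, v, hv, hzv⟩ := hz
      obtain ⟨hz1', hz2', hz3', w, hw, hzw⟩ := hz'
      have h4 := h2 z hz1 z' hz1' hne hzz
      rw [mem_Pp] at hv hw
      have h5 := hT.tri z (hY hz1) v hv.1 z' (hY hz1')
      have h6 := hT.tri v hv.1 w hw.1 z' (hY hz1')
      have h7 := hT.comm w hw.1 z' (hY hz1')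
      have h8 : d v w < l := by
        rcases le_total (d y v) (d y w) with h | h
        · have := hT.bt_of_le (hY hy) (hY hy') hv.1 hw.1 hv.2.1 hw.2.1 h
          unfold Bt at this
          omega
        · have := hT.bt_of_le (hY hy) (hY hy') hw.1 hv.1 hw.2.1 hv.2.1 h
          unfold Bt at this
          have h9 := hT.comm v hv.1 w hw.1
          omega
      omega
  have h4 : nm y ∈ Y.image nm := mem_image_of_mem nm hy
  have h5 := card_pos.mpr ⟨nm y, h4⟩
  rw [card_erase_of_mem h4] at h3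
  omega

/-- inequality for one class of equal labels -/
lemma TreeDist.class_main {ι : Type*} [DecidableEq ι] {Y : Finset α} (hY : Y ⊆ T) {l : ℕ}
    (hl : 1 ≤ l) (nm : α → ι)
    (h1 : ∀ y ∈ Y, ∀ z ∈ Y, y ≠ z → 2 * l ≤ d y z + 1)
    (h2 : ∀ y ∈ Y, ∀ z ∈ Y, y ≠ z → nm y = nm z → 4 * l ≤ d y z + 1)
    (c : ι) (π : α → α) (hπ : ∀ y ∈ Y, nm y = c → π y ∈ Y ∧ π y ≠ y ∧ nm (π y) = nm y)
    (hex : 2 ≤ Y.card) :
    2 * l * Y.card + ∑ y ∈ Y.filter (fun y => nm y = c), ((Wt T d Y l y).card +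
      (Pp T d l y (π y) ∩ unc T d Y l).card + l) ≤
      2 * T.card + ((Y.image nm).card - 1) * (Y.filter (fun y => nm y = c)).card := by
  classical
  have hmain := hT.main_card hY hl h1 hex
  set Yc := Y.filter (fun y => nm y = c) with hYc
  have hYcm : ∀ y, y ∈ Yc ↔ y ∈ Y ∧ nm y = c := by intro y; rw [hYc, mem_filter]
  -- disjointness
  have hdis : ∀ y ∈ Yc, ∀ z ∈ Yc, y ≠ z → ∀ v ∈ T, d y v < 2 * l → d z v < 2 * l → False := by
    intro y hy z hz hyz v hv hyv hzv
    rw [hYcm] at hy hz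
    have h3 := h2 y hy.1 z hz.1 hyz (hy.2.trans hz.2.symm)
    have h4 := hT.tri y (hY hy.1) v hv z (hY hz.1)
    have h5 := hT.comm v hv z (hY hz.1)
    omega
  have hF : ∑ y ∈ Yc, ((Wt T d Y l y).card + (Pp T d l y (π y) ∩ Free T d Y l).card) ≤
      (Free T d Y l).card := by
    have e : ∀ y ∈ Yc, (Wt T d Y l y).card + (Pp T d l y (π y) ∩ Free T d Y l).card =
        (Wt T d Y l y ∪ (Pp T d l y (π y) ∩ Free T d Y l)).card := by
      intro y hy
      rw [card_union_of_disjoint]
      rw [disjoint_left]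
      intro v hv hv'
      rw [mem_inter, mem_Pp] at hv'
      have := (mem_Wt.mp hv).2.1
      omega
    rw [sum_congr rfl e, ← card_biUnion]
    · apply card_le_card
      rw [biUnion_subset]
      intro y hy
      apply union_subset
      · intro v hv
        have hv0 := hv
        rw [mem_Wt] at hv
        rw [mem_Free]
        refine ⟨hv.1, ?_⟩
        intro z hz hzv
        by_cases hyz : y = z
        · rw [← hyz]; exact hv0
        · exact absurd (hT.U_disj hY h1 ((hYcm y).mp hy).1 hz hyz hv.1 hv.2.1 hzv) (by simp)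
      · exact inter_subset_right
    · intro y hy z hz hyz
      rw [Function.onFun, disjoint_left]
      intro v hv hv'
      have key : ∀ y, v ∈ Wt T d Y l y ∪ (Pp T d l y (π y) ∩ Free T d Y l) →
          v ∈ T ∧ d y v < 2 * l := by
        intro y hv
        rw [mem_union, mem_Wt, mem_inter, mem_Pp] at hv
        rcases hv with hv | hv
        · exact ⟨hv.1, by omega⟩
        · exact ⟨hv.1.1, by omega⟩
      exact hdis y hy z hz hyz v (key y hv).1 (key y hv).2 (key z hv').2
  have hU : ∑ y ∈ Yc, (Pp T d l y (π y) ∩ unc T d Y l).card ≤ (unc T d Y l).card := by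
    rw [← card_biUnion]
    · apply card_le_card
      rw [biUnion_subset]
      intro y hy
      exact inter_subset_right
    · intro y hy z hz hyz
      rw [Function.onFun, disjoint_left]
      intro v hv hv'
      rw [mem_inter, mem_Pp] at hv hv'
      exact hdis y hy z hz hyz v hv.1.1 (by omega) (by omega)
  have hP : ∀ y ∈ Yc, l ≤ (Pp T d l y (π y) ∩ Free T d Y l).card + ((Y.image nm).card - 1) := by
    intro y hy
    rw [hYcm] at hy
    obtain ⟨p1, p2, p3⟩ := hπ y hy.1 hy.2
    have h3 := h2 y hy.1 (π y) p1 (Ne.symm p2) p3.symm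
    have h4 := hT.Pp_card (hY hy.1) (hY p1) (l := l) (by omega)
    have h5 := hT.nonfree_le hY hy.1 p1 (l := l) (Pp T d l y (π y))
      (fun v hv => (mem_Pp.mp hv).1) (fun v hv => (mem_Pp.mp hv).2.1)
      (fun v hv => (mem_Pp.mp hv).2.2.1)
      (by
        intro v hv
        rw [mem_Pp] at hv
        have h6 := hT.comm v hv.1 (π y) (hY p1)
        have h7 := hv.2.1
        unfold Bt at h7
        omega)
    have h6 := hT.names hY hl nm h2 hy.1 p1
    have h7 := card_sdiff_add_card_inter (Pp T d l y (π y)) (Free T d Y l)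
    omega
  have hsum : ∑ y ∈ Yc, l ≤ ∑ y ∈ Yc, ((Pp T d l y (π y) ∩ Free T d Y l).card +
      ((Y.image nm).card - 1)) := sum_le_sum hP
  rw [sum_add_distrib, sum_const, sum_const, smul_eq_mul, smul_eq_mul] at hsum
  rw [sum_add_distrib] at hF
  rw [sum_add_distrib, sum_add_distrib, sum_const, smul_eq_mul]
  have h8 : Yc.card * ((Y.image nm).card - 1) = ((Y.image nm).card - 1) * Yc.card := mul_comm _ _
  omega

/-- bound when one class has at least two labels -/
lemma TreeDist.class_bound {ι : Type*} [DecidableEq ι] {Y : Finset α} (hY : Y ⊆ T) {l : ℕ}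
    (hl : 1 ≤ l) (nm : α → ι)
    (h1 : ∀ y ∈ Y, ∀ z ∈ Y, y ≠ z → 2 * l ≤ d y z + 1)
    (h2 : ∀ y ∈ Y, ∀ z ∈ Y, y ≠ z → nm y = nm z → 4 * l ≤ d y z + 1)
    (c : ι) (hc : 2 ≤ (Y.filter (fun y => nm y = c)).card) :
    2 * l * Y.card + l * (Y.filter (fun y => nm y = c)).card ≤
      2 * T.card + ((Y.image nm).card - 1) * (Y.filter (fun y => nm y = c)).card := by
  classical
  have hex : ∀ y, ∃ z, y ∈ Y → nm y = c → z ∈ Y ∧ z ≠ y ∧ nm z = nm y := by
    intro y
    obtain ⟨a, ha, b, hb, hab⟩ := one_lt_card.mp (show 1 < _ by exact hc)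
    rw [mem_filter] at ha hb
    by_cases h : a = y
    · exact ⟨b, fun _ h' => ⟨hb.1, fun h'' => hab (h.trans h''.symm), hb.2.trans h'.symm⟩⟩
    · exact ⟨a, fun _ h' => ⟨ha.1, h, ha.2.trans h'.symm⟩⟩
  choose π hπ using hex
  have h3 := hT.class_main hY hl nm h1 h2 c π (fun y hy hyc => hπ y hy hyc)
    (hc.trans (card_le_card (filter_subset _ _)))
  rw [sum_add_distrib, sum_const, smul_eq_mul] at h3
  have h4 : (Y.filter (fun y => nm y = c)).card * l = l * (Y.filter (fun y => nm y = c)).card :=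
    mul_comm _ _
  omega

omit hT in
/-- arithmetic -/
lemma rep_arith (l q ρ s t D1 D2 : ℕ) (hρ : 1 ≤ ρ) (hρq : ρ ≤ q) (hl : q * q ≤ l)
    (I : 2 * l * ρ * s + (D1 + D2 + l * s) ≤ 2 * ρ * t + (ρ - 1) * s)
    (II : l * s ≤ D1 + (ρ - 1) * s + ρ * D2) :
    (q * (2 * q + 1) * l + 1) * s ≤ 2 * (q * q) * t := by
  obtain ⟨r, rfl⟩ : ∃ r, ρ = r + 1 := ⟨ρ - 1, by omega⟩
  simp only [Nat.add_sub_cancel] at I II
  have h1 : ((r + 1) * (2 * (r + 1) + 1) * l + 1) * s ≤ 2 * ((r + 1) * (r + 1)) * t := by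
    have h2 : (r + 1) * (r + 1) * s ≤ l * s :=
      Nat.mul_le_mul_right _ (le_trans (Nat.mul_le_mul hρq hρq) hl)
    have h3 := Nat.mul_le_mul_left (r + 1) I
    nlinarith [h2, h3, II, Nat.zero_le (r * D1)]
  have h4 : (r + 1) * (r + 1) * ((q * (2 * q + 1) * l + 1) * s) ≤
      q * q * (((r + 1) * (2 * (r + 1) + 1) * l + 1) * s) := by
    have h5 : (r + 1) * (r + 1) ≤ q * q := Nat.mul_le_mul hρq hρq
    have h6 : (r + 1) * ((r + 1) * q) ≤ q * ((r + 1) * q) := Nat.mul_le_mul_right _ hρq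
    have h7 := Nat.mul_le_mul_right (l * s) h6
    have h8 := Nat.mul_le_mul_right s h5
    nlinarith [h7, h8]
  have h5 := Nat.mul_le_mul_left (q * q) h1
  have h6 : (r + 1) * (r + 1) * ((q * (2 * q + 1) * l + 1) * s) ≤
      (r + 1) * (r + 1) * (2 * (q * q) * t) := by
    calc _ ≤ _ := h4
      _ ≤ q * q * (2 * ((r + 1) * (r + 1)) * t) := h5
      _ = _ := by ring
  exact Nat.le_of_mul_le_mul_left h6 (by positivity)

/-- the linear bound: all names are repeated, at most `q` names -/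
theorem TreeDist.rep_bound {ι : Type*} [DecidableEq ι] {Y : Finset α} (hY : Y ⊆ T) {l : ℕ}
    (hl : 1 ≤ l) (nm : α → ι)
    (h1 : ∀ y ∈ Y, ∀ z ∈ Y, y ≠ z → 2 * l ≤ d y z + 1)
    (h2 : ∀ y ∈ Y, ∀ z ∈ Y, y ≠ z → nm y = nm z → 4 * l ≤ d y z + 1)
    (hrep : ∀ y ∈ Y, ∃ z ∈ Y, z ≠ y ∧ nm z = nm y) {q : ℕ} (hq : (Y.image nm).card ≤ q)
    (hlq : q * q ≤ l) :
    (q * (2 * q + 1) * l + 1) * Y.card ≤ 2 * (q * q) * T.card := by
  classical
  by_cases hne : Y.Nonempty
  swap
  · rw [not_nonempty_iff_eq_empty] at hne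
    rw [hne, card_empty, mul_zero]; exact Nat.zero_le _
  have hex : ∀ y, ∃ z, y ∈ Y → z ∈ Y ∧ z ≠ y ∧ nm z = nm y := by
    intro y
    by_cases hy : y ∈ Y
    · obtain ⟨z, hz⟩ := hrep y hy
      exact ⟨z, fun _ => hz⟩
    · exact ⟨y, fun h => absurd h hy⟩
  choose π hπ using hex
  have hc2 : 2 ≤ Y.card := by
    obtain ⟨y, hy⟩ := hne
    obtain ⟨z, hz, hzy, _⟩ := hrep y hy
    have : ({y, z} : Finset α) ⊆ Y := by
      intro t ht
      rw [mem_insert, mem_singleton] at ht
      rcases ht with rfl | rfl <;> assumption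
    have := card_le_card this
    rwa [card_pair hzy.symm] at this
  set ρ := (Y.image nm).card with hρ
  have hρ1 : 1 ≤ ρ := card_pos.mpr (hne.image nm)
  have hfib : ∀ f : α → ℕ, ∑ c ∈ Y.image nm, ∑ y ∈ Y.filter (fun y => nm y = c), f y =
      ∑ y ∈ Y, f y := by
    intro f
    exact sum_fiberwise_of_maps_to (fun y hy => mem_image_of_mem nm hy) f
  have hclass : ∀ c ∈ Y.image nm, 2 * l * Y.card + ∑ y ∈ Y.filter (fun y => nm y = c),
      ((Wt T d Y l y).card + (Pp T d l y (π y) ∩ unc T d Y l).card + l) ≤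
      2 * T.card + (ρ - 1) * (Y.filter (fun y => nm y = c)).card :=
    fun c _ => hT.class_main hY hl nm h1 h2 c π (fun y hy _ => hπ y hy) hc2
  have I := sum_le_sum hclass
  rw [sum_add_distrib, sum_add_distrib, hfib, sum_const, sum_const, smul_eq_mul, smul_eq_mul,
    ← mul_sum, ← hρ] at I
  have hcs : ∑ c ∈ Y.image nm, (Y.filter (fun y => nm y = c)).card = Y.card := by
    have := hfib (fun _ => 1)
    simpa using this
  rw [hcs, sum_add_distrib, sum_add_distrib, sum_const, smul_eq_mul] at I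
  -- second inequality
  have hP : ∀ y ∈ Y, l ≤ (Pp T d l y (π y) ∩ unc T d Y l).card + (ρ - 1) +
      ∑ z ∈ Y, (Pp T d l y (π y) ∩ Wt T d Y l z).card := by
    intro y hy
    obtain ⟨p1, p2, p3⟩ := hπ y hy
    have h3 := h2 y hy (π y) p1 (Ne.symm p2) p3.symm
    have h4 := hT.Pp_card (hY hy) (hY p1) (l := l) (by omega)
    have h5 := hT.nonfree_le hY hy p1 (l := l) (Pp T d l y (π y))
      (fun v hv => (mem_Pp.mp hv).1) (fun v hv => (mem_Pp.mp hv).2.1)
      (fun v hv => (mem_Pp.mp hv).2.2.1)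
      (by
        intro v hv
        rw [mem_Pp] at hv
        have h6 := hT.comm v hv.1 (π y) (hY p1)
        have h7 := hv.2.1
        unfold Bt at h7
        omega)
    have h6 := hT.names hY hl nm h2 hy p1
    have h7 : (Pp T d l y (π y)).card ≤ (Pp T d l y (π y) ∩ unc T d Y l).card +
        (Pp T d l y (π y) \ Free T d Y l).card +
        (Y.biUnion (fun z => Pp T d l y (π y) ∩ Wt T d Y l z)).card := by
      refine le_trans (card_le_card ?_) ((card_union_le _ _).trans
        (Nat.add_le_add_right (card_union_le _ _) _))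
      intro v hv
      rw [mem_union, mem_union, mem_inter, mem_sdiff, mem_biUnion]
      by_cases hu : v ∈ unc T d Y l
      · exact Or.inl (Or.inl ⟨hv, hu⟩)
      · by_cases hf : v ∈ Free T d Y l
        · right
          rw [mem_unc] at hu
          rw [mem_Free] at hf
          have : ∃ z ∈ Y, d z v < l := by
            by_contra hcon
            push Not at hcon
            exact hu ⟨hf.1, hcon⟩
          obtain ⟨z, hz, hzv⟩ := this
          exact ⟨z, hz, mem_inter.mpr ⟨hv, hf.2 z hz hzv⟩⟩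
        · exact Or.inl (Or.inr ⟨hv, hf⟩)
    have h8 : (Y.biUnion (fun z => Pp T d l y (π y) ∩ Wt T d Y l z)).card ≤
        ∑ z ∈ Y, (Pp T d l y (π y) ∩ Wt T d Y l z).card := card_biUnion_le
    omega
  have II := sum_le_sum hP
  rw [sum_add_distrib, sum_add_distrib, sum_const, sum_const, smul_eq_mul, smul_eq_mul,
    sum_comm] at II
  have hz : ∀ z ∈ Y, ∑ y ∈ Y, (Pp T d l y (π y) ∩ Wt T d Y l z).card ≤
      ρ * (Wt T d Y l z).card := by
    intro z hz
    rw [← hfib (fun y => (Pp T d l y (π y) ∩ Wt T d Y l z).card)]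
    have h3 : ∀ c ∈ Y.image nm, ∑ y ∈ Y.filter (fun y => nm y = c),
        (Pp T d l y (π y) ∩ Wt T d Y l z).card ≤ (Wt T d Y l z).card := by
      intro c _
      rw [← card_biUnion]
      · apply card_le_card
        rw [biUnion_subset]
        intro y hy
        exact inter_subset_right
      · intro y hy y' hy' hyy
        rw [Function.onFun, disjoint_left]
        intro v hv hv'
        rw [mem_coe, mem_filter] at hy hy'
        rw [mem_inter, mem_Pp] at hv hv'
        have h4 := h2 y hy.1 y' hy'.1 hyy (hy.2.trans hy'.2.symm)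
        have h5 := hT.tri y (hY hy.1) v hv.1.1 y' (hY hy'.1)
        have h6 := hT.comm v hv.1.1 y' (hY hy'.1)
        omega
    have h4 := sum_le_sum h3
    rw [sum_const, smul_eq_mul, ← hρ] at h4
    exact h4
  have hz' := sum_le_sum hz
  rw [← mul_sum] at hz'
  apply rep_arith l q ρ Y.card T.card (∑ y ∈ Y, (Pp T d l y (π y) ∩ unc T d Y l).card)
    (∑ y ∈ Y, (Wt T d Y l y).card) hρ1 hq hlq
  · have e1 : ρ * (2 * l * Y.card) = 2 * l * ρ * Y.card := by ring
    have e2 : ρ * (2 * T.card) = 2 * ρ * T.card := by ring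
    have e3 : Y.card * l = l * Y.card := by ring
    rw [e1, e2, e3] at I
    omega
  · have e1 : Y.card * (ρ - 1) = (ρ - 1) * Y.card := mul_comm _ _
    have e3 : Y.card * l = l * Y.card := by ring
    rw [e1, e3] at II
    omega

end

end Pool.Agent.H17.GM
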